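import Mathlib

/-!
Towers of exponential and logarithmic extensions of rings of analytic functions on `(0, ∞)`:
a uniform bound for the number of zeros, and lower bounds at infinity.
-/

set_option autoImplicit false

namespace Pool.Agent.MP_b50963_lc

open Set Filter Topology Asymptotics

abbrev Fn := ℝ → ℝ

/-- A filtered ring of analytic functions, closed under `Δ * d/dx`. -/
structure Ch (V : ℕ → AddSubgroup Fn) (Δ : Fn) : Prop where
  mono : Monotone V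
  const : ∀ c : ℝ, (fun _ => c) ∈ V 0
  mul : ∀ {a b : ℕ} {f g : Fn}, f ∈ V a → g ∈ V b → f * g ∈ V (a + b)
  der : ∀ {a : ℕ} {f : Fn}, f ∈ V a → ∃ g ∈ V (a + 1), ∀ x > 0, HasDerivAt f (g x / Δ x) x
  an : ∀ {a : ℕ} {f : Fn}, f ∈ V a → AnalyticOnNhd ℝ f (Ioi 0)
  pos : ∀ x > 0, 0 < Δ x
  den : ∃ a, Δ ∈ V a

/-- The data of an extension by `y`, with integrating factor `w`. -/
structure Dat (V : ℕ → AddSubgroup Fn) (Δ y w g α β : Fn) : Prop where
  hg : g ∈ V 2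
  hα : α ∈ V 2
  hβ : β ∈ V 2
  gpos : ∀ x > 0, 0 < g x
  wpos : ∀ x > 0, 0 < w x
  dy : ∀ x > 0, HasDerivAt y ((α x * y x + β x) / (Δ x * g x)) x
  dw : ∀ x > 0, HasDerivAt w (α x * w x / (Δ x * g x)) x
  any : AnalyticOnNhd ℝ y (Ioi 0)

/-- Polynomials in `y` of degree less than `d` with coefficients in `V i`. -/
def PL (V : ℕ → AddSubgroup Fn) (y : Fn) (i d : ℕ) : AddSubgroup Fn :=
  AddSubgroup.closure {f | ∃ c ∈ V i, ∃ k < d, f = c * y ^ k}

def ext (V : ℕ → AddSubgroup Fn) (y : Fn) (a : ℕ) : AddSubgroup Fn := PL V y (3 * a) (a + 1)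

section
variable {V : ℕ → AddSubgroup Fn} {Δ y w g α β : Fn}

theorem PL.gen {i d k : ℕ} {c : Fn} (hc : c ∈ V i) (hk : k < d) : c * y ^ k ∈ PL V y i d :=
  AddSubgroup.subset_closure ⟨c, hc, k, hk, rfl⟩

theorem PL.mono (h : Ch V Δ) {i j d e : ℕ} (h1 : i ≤ j) (h2 : d ≤ e) :
    PL V y i d ≤ PL V y j e :=
  AddSubgroup.closure_mono fun _ ⟨c, hc, k, hk, e⟩ => ⟨c, h.mono h1 hc, k, hk.trans_le h2, e⟩

theorem PL.ind {i d : ℕ} {P : Fn → Prop} (h0 : P 0) (ha : ∀ f g, P f → P g → P (f + g))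
    (hg : ∀ c ∈ V i, ∀ k < d, P (c * y ^ k)) {f : Fn} (hf : f ∈ PL V y i d) : P f := by
  have : P f ∧ P (-f) := by
    induction hf using AddSubgroup.closure_induction with
    | mem f hf =>
      obtain ⟨c, hc, k, hk, rfl⟩ := hf
      exact ⟨hg c hc k hk, by rw [← neg_mul]; exact hg _ (neg_mem hc) k hk⟩
    | zero => rw [neg_zero]; exact ⟨h0, h0⟩
    | add f g _ _ h1 h2 => exact ⟨ha _ _ h1.1 h2.1, by rw [neg_add]; exact ha _ _ h1.2 h2.2⟩
    | neg f _ h1 => exact ⟨h1.2, by rw [neg_neg]; exact h1.1⟩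
  exact this.1

theorem PL.mul (h : Ch V Δ) {i j d e : ℕ} {f u : Fn} (hf : f ∈ PL V y i (d + 1))
    (hu : u ∈ PL V y j e) : f * u ∈ PL V y (i + j) (d + e) := by
  refine PL.ind (P := fun f => f * u ∈ PL V y (i + j) (d + e)) (by simp)
    (fun _ _ h1 h2 => by rw [add_mul]; exact add_mem h1 h2) (fun c hc k hk => ?_) hf
  refine PL.ind (P := fun u => c * y ^ k * u ∈ PL V y (i + j) (d + e)) (by simp)
    (fun _ _ h1 h2 => by rw [mul_add]; exact add_mem h1 h2) (fun c' hc' k' hk' => ?_) hu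
  have : c * y ^ k * (c' * y ^ k') = c * c' * y ^ (k + k') := by ring
  rw [this]
  exact PL.gen (h.mul hc hc') (by omega)

theorem PL.base {i d : ℕ} {c : Fn} (hc : c ∈ V i) : c ∈ PL V y i (d + 1) := by
  simpa using PL.gen (y := y) hc (Nat.succ_pos d)

theorem PL.smul (h : Ch V Δ) {i j e : ℕ} {c u : Fn} (hc : c ∈ V i) (hu : u ∈ PL V y j e) :
    c * u ∈ PL V y (i + j) e := by
  simpa using PL.mul h (PL.base (d := 0) hc) hu

theorem PL.an (h : Ch V Δ) (hy : AnalyticOnNhd ℝ y (Ioi 0)) {i d : ℕ} {f : Fn}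
    (hf : f ∈ PL V y i d) : AnalyticOnNhd ℝ f (Ioi 0) :=
  PL.ind (P := fun f => AnalyticOnNhd ℝ f (Ioi 0)) analyticOnNhd_const (fun _ _ a b => a.add b)
    (fun _ hc k _ => (h.an hc).mul (hy.pow k)) hf

theorem Ch.nat (h : Ch V Δ) {i : ℕ} {c : Fn} (hc : c ∈ V i) (k : ℕ) : (k : Fn) * c ∈ V i := by
  rw [← nsmul_eq_mul]; exact nsmul_mem hc k

theorem der_mon (h : Ch V Δ) (D : Dat V Δ y w g α β) {c c' : Fn}
    (hc : ∀ x > 0, HasDerivAt c (c' x / Δ x) x) (k : ℕ) : ∀ x > 0, HasDerivAt (c * y ^ k)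
      (((c' * g + k * (α * c)) * y ^ k + k * (β * c) * y ^ (k - 1)) x / (Δ x * g x)) x := by
  intro x hx
  have h1 := (h.pos x hx).ne'
  have h2 := (D.gpos x hx).ne'
  refine ((hc x hx).mul ((D.dy x hx).pow k)).congr_deriv ?_
  rcases k with _ | k
  · simp; field_simp
  · simp; field_simp; ring

theorem PL.der (h : Ch V Δ) (D : Dat V Δ y w g α β) {i d : ℕ} {f : Fn} (hf : f ∈ PL V y i d) :
    ∃ u ∈ PL V y (i + 3) d, ∀ x > 0, HasDerivAt f (u x / (Δ x * g x)) x := by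
  refine PL.ind (P := fun f => ∃ u ∈ PL V y (i + 3) d, ∀ x > 0,
    HasDerivAt f (u x / (Δ x * g x)) x) ⟨0, zero_mem _, fun x _ => ?_⟩ ?_ ?_ hf
  · simpa using hasDerivAt_const x (0 : ℝ)
  · rintro f f' ⟨u, h1, h2⟩ ⟨u', h3, h4⟩
    exact ⟨u + u', add_mem h1 h3, fun x hx => by
      rw [Pi.add_apply, add_div]; exact (h2 x hx).add (h4 x hx)⟩
  · intro c hc k hk
    obtain ⟨c', h1, h2⟩ := h.der hc
    exact ⟨_, add_mem (PL.gen (add_mem (h.mul (a := i + 1) (b := 2) h1 D.hg)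
      (h.mono (by omega) (h.nat (h.mul D.hα hc) k))) hk)
      (PL.gen (h.mono (by omega) (h.nat (h.mul D.hβ hc) k)) (by omega)), der_mon h D h2 k⟩

theorem Ch.le_ext (h : Ch V Δ) (y : Fn) (a : ℕ) : V a ≤ ext V y a :=
  fun _ hf => PL.base (h.mono (by omega) hf)

theorem Ch.ext (h : Ch V Δ) (D : Dat V Δ y w g α β) : Ch (ext V y) (Δ * g) where
  mono := fun _ _ e => PL.mono h (by omega) (by omega)
  const := fun c => PL.base (h.const c)
  mul := fun h1 h2 => PL.mono h (by omega) (by omega) (PL.mul h h1 h2)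
  der := fun hf => by
    obtain ⟨u, h1, h2⟩ := PL.der h D hf
    exact ⟨u, PL.mono h (by omega) (by omega) h1, h2⟩
  an := PL.an h D.any
  pos := fun x hx => mul_pos (h.pos x hx) (D.gpos x hx)
  den := by
    obtain ⟨a, ha⟩ := h.den
    exact ⟨a + 2, h.le_ext y _ (h.mul ha D.hg)⟩

theorem PL.split {i d : ℕ} {f : Fn} (hf : f ∈ PL V y i (d + 1)) :
    ∃ c ∈ V i, f - c * y ^ d ∈ PL V y i d := by
  refine PL.ind (P := fun f => ∃ c ∈ V i, f - c * y ^ d ∈ PL V y i d)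
    ⟨0, zero_mem _, by simp⟩ ?_ ?_ hf
  · rintro f f' ⟨c, h1, h2⟩ ⟨c', h3, h4⟩
    refine ⟨c + c', add_mem h1 h3, ?_⟩
    convert add_mem h2 h4 using 1
    ring
  · intro c hc k hk
    rcases Nat.lt_succ_iff_lt_or_eq.1 hk with e | rfl
    · exact ⟨0, zero_mem _, by simpa using PL.gen hc e⟩
    · exact ⟨c, hc, by simp⟩

/-- Division by the leading term and differentiation lower the degree. -/
theorem PL.step (h : Ch V Δ) (D : Dat V Δ y w g α β) {i d : ℕ} {f : Fn}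
    (hf : f ∈ PL V y i (d + 1)) : ∃ c ∈ V i, f - c * y ^ d ∈ PL V y (2 * i + 3) d ∧
      ∃ N ∈ PL V y (2 * i + 3) d, ∀ x > 0, c x ≠ 0 → HasDerivAt (f / (c * w ^ d))
        (N x / (Δ x * g x * c x ^ 2 * w x ^ d)) x := by
  obtain ⟨c, hc, hr⟩ := PL.split hf
  obtain ⟨c', h1, h2⟩ := h.der hc
  obtain ⟨u, h3, h4⟩ := PL.der h D hr
  have hl : c' * g + d * (α * c) ∈ V (i + 3) :=
    add_mem (h.mul (a := i + 1) (b := 2) h1 D.hg) (h.mono (by omega) (h.nat (h.mul D.hα hc) d))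
  have hb : (d : Fn) * (β * c) * y ^ (d - 1) ∈ PL V y (i + 3) d := by
    rcases d with _ | d
    · simp
    · exact PL.gen (h.mono (by omega) (h.nat (h.mul D.hβ hc) _)) (by omega)
  refine ⟨c, hc, PL.mono h (by omega) le_rfl hr,
    c * (u + d * (β * c) * y ^ (d - 1)) - (c' * g + d * (α * c)) * (f - c * y ^ d),
    sub_mem (PL.mono h (by omega) le_rfl (PL.smul h hc (add_mem h3 hb)))
      (PL.mono h (by omega) le_rfl (PL.smul h hl hr)), fun x hx hcx => ?_⟩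
  have e1 := (h.pos x hx).ne'
  have e2 := (D.gpos x hx).ne'
  have e3 := (D.wpos x hx).ne'
  have a1 := (h4 x hx).add (der_mon h D h2 d x hx)
  rw [sub_add_cancel] at a1
  have a2 := (h2 x hx).mul ((D.dw x hx).pow d)
  refine (a1.div a2 (mul_ne_zero hcx (pow_ne_zero d e3))).congr_deriv ?_
  rcases d with _ | d
  · simp; field_simp; ring
  · simp; field_simp; ring

end

/-! Zeros. -/

/-- `f` vanishes identically or has at most `B` zeros. -/
def Zb (f : Fn) (B : ℕ) : Prop :=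
  (∀ x > 0, f x = 0) ∨ ∃ S : Finset ℝ, S.card ≤ B ∧ ∀ x > 0, f x = 0 → x ∈ S

theorem count_zeros {T : Set ℝ} {S : Finset ℝ}
    (h : ∀ a ∈ T, ∀ b ∈ T, a < b → ∃ s ∈ S, a ≤ s ∧ s ≤ b) :
    ∃ S' : Finset ℝ, S'.card ≤ 2 * S.card + 1 ∧ ∀ x ∈ T, x ∈ S' := by
  let μ : ℝ → ℕ := fun z => (S.filter (· < z)).card + (S.filter (· ≤ z)).card
  have hm : StrictMonoOn μ T := by
    intro a ha b hb hab
    obtain ⟨s, h1, h2, h3⟩ := h a ha b hb hab
    have s1 : S.filter (· < a) ⊆ S.filter (· < b) :=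
      Finset.monotone_filter_right _ fun _ _ e => e.trans hab
    have s2 : S.filter (· ≤ a) ⊆ S.filter (· ≤ b) :=
      Finset.monotone_filter_right _ fun _ _ e => e.trans hab.le
    rcases h2.eq_or_lt with rfl | h2
    · exact add_lt_add_of_lt_of_le (Finset.card_lt_card ((Finset.ssubset_iff_of_subset s1).2
        ⟨a, by simp [h1, hab], by simp⟩)) (Finset.card_le_card s2)
    · exact add_lt_add_of_le_of_lt (Finset.card_le_card s1) (Finset.card_lt_card
        ((Finset.ssubset_iff_of_subset s2).2 ⟨s, by simp [h1, h3], by simp [h2]⟩))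
  have hr : ∀ z, μ z ∈ Finset.range (2 * S.card + 1) := fun z => by
    have h1 := Finset.card_filter_le S (· < z)
    have h2 := Finset.card_filter_le S (· ≤ z)
    exact Finset.mem_range.2 (by simp only [μ]; omega)
  have hf : T.Finite := Finite.of_finite_image
    ((Finset.finite_toSet _).subset fun _ ⟨z, _, e⟩ => e ▸ hr z) hm.injOn
  refine ⟨hf.toFinset, ?_, fun x hx => hf.mem_toFinset.2 hx⟩
  simpa using Finset.card_le_card_of_injOn (s := hf.toFinset) μ (fun z _ => hr z)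
    (by simpa using hm.injOn)

theorem PL.zb {V : ℕ → AddSubgroup Fn} {Δ y w g α β : Fn} (h : Ch V Δ) (D : Dat V Δ y w g α β)
    {B d i : ℕ} (hB : ∀ c ∈ V (2 ^ d * (i + 3)), Zb c B) {f : Fn} (hf : f ∈ PL V y i d) :
    Zb f (3 ^ d * (2 * B + 1)) := by
  classical
  induction d generalizing i f with
  | zero =>
    exact Or.inl (PL.ind (P := fun f => ∀ x > 0, f x = 0) (fun _ _ => rfl)
      (fun _ _ a b x hx => by simp [a x hx, b x hx]) (fun _ _ _ e => absurd e (by omega)) hf)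
  | succ d ih =>
    obtain ⟨c, hc, hr, N, hN, hd⟩ := PL.step h D hf
    have e : 2 ^ d * (2 * i + 3 + 3) = 2 ^ (d + 1) * (i + 3) := by ring
    have hp : 0 < 3 ^ d := by positivity
    have hq : 0 < 2 ^ (d + 1) := by positivity
    rcases hB c (h.mono (by nlinarith) hc) with h0 | ⟨S, h1, h2⟩
    · have e' : ∀ x > 0, (f - c * y ^ d) x = f x := fun x hx => by simp [h0 x hx]
      rcases ih (e ▸ hB) hr with a | ⟨S, a1, a2⟩
      · exact Or.inl fun x hx => (e' x hx).symm.trans (a x hx)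
      · exact Or.inr ⟨S, a1.trans (by rw [pow_succ]; nlinarith),
          fun x hx k => a2 x hx ((e' x hx).trans k)⟩
    by_cases hz : ∀ x > 0, f x = 0
    · exact Or.inl hz
    have key : ∀ a b, 0 < a → a < b → f a = 0 → (∀ s ∈ S, a ≤ s → ¬ s ≤ b) → ∀ t ∈ Ioc a b,
        ∃ ξ ∈ Ioo a t, (N ξ = 0 ↔ f t = 0) := by
      intro a b ha _ fa hs t ht
      have hcn : ∀ x ∈ Icc a t, c x ≠ 0 := fun x hx k =>
        hs x (h2 x (ha.trans_le hx.1) k) hx.1 (hx.2.trans ht.2)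
      obtain ⟨ξ, k1, k2⟩ := exists_hasDerivAt_eq_slope (f / (c * w ^ d)) _ ht.1
        (fun x hx => (hd x (ha.trans_le hx.1) (hcn x hx)).continuousAt.continuousWithinAt)
        fun x hx => hd x (ha.trans hx.1) (hcn x (Ioo_subset_Icc_self hx))
      have p1 := (h.pos ξ (ha.trans k1.1)).ne'
      have p2 := (D.gpos ξ (ha.trans k1.1)).ne'
      have p3 := (D.wpos ξ (ha.trans k1.1)).ne'
      have p4 := (D.wpos t (ha.trans ht.1)).ne'
      have p5 := hcn ξ (Ioo_subset_Icc_self k1)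
      have p6 := hcn t ⟨ht.1.le, le_rfl⟩
      have p7 := (sub_pos.2 ht.1).ne'
      refine ⟨ξ, k1, ?_⟩
      have := congrArg (· = 0) k2
      simpa [fa, p1, p2, p3, p4, p5, p6, p7] using this
    obtain ⟨S', k1, k2⟩ : ∃ S' : Finset ℝ, S'.card ≤ 3 ^ d * (2 * B + 1) ∧
        ∀ a b, 0 < a → a < b → f a = 0 → f b = 0 → ∃ s ∈ S ∪ S', a ≤ s ∧ s ≤ b := by
      rcases ih (e ▸ hB) hN with a | ⟨S', a1, a2⟩
      · refine ⟨∅, by simp, fun a b ha hab fa _ => ?_⟩
        by_contra k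
        refine hz ((PL.an h D.any hf).eqOn_zero_of_preconnected_of_eventuallyEq_zero
          isPreconnected_Ioi (z₀ := (a + b) / 2) (by simp; linarith) ?_)
        filter_upwards [Ioo_mem_nhds (show a < (a + b) / 2 by linarith)
          (show (a + b) / 2 < b by linarith)] with t ht
        obtain ⟨ξ, k1, k2⟩ := key a b ha hab fa
          (fun s hs s1 s2 => k ⟨s, by simp [hs], s1, s2⟩) t (Ioo_subset_Ioc_self ht)
        exact k2.1 (‹∀ x > 0, N x = 0› ξ (ha.trans k1.1))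
      · refine ⟨S', a1, fun a b ha hab fa fb => ?_⟩
        by_contra k
        obtain ⟨ξ, k1, k2⟩ := key a b ha hab fa
          (fun s hs s1 s2 => k ⟨s, by simp [hs], s1, s2⟩) b ⟨hab, le_rfl⟩
        exact k ⟨ξ, by simp [a2 ξ (ha.trans k1.1) (k2.2 fb)], k1.1.le, k1.2.le⟩
    obtain ⟨S'', k3, k4⟩ := count_zeros (T := {x | 0 < x ∧ f x = 0}) (S := S ∪ S')
      fun a ha b hb hab => k2 a b ha.1 hab ha.2 hb.2
    have := Finset.card_union_le S S'
    exact Or.inr ⟨S'', k3.trans (by rw [pow_succ]; nlinarith), fun x hx k => k4 x ⟨hx, k⟩⟩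

def kap (a : ℕ) : ℕ := 2 ^ (a + 1) * (3 * a + 3)
def phi (b : ℕ) : ℕ := 3 ^ b * (2 * b + 1)
/-- The bound for the number of zeros after `n` extensions. -/
def Bd (n a : ℕ) : ℕ := phi^[n] (kap^[n] a)

theorem lt_kap (a : ℕ) : a < kap a := by
  have : 0 < 2 ^ (a + 1) := by positivity
  unfold kap; nlinarith

theorem le_Bd (n a : ℕ) : a ≤ Bd n a := by
  have h1 : ∀ b, b ≤ phi b := fun b => by
    have : 0 < 3 ^ b := by positivity
    unfold phi; nlinarith
  exact (Function.id_le_iterate_of_id_le (fun b => (lt_kap b).le) n a).trans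
    (Function.id_le_iterate_of_id_le h1 n _)

def ZQ (n : ℕ) (V : ℕ → AddSubgroup Fn) : Prop := ∀ a, ∀ f ∈ V a, Zb f (Bd n a)

theorem ZQ.ext {V : ℕ → AddSubgroup Fn} {Δ y w g α β : Fn} (h : Ch V Δ) (D : Dat V Δ y w g α β)
    {n : ℕ} (hQ : ZQ n V) : ZQ (n + 1) (ext V y) := by
  intro a f hf
  have e : Bd (n + 1) a = phi (Bd n (kap a)) := by
    rw [Bd, Function.iterate_succ_apply', Function.iterate_succ_apply, Bd]
  refine (PL.zb h D (hQ (kap a)) hf).imp_right fun ⟨S, h1, h2⟩ => ⟨S, h1.trans ?_, h2⟩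
  rw [e, phi]
  exact Nat.mul_le_mul_right _ (Nat.pow_le_pow_right (by omega)
    ((lt_kap a).trans_le (le_Bd n _)))

end Pool.Agent.MP_b50963_lc
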