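import Pool.Agent.MP_b50963_lc.Tame
import Pool.Agent.MP_d9ba76_lc.Prim

/-!
Codes of exponential terms, their evaluation, and the decidability of eventual equality.
-/

set_option autoImplicit false

namespace Pool.Agent.MP_b50963_lc

open Set Filter Pool.Agent.MP_d9ba76_lc

/-- The value at `z` of the term with code `n`. -/
def ev (n z : ℕ) : ℕ :=
  if n % 5 = 0 then z else if n % 5 = 1 then n / 5
  else if n % 5 = 2 then ev (n / 5).unpair.1 z + ev (n / 5).unpair.2 z
  else if n % 5 = 3 then ev (n / 5).unpair.1 z * ev (n / 5).unpair.2 z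
  else ev (n / 5).unpair.1 z ^ ev (n / 5).unpair.2 z
termination_by n
decreasing_by
  all_goals
    have h1 := Nat.unpair_left_le (n / 5)
    have h2 := Nat.unpair_right_le (n / 5)
    omega

def cs (c : ℕ) : ℕ := 5 * c + 1
def ad (s t : ℕ) : ℕ := 5 * Nat.pair s t + 2
def mu (s t : ℕ) : ℕ := 5 * Nat.pair s t + 3
def pw (s t : ℕ) : ℕ := 5 * Nat.pair s t + 4

@[simp] theorem ev_zero (z : ℕ) : ev 0 z = z := by rw [ev]; simp
@[simp] theorem ev_cs (c z : ℕ) : ev (cs c) z = c := by
  rw [ev, if_neg (by unfold cs; omega), if_pos (by unfold cs; omega)]; unfold cs; omega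
@[simp] theorem ev_ad (s t z : ℕ) : ev (ad s t) z = ev s z + ev t z := by
  have : ad s t / 5 = Nat.pair s t := by unfold ad; omega
  rw [ev, if_neg (by unfold ad; omega), if_neg (by unfold ad; omega), if_pos (by unfold ad; omega),
    this, Nat.unpair_pair]
@[simp] theorem ev_mu (s t z : ℕ) : ev (mu s t) z = ev s z * ev t z := by
  have : mu s t / 5 = Nat.pair s t := by unfold mu; omega
  rw [ev, if_neg (by unfold mu; omega), if_neg (by unfold mu; omega), if_neg (by unfold mu; omega),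
    if_pos (by unfold mu; omega), this, Nat.unpair_pair]
@[simp] theorem ev_pw (s t z : ℕ) : ev (pw s t) z = ev s z ^ ev t z := by
  have : pw s t / 5 = Nat.pair s t := by unfold pw; omega
  rw [ev, if_neg (by unfold pw; omega), if_neg (by unfold pw; omega), if_neg (by unfold pw; omega),
    if_neg (by unfold pw; omega), this, Nat.unpair_pair]

theorem code_ind {P : ℕ → Prop} (hx : ∀ n, (∀ z, ev n z = z) → P n)
    (hc : ∀ n c, (∀ z, ev n z = c) → P n)
    (ha : ∀ n s t, s < n → t < n → 2 ≤ n → P s → P t → (∀ z, ev n z = ev s z + ev t z) → P n)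
    (hm : ∀ n s t, s < n → t < n → 2 ≤ n → P s → P t → (∀ z, ev n z = ev s z * ev t z) → P n)
    (hp : ∀ n s t, s < n → t < n → 2 ≤ n → P s → P t → (∀ z, ev n z = ev s z ^ ev t z) → P n)
    (n : ℕ) : P n := by
  induction n using Nat.strong_induction_on with
  | _ n ih =>
    have h1 := Nat.unpair_left_le (n / 5)
    have h2 := Nat.unpair_right_le (n / 5)
    by_cases a0 : n % 5 = 0
    · exact hx n fun z => by rw [ev, if_pos a0]
    by_cases a1 : n % 5 = 1
    · exact hc n _ fun z => by rw [ev, if_neg a0, if_pos a1]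
    have l1 : (n / 5).unpair.1 < n := by omega
    have l2 : (n / 5).unpair.2 < n := by omega
    by_cases a2 : n % 5 = 2
    · exact ha n _ _ l1 l2 (by omega) (ih _ l1) (ih _ l2) fun z => by
        rw [ev, if_neg a0, if_neg a1, if_pos a2]
    by_cases a3 : n % 5 = 3
    · exact hm n _ _ l1 l2 (by omega) (ih _ l1) (ih _ l2) fun z => by
        rw [ev, if_neg a0, if_neg a1, if_neg a2, if_pos a3]
    · exact hp n _ _ l1 l2 (by omega) (ih _ l1) (ih _ l2) fun z => by
        rw [ev, if_neg a0, if_neg a1, if_neg a2, if_neg a3]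

section
variable {α : Type} [Primcodable α]

@[fun_prop] theorem pr_mod {f g : α → ℕ} (hf : Primrec f) (hg : Primrec g) :
    Primrec fun a => f a % g a := Primrec.nat_mod.comp hf hg

@[fun_prop] theorem pr_div {f g : α → ℕ} (hf : Primrec f) (hg : Primrec g) :
    Primrec fun a => f a / g a := Primrec.nat_div.comp hf hg

@[fun_prop] theorem pr_npair {f g : α → ℕ} (hf : Primrec f) (hg : Primrec g) :
    Primrec fun a => Nat.pair (f a) (g a) := Primrec₂.natPair.comp hf hg

@[fun_prop] theorem pr_cs {f : α → ℕ} (hf : Primrec f) : Primrec fun a => cs (f a) := by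
  unfold cs; fun_prop

@[fun_prop] theorem pr_ad {f g : α → ℕ} (hf : Primrec f) (hg : Primrec g) :
    Primrec fun a => ad (f a) (g a) := by unfold ad; fun_prop

@[fun_prop] theorem pr_mu {f g : α → ℕ} (hf : Primrec f) (hg : Primrec g) :
    Primrec fun a => mu (f a) (g a) := by unfold mu; fun_prop

@[fun_prop] theorem pr_pw {f g : α → ℕ} (hf : Primrec f) (hg : Primrec g) :
    Primrec fun a => pw (f a) (g a) := by unfold pw; fun_prop

@[fun_prop] theorem pr_ev {f g : α → ℕ} (hf : Primrec f) (hg : Primrec g) :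
    Primrec fun a => ev (f a) (g a) := by
  have : Primrec₂ fun z n => ev n z := by
    refine Primrec.nat_strong_rec _ (g := fun z l => some (
      if l.length % 5 = 0 then z else if l.length % 5 = 1 then l.length / 5
      else if l.length % 5 = 2 then
        l.getD (l.length / 5).unpair.1 0 + l.getD (l.length / 5).unpair.2 0
      else if l.length % 5 = 3 then
        l.getD (l.length / 5).unpair.1 0 * l.getD (l.length / 5).unpair.2 0
      else l.getD (l.length / 5).unpair.1 0 ^ l.getD (l.length / 5).unpair.2 0)) ?_ fun z n => ?_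
    · refine pr_some ?_
      iterate 4 refine Primrec.ite (pp_eq (by fun_prop) (by fun_prop)) (by fun_prop) ?_
      fun_prop
    · have h1 := Nat.unpair_left_le (n / 5)
      have h2 := Nat.unpair_right_le (n / 5)
      have k : ∀ i < n, ((List.range n).map fun n => ev n z).getD i 0 = ev i z := fun i hi => by
        simp [List.getD_eq_getElem?_getD, hi]
      rw [List.length_map, List.length_range, ev]
      split_ifs <;> first | rfl | rw [k _ (by omega), k _ (by omega)]
  exact this.comp hg hf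

@[fun_prop] theorem pr_Bd {f g : α → ℕ} (hf : Primrec f) (hg : Primrec g) :
    Primrec fun a => Bd (f a) (g a) :=
  Primrec.nat_iterate (h := fun _ => phi) hf (Primrec.nat_iterate (h := fun _ => kap) hf hg
    (by unfold Primrec₂ kap; fun_prop)) (by unfold Primrec₂ phi; fun_prop)

end

theorem exists_reach (n : ℕ) : ∃ F, Reach (Wi ZQ) (3 ^ n) F ∧ (∀ z : ℕ, 0 < z → F z = ev n z) ∧
    ((∀ x > 0, F x = 0) ∨ ∀ x > 0, 0 < F x) := by
  have cn : ∀ n c : ℕ, (∀ z, 0 < z → ev n z = c) → ∃ F, Reach (Wi ZQ) (3 ^ n) F ∧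
      (∀ z : ℕ, 0 < z → F z = ev n z) ∧ ((∀ x > 0, F x = 0) ∨ ∀ x > 0, 0 < F x) := fun n c e =>
    ⟨fun _ => c, (Reach.const _).mono inv_ZQ (Nat.zero_le _), fun z hz => by rw [e z hz],
      (Nat.eq_zero_or_pos c).imp (fun h _ _ => by simp [h]) fun h _ _ => by simpa using h⟩
  have bd : ∀ n s t, s < n → t < n → 2 ≤ n → 3 ^ s + 3 ^ t + 3 ≤ 3 ^ n := by
    intro n s t h1 h2 h3
    obtain ⟨m, rfl⟩ := Nat.exists_eq_add_of_le' h3
    have a1 := Nat.pow_le_pow_right (show 0 < 3 by omega) (show s ≤ m + 1 by omega)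
    have a2 := Nat.pow_le_pow_right (show 0 < 3 by omega) (show t ≤ m + 1 by omega)
    have a3 : 0 < 3 ^ m := by positivity
    rw [pow_succ] at a1 a2
    rw [pow_succ, pow_succ]
    omega
  induction n using code_ind with
  | hx n e =>
    exact ⟨fun x => x, Reach.id.mono inv_ZQ (Nat.zero_le _), fun z _ => by rw [e],
      Or.inr fun _ h => h⟩
  | hc n c e => exact cn n c fun z _ => e z
  | ha n s t h1 h2 h3 a b e =>
    obtain ⟨F, a1, a2, a3⟩ := a
    obtain ⟨G, b1, b2, b3⟩ := b
    refine ⟨F + G, (a1.add b1).mono inv_ZQ (by have := bd n s t h1 h2 h3; omega),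
      fun z hz => by simp [e, a2 z hz, b2 z hz], ?_⟩
    rcases a3 with a3 | a3 <;> rcases b3 with b3 | b3
    · exact Or.inl fun x hx => by simp [a3 x hx, b3 x hx]
    · exact Or.inr fun x hx => by simp [a3 x hx, b3 x hx]
    · exact Or.inr fun x hx => by simp [a3 x hx, b3 x hx]
    · exact Or.inr fun x hx => add_pos (a3 x hx) (b3 x hx)
  | hm n s t h1 h2 h3 a b e =>
    obtain ⟨F, a1, a2, a3⟩ := a
    obtain ⟨G, b1, b2, b3⟩ := b
    refine ⟨F * G, (a1.mul inv_ZQ b1).mono inv_ZQ (by have := bd n s t h1 h2 h3; omega),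
      fun z hz => by simp [e, a2 z hz, b2 z hz], ?_⟩
    rcases a3 with a3 | a3
    · exact Or.inl fun x hx => by simp [a3 x hx]
    · exact b3.imp (fun b3 x hx => by simp [b3 x hx]) fun b3 x hx => mul_pos (a3 x hx) (b3 x hx)
  | hp n s t h1 h2 h3 a b e =>
    obtain ⟨F, a1, a2, a3⟩ := a
    obtain ⟨G, b1, b2, b3⟩ := b
    rcases a3 with a3 | a3
    · have k : ∀ z, 0 < z → ev s z = 0 := fun z hz => by
        exact_mod_cast (a2 z hz).symm.trans (a3 z (by exact_mod_cast hz))
      rcases b3 with b3 | b3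
      · refine cn n 1 fun z hz => ?_
        have : ev t z = 0 := by exact_mod_cast (b2 z hz).symm.trans (b3 z (by exact_mod_cast hz))
        rw [e, this, pow_zero]
      · refine cn n 0 fun z hz => ?_
        have : 0 < ev t z := by exact_mod_cast (b3 z (by exact_mod_cast hz)).trans_eq (b2 z hz)
        rw [e, k z hz, zero_pow this.ne']
    · refine ⟨_, (((a1.log inv_ZQ a3 trivial).mul inv_ZQ b1).exp inv_ZQ trivial trivial).mono
        inv_ZQ (by have := bd n s t h1 h2 h3; omega), fun z hz => ?_,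
        Or.inr fun _ _ => Real.exp_pos _⟩
      rw [Pi.mul_apply, ← Real.rpow_def_of_pos (a3 z (by exact_mod_cast hz)), a2 z hz, b2 z hz, e,
        Real.rpow_natCast, Nat.cast_pow]

/-- Eventual equality of terms. -/
def Idt (s t : ℕ) : Prop := ∀ᶠ z in atTop, ev s z = ev t z

theorem idt_iff (s t : ℕ) : Idt s t ↔
    ∀ z ∈ List.range (Bd (1 + (3 ^ s + 3 ^ t)) 1 + 1), ev s (z + 1) = ev t (z + 1) := by
  obtain ⟨F, a1, a2, -⟩ := exists_reach s
  obtain ⟨G, b1, b2, -⟩ := exists_reach t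
  have e : ∀ z : ℕ, 0 < z → ((F + -G) z = 0 ↔ ev s z = ev t z) := fun z hz => by
    simp [a2 z hz, b2 z hz, add_neg_eq_zero]
  rcases (a1.add b1.neg).zb.1 with h | ⟨S, h1, h2⟩
  · have k : ∀ z : ℕ, 0 < z → ev s z = ev t z := fun z hz =>
      (e z hz).1 (h z (by exact_mod_cast hz))
    exact iff_of_true ((eventually_gt_atTop 0).mono k) fun z _ => k _ (Nat.succ_pos z)
  · refine iff_of_false (fun h => ?_) fun h => ?_
    · have : ∀ᶠ z : ℕ in atTop, (z : ℝ) ∉ S := by
        rw [← Nat.cofinite_eq_atTop]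
        exact (S.finite_toSet.preimage Nat.cast_injective.injOn).compl_mem_cofinite
      obtain ⟨z, k1, k2, k3⟩ := (h.and (this.and (eventually_gt_atTop 0))).exists
      exact k2 (h2 z (by exact_mod_cast k3) ((e z k3).2 k1))
    · have := Finset.card_le_card_of_injOn (s := Finset.range (Bd (1 + (3 ^ s + 3 ^ t)) 1 + 1))
        (t := S) (fun z : ℕ => ((z + 1 : ℕ) : ℝ)) (fun z hz => h2 _ (by positivity)
          ((e _ (Nat.succ_pos z)).2 (h z (by simpa using hz)))) fun _ _ _ _ k => by simpa using k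
      rw [Finset.card_range] at this
      omega

theorem pp_idt {α : Type} [Primcodable α] {f g : α → ℕ} (hf : Primrec f) (hg : Primrec g) :
    PrimrecPred fun a => Idt (f a) (g a) :=
  (pp_all (p := fun y : α × ℕ => ev (f y.1) (y.2 + 1) = ev (g y.1) (y.2 + 1))
    (pp_eq (by fun_prop) (by fun_prop))
    (l := fun a => List.range (Bd (1 + (3 ^ f a + 3 ^ g a)) 1 + 1)) (by fun_prop)).of_eq
    fun a => (idt_iff _ _).symm

/-! Inductive closure under a c.e. set of rules. -/

section
variable {γ : Type} (R : γ × List γ → Prop)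

inductive Cl : γ → Prop
  | intro (c : γ) (L : List γ) : R (c, L) → (∀ b ∈ L, Cl b) → Cl c

theorem cl_iff (c : γ) : Cl R c ↔ ∃ r : List ((γ × List γ) × ℕ), (∃ a ∈ r, a.1.1 = c) ∧
    ∀ a ∈ r, R a.1 ∧ ∀ b ∈ a.1.2, ∃ a' ∈ r, a'.1.1 = b ∧ a'.2 < a.2 := by
  constructor
  · intro h
    induction h with
    | intro c L h1 _ ih =>
      obtain ⟨r, n, k1, k2⟩ : ∃ (r : List ((γ × List γ) × ℕ)) (n : ℕ),
          (∀ b ∈ L, ∃ a ∈ r, a.1.1 = b ∧ a.2 < n) ∧
          ∀ a ∈ r, R a.1 ∧ ∀ b ∈ a.1.2, ∃ a' ∈ r, a'.1.1 = b ∧ a'.2 < a.2 := by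
        clear h1
        rename_i h2
        clear h2
        induction L with
        | nil => exact ⟨[], 0, by simp, by simp⟩
        | cons b L ih' =>
          obtain ⟨r, n, k1, k2⟩ := ih' fun d m => ih d (List.mem_cons_of_mem _ m)
          obtain ⟨r', ⟨a, k3, k4⟩, k5⟩ := ih b List.mem_cons_self
          refine ⟨r ++ r', n + a.2 + 1, fun d m => ?_, fun x m => ?_⟩
          · rcases List.mem_cons.1 m with rfl | m
            · exact ⟨a, List.mem_append_right _ k3, k4, by omega⟩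
            · obtain ⟨x, x1, x2, x3⟩ := k1 d m
              exact ⟨x, List.mem_append_left _ x1, x2, by omega⟩
          · rcases List.mem_append.1 m with m | m
            · exact ⟨(k2 x m).1, fun d e => ((k2 x m).2 d e).imp fun _ y =>
                ⟨List.mem_append_left _ y.1, y.2⟩⟩
            · exact ⟨(k5 x m).1, fun d e => ((k5 x m).2 d e).imp fun _ y =>
                ⟨List.mem_append_right _ y.1, y.2⟩⟩
      refine ⟨((c, L), n) :: r, ⟨_, List.mem_cons_self, rfl⟩, fun x m => ?_⟩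
      rcases List.mem_cons.1 m with rfl | m
      · exact ⟨h1, fun d e => (k1 d e).imp fun _ y => ⟨List.mem_cons_of_mem _ y.1, y.2⟩⟩
      · exact ⟨(k2 x m).1, fun d e => ((k2 x m).2 d e).imp fun _ y =>
          ⟨List.mem_cons_of_mem _ y.1, y.2⟩⟩
  · rintro ⟨r, ⟨a, h1, rfl⟩, h2⟩
    induction hn : a.2 using Nat.strong_induction_on generalizing a with
    | _ n ih =>
      refine Cl.intro _ a.1.2 (h2 a h1).1 fun b m => ?_
      obtain ⟨a', k1, rfl, k2⟩ := (h2 a h1).2 b m
      exact ih _ (hn ▸ k2) a' k1 rfl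

theorem ce_cl [Primcodable γ] (h : CE R) : CE (Cl R) := by
  refine (CE.ex (p := fun z : γ × List ((γ × List γ) × ℕ) => (∃ a ∈ z.2, a.1.1 = z.1) ∧
    ∀ a ∈ z.2, R a.1 ∧ ∀ b ∈ a.1.2, ∃ a' ∈ z.2, a'.1.1 = b ∧ a'.2 < a.2)
    ((CE.of_pred ?_).and ?_)).congr fun c => (cl_iff R c).symm
  · exact pp_any (p := fun y : (γ × List ((γ × List γ) × ℕ)) × ((γ × List γ) × ℕ) =>
      y.2.1.1 = y.1.1) (pp_eq (by fun_prop) (by fun_prop)) (by fun_prop)
  · refine CE.all (p := fun y : (γ × List ((γ × List γ) × ℕ)) × ((γ × List γ) × ℕ) =>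
      R y.2.1 ∧ ∀ b ∈ y.2.1.2, ∃ a' ∈ y.1.2, a'.1.1 = b ∧ a'.2 < y.2.2)
      ((h.comp (by fun_prop)).and (CE.of_pred ?_)) (by fun_prop)
    refine pp_all (p := fun y : ((γ × List ((γ × List γ) × ℕ)) × ((γ × List γ) × ℕ)) × γ =>
      ∃ a' ∈ y.1.1.2, a'.1.1 = y.2 ∧ a'.2 < y.1.2.2) ?_ (by fun_prop)
    exact pp_any (p := fun y : (((γ × List ((γ × List γ) × ℕ)) × ((γ × List γ) × ℕ)) × γ) ×
      ((γ × List γ) × ℕ) => y.2.1.1 = y.1.2 ∧ y.2.2 < y.1.1.2.2)
      ((pp_eq (by fun_prop) (by fun_prop)).and (pp_lt (by fun_prop) (by fun_prop))) (by fun_prop)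

end

theorem re_of_ce {α : Type} [Primcodable α] {p : α → Prop} (h : CE p) : REPred p := by
  classical
  obtain ⟨q, hq, e⟩ := h
  have := (Partrec.rfind (p := fun a n => (Part.some (decide (q (a, n))) : Part Bool))
    (Computable₂.partrec₂ (PrimrecPred.decide hq).to_comp.to₂)).dom_re
  refine this.of_eq fun a => ?_
  rw [e]
  simp [Nat.rfind_dom]

end Pool.Agent.MP_b50963_lc
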