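import Mathlib

/-!
Hermite's theorem: the number `e` is transcendental.
-/

set_option autoImplicit false

namespace Pool.Agent.MP_b50963_lc

open Polynomial Finset Filter
open scoped Nat

theorem transcendental_e : Transcendental ℚ (Real.exp 1) := by
  intro h
  have h' : IsAlgebraic ℤ (Real.exp 1) := (IsFractionRing.isAlgebraic_iff ℤ ℚ ℝ).2 h
  obtain ⟨P, h0, hP⟩ := h'.exists_nonzero_coeff_and_aeval_eq_zero
    (mem_nonZeroDivisors_of_ne_zero (Real.exp_pos 1).ne')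
  set d := P.natDegree
  have hrel : (P.coeff 0 : ℂ) + ∑ k ∈ range d, P.coeff (k + 1) * Complex.exp (k + 1 : ℕ) = 0 := by
    rw [aeval_eq_sum_range, sum_range_succ'] at hP
    have := congrArg (fun x : ℝ => (x : ℂ)) hP
    simp only [zsmul_eq_mul, ← Real.exp_nat_mul, mul_one] at this
    push_cast at this ⊢
    rw [← this, add_comm]
    simp [d]
  set f : ℤ[X] := ∏ k ∈ range d, (X - C ((k + 1 : ℕ) : ℤ)) with hf
  have hf0 : f.eval 0 ≠ 0 := by
    rw [hf, eval_prod]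
    exact prod_ne_zero_iff.2 fun i _ => by simp; omega
  have hroot : ∀ k ∈ range d, ((k + 1 : ℕ) : ℂ) ∈ f.aroots ℂ := fun k hk => by
    rw [mem_aroots]
    refine ⟨fun h => hf0 (by rw [h, eval_zero]), ?_⟩
    rw [hf, map_prod, prod_eq_zero hk (by simp)]
  obtain ⟨c, hc⟩ := LindemannWeierstrass.exp_polynomial_approx f hf0
  set M : ℝ := ∑ k ∈ range d, ‖(P.coeff (k + 1) : ℂ)‖
  have hlim : Tendsto (fun n : ℕ => M * (|c| * (|c| ^ n / n !))) atTop (nhds 0) := by
    simpa using ((FloorSemiring.tendsto_pow_div_factorial_atTop |c|).const_mul |c|).const_mul M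
  obtain ⟨N, hN⟩ := eventually_atTop.1 (hlim.eventually (gt_mem_nhds zero_lt_one))
  obtain ⟨p, hp, hprime⟩ :=
    Nat.exists_infinite_primes (N + (f.eval 0).natAbs + (P.coeff 0).natAbs + 1)
  obtain ⟨n, hn, g, -, happ⟩ := hc p (by omega) hprime
  set m : ℤ := ∑ k ∈ range d, P.coeff (k + 1) * g.eval ((k + 1 : ℕ) : ℤ) with hm
  have hne : P.coeff 0 * n + p * m ≠ 0 := by
    intro h
    rcases (Nat.prime_iff_prime_int.1 hprime).dvd_or_dvd
      (⟨-m, by linear_combination h⟩ : (p : ℤ) ∣ P.coeff 0 * n) with h4 | h4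
    · have := Nat.le_of_dvd (Int.natAbs_pos.2 h0) (Int.natCast_dvd.1 h4)
      omega
    · exact hn h4
  have h1 : (1 : ℝ) ≤ ‖((P.coeff 0 * n + p * m : ℤ) : ℂ)‖ := by
    rw [Complex.norm_intCast]
    exact_mod_cast Int.one_le_abs hne
  have e1 : ∀ k : ℕ, aeval ((k + 1 : ℕ) : ℂ) g = (g.eval ((k + 1 : ℕ) : ℤ) : ℤ) := fun k => by
    rw [← Int.cast_natCast, ← eq_intCast (algebraMap ℤ ℂ), aeval_algebraMap_apply_eq_algebraMap_eval,
      eq_intCast]
  have e : ((P.coeff 0 * n + p * m : ℤ) : ℂ) = -∑ k ∈ range d, P.coeff (k + 1) *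
      (n • Complex.exp (k + 1 : ℕ) - p • aeval ((k + 1 : ℕ) : ℂ) g) := by
    simp only [e1, zsmul_eq_mul, nsmul_eq_mul, mul_sub, sum_sub_distrib, mul_left_comm _ (n : ℂ),
      mul_left_comm _ (p : ℂ), ← mul_sum]
    rw [hm, Int.cast_add, Int.cast_mul, eq_neg_of_add_eq_zero_left hrel]
    push_cast
    ring
  rw [e, norm_neg] at h1
  have h3 := hN (p - 1) (by omega)
  obtain ⟨k, rfl⟩ : ∃ k, p = k + 1 := ⟨p - 1, by omega⟩
  refine absurd (h1.trans ((norm_sum_le _ _).trans ?_)) (not_le.2 h3)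
  rw [sum_mul]
  refine sum_le_sum fun i hi => ?_
  rw [norm_mul]
  refine mul_le_mul_of_nonneg_left ((happ (hroot i hi)).trans ?_) (norm_nonneg _)
  rw [Nat.add_sub_cancel, ← mul_div_assoc, ← pow_succ', ← abs_pow]
  gcongr
  exact le_abs_self _

theorem hermite {c : ℕ} (hc : 0 < c) {P : ℚ[X]} (h : aeval (Real.exp (1 / c)) P = 0) : P = 0 := by
  by_contra h0
  have := IsAlgebraic.pow (⟨P, h0, h⟩ : IsAlgebraic ℚ (Real.exp (1 / c))) c
  rw [← Real.exp_nat_mul, mul_one_div_cancel (by positivity)] at this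
  exact transcendental_e this

end Pool.Agent.MP_b50963_lc
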