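import Pool.Agent.MP_b50963_lc.Prov

/-!
Provably nonnegative functions.
-/

set_option autoImplicit false

namespace Pool.Agent.MP_b50963_lc

open Set Filter Topology Real Polynomial

theorem pr_plain {a b c : ℕ × ℕ} {u : ℕ} {L : List (ℕ × ℕ)} (h : (c, L) ∈ plain a b u)
    (hL : ∀ b ∈ L, Pr b) : Pr c := Cl.intro c L ⟨(a, b, u), Or.inl h⟩ hL

theorem Pr.congr {a b : ℕ × ℕ} (h : Pr b) (e : zv b =ᶠ[Nf] zv a) : Pr a :=
  Cl.intro a [b] ⟨(a, b, 0), Or.inr (Or.inl ⟨(idt_iff_zv a b).2 e, rfl⟩)⟩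
    (List.forall_mem_singleton.2 h)

theorem Pr.congr' {a b : ℕ × ℕ} (h : Pr b) (e : zv b = zv a) : Pr a := h.congr (e ▸ .rfl)

theorem pr_zs' (u : ℕ) : Pr (zs u) :=
  pr_plain (a := 0) (b := 0) (u := u) (L := []) (by simp [plain]) (by simp)

theorem Pr.add {a b : ℕ × ℕ} (h : Pr a) (h' : Pr b) : Pr (za a b) :=
  pr_plain (a := a) (b := b) (u := 0) (L := [a, b]) (by simp [plain]) (by simp [h, h'])

theorem Pr.mul {a b : ℕ × ℕ} (h : Pr a) (h' : Pr b) : Pr (zm a b) :=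
  pr_plain (a := a) (b := b) (u := 0) (L := [a, b]) (by simp [plain]) (by simp [h, h'])

theorem pr_one : Pr (cs 1, cs 1) := (pr_zs' (cs 0)).congr' (by simp)

theorem Pr.one_mul {u v : ℕ} (h : Pr (cs 1, u)) (h' : Pr (cs 1, v)) : Pr (cs 1, mu u v) :=
  ((h.mul h').add (h.add h')).congr' (by simp; ring)

theorem Pr.powl {s t : ℕ} (h : Pr (s, t)) (u : ℕ) : Pr (pw s u, pw t u) :=
  pr_plain (a := (s, t)) (b := 0) (u := u) (L := [(s, t)]) (by simp [plain]) (by simp [h])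

theorem Pr.one_pw {s : ℕ} (h : Pr (cs 1, s)) (u : ℕ) : Pr (cs 1, pw s u) :=
  (h.powl u).congr' (by funext x; simp [rp])

theorem Pr.pos {u : ℕ} (h : Pr (cs 1, u)) : ∀ᶠ x in Nf, 0 < evr u x :=
  h.sound.mono fun x hx => by simp at hx; linarith

/-- Provably nonnegative. -/
def NN (h : Fn) : Prop := ∃ a u, Pr a ∧ Pr (cs 1, u) ∧ h * evr u =ᶠ[Nf] zv a
/-- Given by a term. -/
def Sk (f : Fn) : Prop := ∃ s, f =ᶠ[Nf] evr s
/-- Quotients of provably positive terms. -/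
def Fp (w : Fn) : Prop := ∃ A B, Pr (cs 1, A) ∧ Pr (cs 1, B) ∧ w =ᶠ[Nf] evr A / evr B
/-- The sign is provable. -/
def Tot (h : Fn) : Prop := NN h ∨ NN (-h)

section
variable {f g h u v w w' : Fn}

theorem NN.congr (a : NN f) (e : f =ᶠ[Nf] g) : NN g := by
  obtain ⟨a, u, h1, h2, h3⟩ := a
  exact ⟨a, u, h1, h2, (e.symm.mul .rfl).trans h3⟩

theorem NN.eq (a : NN f) (e : f = g) : NN g := e ▸ a

theorem Pr.nn {a : ℕ × ℕ} (h : Pr a) : NN (zv a) := ⟨a, cs 1, h, pr_one, by simp⟩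

theorem NN.pr {b : ℕ × ℕ} (h : NN (zv b)) : Pr b := by
  obtain ⟨a, u, h1, h2, h3⟩ := h
  refine pr_plain (a := b) (b := 0) (u := u) (L := [(mu b.1 u, mu b.2 u), (cs 1, u)])
    (by simp [plain]) ?_
  have : Pr (mu b.1 u, mu b.2 u) := h1.congr (h3.symm.trans (by simp [zv, sub_mul]))
  simp [this, h2]

theorem NN.sound (a : NN f) : ∀ᶠ x in Nf, 0 ≤ f x := by
  obtain ⟨a, u, h1, h2, h3⟩ := a
  filter_upwards [h1.sound, h2.pos, h3] with x a1 a2 a3
  exact nonneg_of_mul_nonneg_left (a1.trans_eq a3.symm) a2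

theorem NN.add (a : NN f) (b : NN g) : NN (f + g) := by
  obtain ⟨a, u, h1, h2, h3⟩ := a
  obtain ⟨b, v, k1, k2, k3⟩ := b
  refine ⟨_, _, (h1.mul (pr_zs' v)).add (k1.mul (pr_zs' u)), h2.one_mul k2, ?_⟩
  filter_upwards [h3, k3] with x a1 a2
  simp [← a1, ← a2]
  ring

theorem NN.mul (a : NN f) (b : NN g) : NN (f * g) := by
  obtain ⟨a, u, h1, h2, h3⟩ := a
  obtain ⟨b, v, k1, k2, k3⟩ := b
  refine ⟨_, _, h1.mul k1, h2.one_mul k2, ?_⟩
  filter_upwards [h3, k3] with x a1 a2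
  simp [← a1, ← a2]
  ring

theorem Sk.nn (a : Sk f) : NN f := by
  obtain ⟨s, e⟩ := a
  exact (pr_zs' s).nn.congr (by simpa using e.symm)

theorem Sk.congr (a : Sk f) (e : f =ᶠ[Nf] g) : Sk g := a.imp fun _ h => e.symm.trans h

theorem Sk.evr (s : ℕ) : Sk (evr s) := ⟨s, .rfl⟩
theorem Sk.nat (n : ℕ) : Sk n := ⟨cs n, by simp⟩
theorem Sk.zero : Sk 0 := by simpa using Sk.nat 0
theorem Sk.one : Sk 1 := by simpa using Sk.nat 1
theorem Sk.xx : Sk xx := ⟨0, by simpa using fl_ev.symm⟩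

theorem Sk.add (a : Sk f) (b : Sk g) : Sk (f + g) := by
  obtain ⟨s, a⟩ := a
  obtain ⟨t, b⟩ := b
  exact ⟨ad s t, by simpa using a.add b⟩

theorem Sk.mul (a : Sk f) (b : Sk g) : Sk (f * g) := by
  obtain ⟨s, a⟩ := a
  obtain ⟨t, b⟩ := b
  exact ⟨mu s t, by simpa using a.mul b⟩

theorem rp_congr (a : f =ᶠ[Nf] g) (b : u =ᶠ[Nf] v) : rp f u =ᶠ[Nf] rp g v :=
  (a.and b).mono fun x e => by simp [rp, e.1, e.2]

theorem Sk.rp (a : Sk f) (b : Sk g) : Sk (rp f g) := by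
  obtain ⟨s, a⟩ := a
  obtain ⟨t, b⟩ := b
  exact ⟨pw s t, by simpa using rp_congr a b⟩

theorem Sk.pow (a : Sk f) (n : ℕ) : Sk (f ^ n) := by
  induction n with
  | zero => simpa using Sk.one
  | succ n ih => rw [pow_succ]; exact ih.mul a

theorem nn_zero : NN 0 := Sk.zero.nn
theorem nn_one : NN 1 := Sk.one.nn
theorem nn_nat (n : ℕ) : NN n := (Sk.nat n).nn

theorem NN.pow (a : NN f) (n : ℕ) : NN (f ^ n) := by
  induction n with
  | zero => simpa using nn_one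
  | succ n ih => rw [pow_succ]; exact ih.mul a

theorem NN.trans (a : NN (f - g)) (b : NN (g - h)) : NN (f - h) := (a.add b).eq (by ring)

theorem NN.powl' (a : Sk f) (b : Sk g) (c : Sk u) (k : NN (g - f)) : NN (rp g u - rp f u) := by
  obtain ⟨s, a⟩ := a
  obtain ⟨t, b⟩ := b
  obtain ⟨r, c⟩ := c
  have : Pr (s, t) := NN.pr (k.congr (b.sub a))
  exact (this.powl r).nn.congr (by simpa using ((rp_congr b c).sub (rp_congr a c)).symm)

theorem NN.powr (a : Sk f) (b : Sk u) (c : Sk v) (k : NN (v - u)) (k' : NN (f - 1)) :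
    NN (rp f v - rp f u) := by
  obtain ⟨s, a⟩ := a
  obtain ⟨t, b⟩ := b
  obtain ⟨r, c⟩ := c
  have h1 : Pr (t, r) := NN.pr (k.congr (c.sub b))
  have h2 : Pr (cs 1, s) := (k'.congr (by simpa using a.sub .rfl)).pr
  have : Pr (pw s t, pw s r) := pr_plain (a := (t, r)) (b := 0) (u := s) (L := [(t, r), (cs 1, s)])
    (by simp [plain]) (by simp [h1, h2])
  exact this.nn.congr (by simpa using ((rp_congr a c).sub (rp_congr a b)).symm)

theorem nn_x_sub (n : ℕ) : NN (xx - n) :=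
  (pr_plain (a := 0) (b := 0) (u := n) (c := (cs n, 0)) (L := []) (by simp [plain])
    (by simp)).nn.congr (by simpa using fl_ev.sub .rfl)

theorem nn_gr (n a : ℕ) : NN (rp (a + 1) xx - xx ^ n * rp a xx) := by
  refine (pr_plain (a := (n, 0)) (b := 0) (u := a)
    (c := (mu (pw 0 (cs n)) (pw (cs a) 0), pw (cs (a + 1)) 0)) (L := []) (by simp [plain])
    (by simp)).nn.congr (fl_ev.mono fun x e => ?_)
  simp [rp, e]

theorem Fp.congr (a : Fp w) (e : w =ᶠ[Nf] w') : Fp w' := by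
  obtain ⟨A, B, h1, h2, h3⟩ := a
  exact ⟨A, B, h1, h2, e.symm.trans h3⟩

theorem Fp.pos (a : Fp w) : ∀ᶠ x in Nf, 0 < w x := by
  obtain ⟨A, B, h1, h2, h3⟩ := a
  filter_upwards [h1.pos, h2.pos, h3] with x a1 a2 a3
  exact a3 ▸ div_pos a1 a2

theorem Fp.ne (a : Fp w) : ∀ᶠ x in Nf, w x ≠ 0 := a.pos.mono fun _ h => h.ne'

theorem Fp.nn (a : Fp w) : NN w := by
  obtain ⟨A, B, -, h2, h3⟩ := a
  refine ⟨zs A, B, pr_zs' A, h2, ?_⟩
  filter_upwards [h2.pos, h3] with x a1 a2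
  simp [a2, a1.ne']

theorem Fp.of_sk (a : Sk f) (k : NN (f - 1)) : Fp f := by
  obtain ⟨s, a⟩ := a
  exact ⟨s, cs 1, (k.congr (by simpa using a.sub .rfl)).pr, pr_one, by simpa using a⟩

theorem Fp.inv (a : Fp w) : Fp w⁻¹ := by
  obtain ⟨A, B, h1, h2, h3⟩ := a
  exact ⟨B, A, h2, h1, by simpa using h3.inv⟩

theorem Fp.mul (a : Fp w) (b : Fp w') : Fp (w * w') := by
  obtain ⟨A, B, h1, h2, h3⟩ := a
  obtain ⟨A', B', k1, k2, k3⟩ := b
  exact ⟨_, _, h1.one_mul k1, h2.one_mul k2, by simpa [mul_div_mul_comm] using h3.mul k3⟩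

theorem Fp.div (a : Fp w) (b : Fp w') : Fp (w / w') := by
  rw [div_eq_mul_inv]; exact a.mul b.inv

theorem Fp.one : Fp 1 := Fp.of_sk Sk.one (by simpa using nn_zero)

theorem Fp.pow (a : Fp w) (n : ℕ) : Fp (w ^ n) := by
  induction n with
  | zero => simpa using Fp.one
  | succ n ih => rw [pow_succ]; exact ih.mul a

theorem Fp.nat {n : ℕ} (h : 0 < n) : Fp n := by
  obtain ⟨m, rfl⟩ := Nat.exists_eq_add_of_le' h
  exact Fp.of_sk (Sk.nat _) (by simpa using nn_nat m)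

theorem Fp.xx : Fp xx := Fp.of_sk Sk.xx (by simpa using nn_x_sub 1)

theorem rp_div (A B : ℕ) : rp (evr A / evr B) xx =ᶠ[Nf] evr (pw A 0) / evr (pw B 0) :=
  fl_ev.mono fun x e => by simp [rp, e, div_rpow (evr_nonneg A x) (evr_nonneg B x)]

theorem Fp.rp (a : Fp w) : Fp (rp w MP_b50963_lc.xx) := by
  obtain ⟨A, B, h1, h2, h3⟩ := a
  exact ⟨_, _, h1.one_pw 0, h2.one_pw 0, (rp_congr h3 .rfl).trans (rp_div A B)⟩

theorem NN.cancel (a : NN (h * w)) (b : Fp w) : NN h :=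
  (a.mul b.inv.nn).congr (b.ne.mono fun x e => by simp [e])

theorem NN.powl (a : Fp w) (b : Fp w') (k : NN (w' - w)) : NN (rp w' xx - rp w xx) := by
  obtain ⟨A, B, h1, h2, h3⟩ := a
  obtain ⟨A', B', k1, k2, k3⟩ := b
  have e := NN.powl' (Sk.evr (mu A B')) (Sk.evr (mu A' B)) Sk.xx
    ((k.mul (Sk.evr (mu B B')).nn).congr (by
      filter_upwards [h3, k3, h2.pos, k2.pos] with x a1 a2 a3 a4
      simp [a1, a2]
      field_simp))
  refine NN.cancel (e.congr ?_) (Fp.of_sk (Sk.evr (mu B B')) (by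
    simpa using (h2.one_mul k2).nn)).rp
  filter_upwards [h3, k3, h2.pos, k2.pos] with x a1 a2 a3 a4
  have b1 := (rpow_pos_of_pos a3 x).ne'
  have b2 := (rpow_pos_of_pos a4 x).ne'
  simp [rp, a1, a2, mul_rpow, div_rpow, evr_nonneg]
  field_simp

/-- Constants. -/
abbrev cq (q : ℚ) : Fn := fun _ => (q : ℝ)

theorem Fp.cq {q : ℚ} (h : 0 < q) : Fp (cq q) := by
  refine ((Fp.nat (n := q.num.toNat) (by simpa using h)).div (Fp.nat q.pos)).congr
    (Eventually.of_forall fun x => ?_)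
  have : ((q.num.toNat : ℕ) : ℝ) = q.num := by
    exact_mod_cast Int.toNat_of_nonneg (Rat.num_nonneg.2 h.le)
  simp [this, Rat.cast_def]

theorem nn_cq {q : ℚ} (h : 0 ≤ q) : NN (cq q) := by
  rcases h.eq_or_lt with rfl | h
  · exact nn_zero.eq (by funext x; simp)
  · exact (Fp.cq h).nn

theorem Tot.nn (a : Tot h) (b : ∀ᶠ x in Nf, 0 ≤ h x) : NN h :=
  a.elim id fun a => nn_zero.congr ((a.sound.and b).mono fun x e =>
    le_antisymm e.2 (neg_nonneg.1 e.1))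

theorem Tot.congr (a : Tot f) (e : f =ᶠ[Nf] g) : Tot g :=
  a.imp (fun a => a.congr e) fun a => a.congr e.neg

theorem Tot.mul (a : Tot f) (b : NN g) : Tot (f * g) :=
  a.imp (fun a => a.mul b) fun a => (a.mul b).eq (neg_mul _ _)

theorem Tot.cancel (a : Tot (h / w)) (b : Fp w) : Tot h :=
  (a.mul b.nn).congr (b.ne.mono fun x e => by simp [e])

theorem fp_EE {c : ℕ} (hc : 0 < c) : Fp (EE c) := by
  have h := (Sk.nat c).mul Sk.xx
  exact ((Fp.of_sk (h.add Sk.one) (by simpa using h.nn)).div ((Fp.nat hc).mul Fp.xx)).rp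

theorem nn_EE {c : ℕ} (hc : 0 < c) (r : ℚ) :
    ((r : ℝ) < exp (1 / c) → NN (EE c - cq r)) ∧ (exp (1 / c) < r → NN (cq r - EE c)) := by
  obtain ⟨c, rfl⟩ := Nat.exists_eq_add_of_le' hc
  have hF : Fp (evr (pw (mu (cs (c + 1)) 0) 0)) :=
    ((Fp.nat hc).mul Fp.xx).rp.congr (by simpa using rp_congr (.mul .rfl fl_ev.symm) fl_ev.symm)
  rcases le_or_gt r 0 with h0 | h0
  · exact ⟨fun _ => ((fp_EE hc).nn.add (nn_cq (neg_nonneg.2 h0))).eq (by funext x; simp; ring),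
      fun h => absurd ((exp_pos _).trans h) (by exact_mod_cast h0.not_gt)⟩
  have e : (r : ℝ) = r.num.toNat / r.den := by
    have : ((r.num.toNat : ℕ) : ℝ) = r.num := by
      exact_mod_cast Int.toNat_of_nonneg (Rat.num_nonneg.2 h0.le)
    rw [this, Rat.cast_def]
  have hd : (0 : ℝ) < r.den := by exact_mod_cast r.pos
  have sp := e_spec r.num.toNat r.den hc
  constructor <;> intro h
  · have : Pr (e1 r.num.toNat (c + 1), e2 r.den (c + 1)) := Cl.intro _ []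
      ⟨((_, _), 0, c), Or.inr (Or.inr (Or.inl ⟨by rwa [e, div_lt_iff₀' hd] at h, rfl⟩))⟩ (by simp)
    refine ((((this.nn.congr sp).cancel hF).eq ?_).cancel (Fp.nat r.pos))
    funext x; simp [e]; field_simp
  · have : Pr (e2 r.den (c + 1), e1 r.num.toNat (c + 1)) := Cl.intro _ []
      ⟨((_, _), 0, c), Or.inr (Or.inr (Or.inr ⟨by rwa [e, lt_div_iff₀' hd] at h, rfl⟩))⟩ (by simp)
    have k := this.nn.congr
      (g := -(r.den * EE (c + 1) - r.num.toNat) * evr (pw (mu (cs (c + 1)) 0) 0))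
      (by rw [neg_mul, zv_mk, ← neg_sub]; exact sp.neg)
    refine (((k.cancel hF).eq ?_).cancel (Fp.nat r.pos))
    funext x; simp [e]; field_simp

/-- The function given by a polynomial. -/
noncomputable def pv {R : Type} [CommSemiring R] [Algebra R ℝ] (p : R[X]) : Fn := fun x => aeval x p

/-- Binomial coefficients as polynomials. -/
noncomputable def bq : ℕ → ℚ[X]
  | 0 => 1
  | k + 1 => bq k * (X - (k : ℚ[X])) * C ((k : ℚ) + 1)⁻¹

theorem pv_bq (z k : ℕ) : pv (bq k) z = z.choose k := by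
  induction k with
  | zero => simp [pv, bq]
  | succ k ih =>
    have := choose_succ z k
    simp only [pv] at ih
    simp [pv, bq, ih]
    field_simp
    linarith

theorem NN.bin (a : Fp w) (h1 : NN (1 + 2 * xx * (w - 1))) (h2 : NN (1 - 2 * xx * (w - 1))) (u : ℕ) :
    NN (2 * (xx * (w - 1)) ^ (2 * u) +
      (rp w xx - ∑ k ∈ Finset.range (2 * u), pv (bq k) * (w - 1) ^ k)) ∧
    NN (2 * (xx * (w - 1)) ^ (2 * u) -
      (rp w xx - ∑ k ∈ Finset.range (2 * u), pv (bq k) * (w - 1) ^ k)) := by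
  obtain ⟨A, B, -, a2, a3⟩ := a
  have hB : Fp (evr B) := Fp.of_sk (Sk.evr B) (by simpa using a2.nn)
  have hL : ∀ b ∈ b3 A B, Pr b := by
    simp only [b3, List.forall_mem_cons]
    refine ⟨a2, ((h1.mul hB.nn).congr ?_).pr, ((h2.mul hB.nn).congr ?_).pr, by simp⟩ <;>
    · filter_upwards [a3, hB.ne, fl_ev] with x e1 e2 e3
      simp [e1, e3]
      field_simp
      try ring
  have hF : Fp (((2 * u).factorial : ℕ) * evr B ^ (2 * u) * rp (evr B) xx) :=
    ((Fp.nat (Nat.factorial_pos _)).mul (hB.pow _)).mul hB.rp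
  have p1 := pr_plain (a := (A, B)) (b := 0) (u := u)
    (c := za (b1 A B (2 * u)) (b2 A B (2 * u))) (L := b3 A B) (by simp [plain]) hL
  have p2 := pr_plain (a := (A, B)) (b := 0) (u := u)
    (c := za (b1 A B (2 * u)) (zn (b2 A B (2 * u)))) (L := b3 A B) (by simp [plain]) hL
  refine ⟨(p1.nn.congr ?_).cancel hF, (p2.nn.congr ?_).cancel hF⟩ <;>
  · filter_upwards [a3, hB.ne, nat_ev] with x e1 e2 ⟨z, _, e3⟩
    subst e3
    obtain ⟨k1, k2⟩ := b_spec A B (2 * u) z e2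
    simp [k1, k2, e1, rp, Finset.sum_apply, pv_bq]
    ring

end

end Pool.Agent.MP_b50963_lc
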