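import Pool.Agent.MP_b50963_lc.NN

/-!
A c.e. proof system for eventual inequalities `0 ≤ t - s + log B - log A` between exponential terms.
-/

set_option autoImplicit false

namespace Pool.Agent.MP_b50963_lc.PB

open Set Filter Topology Real Pool.Agent.MP_d9ba76_lc

abbrev Jd := (ℕ × ℕ) × (ℕ × ℕ)

def Pos (u : ℕ) : Prop := 0 < ev u 1

theorem pos_iff (u : ℕ) : Pos u ↔ ∀ᶠ x in Nf, 0 < evr u x := by
  obtain ⟨F, -, a2, a3⟩ := exists_reach u
  have e : ∀ z : ℕ, 0 < z → F z = evr u z := fun z hz => by simp [evr, a2 z hz]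
  have e1 := a2 1 one_pos
  rw [Nat.cast_one] at e1
  rcases a3 with a3 | a3
  · refine iff_of_false (fun h => ?_) fun h => ?_
    · rw [a3 1 one_pos] at e1
      exact h.ne (by exact_mod_cast e1)
    · obtain ⟨x, h1, z, h2, rfl⟩ := (h.and nat_ev).exists
      rw [← e z h2, a3 z (by exact_mod_cast h2)] at h1
      exact h1.false
  · refine iff_of_true ?_ (nat_ev.mono ?_)
    · have := a3 1 one_pos
      rw [e1] at this
      exact_mod_cast this
    · rintro _ ⟨z, hz, rfl⟩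
      exact e z hz ▸ a3 z (by exact_mod_cast hz)

theorem Pos.ev {u : ℕ} (h : Pos u) : ∀ᶠ x in Nf, 0 < evr u x := (pos_iff u).1 h
theorem pos_one : Pos (cs 1) := by simp [Pos]
theorem Pos.mu {u v : ℕ} (h : Pos u) (h' : Pos v) : Pos (mu u v) := by
  unfold Pos at *; simp [h, h']
theorem Pos.pw {u : ℕ} (h : Pos u) (v : ℕ) : Pos (pw u v) := by
  unfold Pos at *; simp [h]

noncomputable def lg (a : ℕ × ℕ) : Fn := fun x => log (evr a.2 x) - log (evr a.1 x)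

def Snd (j : Jd) : Prop := Pos j.2.1 ∧ Pos j.2.2 ∧ ∀ᶠ x in Nf, 0 ≤ zv j.1 x + lg j.2 x

/-- Additional axioms. -/
class Axs where
  ax : Jd → Prop
  snd : ∀ j, ax j → Snd j

def one2 : ℕ × ℕ := (cs 1, cs 1)

@[simp] theorem lg_one2 : lg one2 = 0 := by funext x; simp [lg, one2]

def jadd (j k : Jd) : Jd := (za j.1 k.1, (mu j.2.1 k.2.1, mu j.2.2 k.2.2))
def jmul (j : Jd) (b : ℕ × ℕ) : Jd :=
  (zm j.1 b, (mu (pw j.2.1 b.2) (pw j.2.2 b.1), mu (pw j.2.2 b.2) (pw j.2.1 b.1)))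
def zp (v : ℕ × ℕ) : ℕ × ℕ := za v (cs 1, cs 0)

/-- The data of the truncated series of the logarithm. -/
def ty (A B N : ℕ) : (ℕ × ℕ) × (ℕ × ℕ) × ℕ :=
  N.rec (zs (cs 0), zs (cs 1), cs 1) fun n d =>
    (za (zm d.1 (zs (mu (cs (n + 1)) A))) (zm d.2.1 (B, A)),
      zm d.2.1 (zm (zs (cs (n + 1))) (B, A)), mu d.2.2 (mu (cs (n + 1)) A))

def jty (A B N : ℕ) : Jd := (zn (ty A B N).1, (pw B (ty A B N).2.2, pw A (ty A B N).2.2))

def plain (j k : Jd) (u : ℕ) : List (Jd × List Jd) :=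
  [((zs u, one2), []), (jadd j k, [j, k]), (jmul j k.1, [j, (k.1, one2)]), (((cs u, 0), one2), [])]

def Rule [A : Axs] (z : Jd × List Jd) : Prop :=
  ∃ p : Jd × Jd × ℕ, z ∈ plain p.1 p.2.1 p.2.2 ∨
    (Pos p.2.2 ∧ z = ((zp (zs p.2.2), one2), [])) ∨
    ((Pos p.1.1.1 ∧ Pos p.1.1.2) ∧ z = (jty p.1.1.1 p.1.1.2 (2 * p.2.2 + 1), [])) ∨
    ((Idt p.1.2.1 p.1.2.2 ∧ Idt (ad p.1.1.1 (zm p.2.1.1 p.2.1.2).2)
      (ad (zm p.2.1.1 p.2.1.2).1 p.1.1.2)) ∧ z = ((p.2.1.1, one2), [p.1, (zp p.2.1.2, one2)])) ∨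
    (A.ax p.1 ∧ z = (p.1, []))

def Pj [Axs] : Jd → Prop := Cl Rule

section
variable {α : Type} [Primcodable α]

@[fun_prop] theorem pr_jadd {f g : α → Jd} (hf : Primrec f) (hg : Primrec g) :
    Primrec fun a => jadd (f a) (g a) := by unfold jadd; fun_prop

@[fun_prop] theorem pr_jmul {f : α → Jd} {g : α → ℕ × ℕ} (hf : Primrec f) (hg : Primrec g) :
    Primrec fun a => jmul (f a) (g a) := by unfold jmul; fun_prop

@[fun_prop] theorem pr_zp {f : α → ℕ × ℕ} (hf : Primrec f) : Primrec fun a => zp (f a) := by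
  unfold zp; fun_prop

@[fun_prop] theorem pr_ty {f g k : α → ℕ} (hf : Primrec f) (hg : Primrec g) (hk : Primrec k) :
    Primrec fun a => ty (f a) (g a) (k a) :=
  Primrec.nat_rec' (h := fun a (y : ℕ × ((ℕ × ℕ) × (ℕ × ℕ) × ℕ)) =>
    (za (zm y.2.1 (zs (mu (cs (y.1 + 1)) (f a)))) (zm y.2.2.1 (g a, f a)),
      zm y.2.2.1 (zm (zs (cs (y.1 + 1))) (g a, f a)), mu y.2.2.2 (mu (cs (y.1 + 1)) (f a))))
    hk (by fun_prop) (by unfold Primrec₂; fun_prop)

theorem pr_jty {f g k : α → ℕ} (hf : Primrec f) (hg : Primrec g) (hk : Primrec k) :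
    Primrec fun a => jty (f a) (g a) (k a) := by unfold jty; fun_prop

theorem pp_pos {f : α → ℕ} (hf : Primrec f) : PrimrecPred fun a => Pos (f a) :=
  pp_lt (by fun_prop) (by fun_prop)

end

theorem ce_pj [A : Axs] (h : CE A.ax) : CE Pj := by
  refine ce_cl _ (CE.ex (p := fun y : (Jd × List Jd) × (Jd × Jd × ℕ) =>
    y.1 ∈ plain y.2.1 y.2.2.1 y.2.2.2 ∨
    (Pos y.2.2.2 ∧ y.1 = ((zp (zs y.2.2.2), one2), [])) ∨
    ((Pos y.2.1.1.1 ∧ Pos y.2.1.1.2) ∧ y.1 = (jty y.2.1.1.1 y.2.1.1.2 (2 * y.2.2.2 + 1), [])) ∨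
    ((Idt y.2.1.2.1 y.2.1.2.2 ∧ Idt (ad y.2.1.1.1 (zm y.2.2.1.1 y.2.2.1.2).2)
      (ad (zm y.2.2.1.1 y.2.2.1.2).1 y.2.1.1.2)) ∧
      y.1 = ((y.2.2.1.1, one2), [y.2.1, (zp y.2.2.1.2, one2)])) ∨
    (A.ax y.2.1 ∧ y.1 = (y.2.1, [])))
    ((CE.of_pred (pp_mem (by fun_prop) ?_)).or ((CE.of_pred ((pp_pos (by fun_prop)).and
      (pp_eq (by fun_prop) (by fun_prop)))).or ((CE.of_pred (((pp_pos (by fun_prop)).and
      (pp_pos (by fun_prop))).and (pp_eq (by fun_prop) ?_))).or ((CE.of_pred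
      (((pp_idt (by fun_prop) (by fun_prop)).and (pp_idt (by fun_prop) (by fun_prop))).and
      (pp_eq (by fun_prop) (by fun_prop)))).or ((h.comp (by fun_prop)).and
      (CE.of_pred (pp_eq (by fun_prop) (by fun_prop)))))))))
  · unfold plain; fun_prop
  · exact pr_pair (pr_jty (by fun_prop) (by fun_prop) (by fun_prop)) (by fun_prop)

/-- The truncated series of `-log (1 - u)`. -/
noncomputable def PP (n : ℕ) (u : ℝ) : ℝ := ∑ i ∈ Finset.range n, u ^ (i + 1) / (i + 1)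

theorem log_le_PP (m : ℕ) {w : ℝ} (hw : 0 < w) : log w ≤ -PP (2 * m + 1) (1 - w) := by
  set n := 2 * m + 1
  have hd : ∀ u < (1 : ℝ), HasDerivAt (fun u => -PP n u - log (1 - u)) (u ^ n / (1 - u)) u := by
    intro u hu
    have h1 : HasDerivAt (PP n) (∑ i ∈ Finset.range n, u ^ i) u :=
      HasDerivAt.fun_sum fun i _ => ((hasDerivAt_pow (i + 1) u).div_const (i + 1)).congr_deriv (by
        have : (i : ℝ) + 1 ≠ 0 := by positivity
        simp; field_simp)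
    have h2 := ((hasDerivAt_id u).const_sub 1).log (sub_pos.2 hu).ne'
    refine (h1.neg.sub h2).congr_deriv ?_
    have h3 := (sub_pos.2 hu).ne'
    rw [geom_sum_eq hu.ne, ← neg_sub 1 u]
    simp only [id]
    field_simp
    ring
  have h0 : -PP n 0 - log (1 - 0) = 0 := by simp [PP]
  have ho : Odd n := odd_two_mul_add_one m
  suffices 0 ≤ -PP n (1 - w) - log (1 - (1 - w)) by rw [sub_sub_cancel] at this; linarith
  rcases lt_trichotomy (1 - w) 0 with h | h | h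
  · obtain ⟨ξ, k1, k2⟩ := exists_hasDerivAt_eq_slope _ _ h
      (fun x hx => (hd x (by linarith [hx.2])).continuousAt.continuousWithinAt)
      fun x hx => hd x (by linarith [hx.2])
    have : ξ ^ n / (1 - ξ) ≤ 0 :=
      div_nonpos_of_nonpos_of_nonneg (ho.pow_nonpos k1.2.le) (by linarith [k1.2])
    rw [k2, h0, div_nonpos_iff] at this
    rcases this with a | a
    · linarith [a.2]
    · linarith [a.1]
  · rw [h]; exact h0.ge
  · obtain ⟨ξ, k1, k2⟩ := exists_hasDerivAt_eq_slope _ _ h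
      (fun x hx => (hd x (by linarith [hx.2])).continuousAt.continuousWithinAt)
      fun x hx => hd x (by linarith [hx.2])
    have : 0 ≤ ξ ^ n / (1 - ξ) := div_nonneg (pow_nonneg k1.1.le _) (by linarith [k1.2])
    rw [k2, h0, div_nonneg_iff] at this
    rcases this with a | a
    · linarith [a.1]
    · linarith [a.2]

theorem ty_spec (A B N : ℕ) (x : ℝ) (h : evr A x ≠ 0) :
    zv (ty A B N).1 x = evr (ty A B N).2.2 x * PP N (1 - evr B x / evr A x) ∧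
    zv (ty A B N).2.1 x = N.factorial * (evr A x - evr B x) ^ N ∧
    evr (ty A B N).2.2 x = N.factorial * evr A x ^ N := by
  induction N with
  | zero => simp [ty, PP]
  | succ N ih =>
    obtain ⟨h1, h2, h3⟩ := ih
    have e' : ty A B (N + 1) = (za (zm (ty A B N).1 (zs (mu (cs (N + 1)) A)))
      (zm (ty A B N).2.1 (B, A)), zm (ty A B N).2.1 (zm (zs (cs (N + 1))) (B, A)),
      mu (ty A B N).2.2 (mu (cs (N + 1)) A)) := rfl
    simp only [e', zv_zm, zv_zs, zv_za, zv_mk, evr_mu, evr_cs, Pi.mul_apply, Pi.add_apply,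
      Pi.sub_apply, Pi.natCast_apply, h1, h2, h3, PP, Finset.sum_range_succ, Nat.factorial_succ]
    push_cast
    refine ⟨?_, by ring, by ring⟩
    have : (N : ℝ) + 1 ≠ 0 := by positivity
    rw [one_sub_div h, div_pow]
    field_simp
    ring

theorem pos_ty {A : ℕ} (h : Pos A) (B N : ℕ) : Pos (ty A B N).2.2 :=
  (pos_iff _).2 (h.ev.mono fun x hx => by rw [(ty_spec A B N x hx.ne').2.2]; positivity)

theorem lg_jadd' {j k : Jd} (h1 : Pos j.2.1) (h2 : Pos j.2.2) (h3 : Pos k.2.1) (h4 : Pos k.2.2) :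
    lg (jadd j k).2 =ᶠ[Nf] lg j.2 + lg k.2 := by
  filter_upwards [h1.ev, h2.ev, h3.ev, h4.ev] with x a b c d
  simp [lg, jadd, log_mul, a.ne', b.ne', c.ne', d.ne']
  ring

theorem lg_jadd {j k : Jd} (h : Snd j) (h' : Snd k) : lg (jadd j k).2 =ᶠ[Nf] lg j.2 + lg k.2 :=
  lg_jadd' h.1 h.2.1 h'.1 h'.2.1

theorem lg_jmul {j : Jd} (h1 : Pos j.2.1) (h2 : Pos j.2.2) (b : ℕ × ℕ) :
    lg (jmul j b).2 =ᶠ[Nf] lg j.2 * zv b := by
  filter_upwards [h1.ev, h2.ev] with x a c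
  simp [lg, jmul, zv, rp, log_mul, (rpow_pos_of_pos a _).ne', (rpow_pos_of_pos c _).ne',
    log_rpow a, log_rpow c]
  ring

theorem lg_jty {A B : ℕ} (h1 : Pos A) (h2 : Pos B) (N : ℕ) :
    lg (jty A B N).2 =ᶠ[Nf] fun x => -log (evr B x / evr A x) * evr (ty A B N).2.2 x := by
  filter_upwards [h1.ev, h2.ev] with x a c
  simp [lg, jty, rp, log_rpow a, log_rpow c, log_div c.ne' a.ne']
  ring

theorem idt_iff' (s t : ℕ) : Idt s t ↔ evr s =ᶠ[Nf] evr t :=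
  Iff.trans (eventually_congr (Eventually.of_forall fun z => by simp [evr])) eventually_map.symm

@[simp] theorem zv_zp (v : ℕ × ℕ) : zv (zp v) = zv v - 1 := by simp [zp, sub_eq_add_neg]

variable [Axs]

theorem Pj.sound {j : Jd} (h : Pj j) : Snd j := by
  have o : ∀ a, (∀ᶠ x in Nf, 0 ≤ zv a x) → Snd (a, one2) := fun a h =>
    ⟨pos_one, pos_one, by simpa using h⟩
  induction h with
  | intro c L h _ ih =>
    obtain ⟨⟨j, k, u⟩, h | ⟨h, e⟩ | ⟨h, e⟩ | ⟨h, e⟩ | ⟨h, e⟩⟩ := h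
    · simp only [plain, List.mem_cons, Prod.mk.injEq c, List.not_mem_nil, or_false] at h
      rcases h with ⟨rfl, rfl⟩ | ⟨rfl, rfl⟩ | ⟨rfl, rfl⟩ | ⟨rfl, rfl⟩
      · exact o _ (Eventually.of_forall fun x => by simpa using evr_nonneg u x)
      · have a := ih j (by simp)
        have b := ih k (by simp)
        refine ⟨a.1.mu b.1, a.2.1.mu b.2.1, ?_⟩
        filter_upwards [a.2.2, b.2.2, lg_jadd a b] with x h1 h2 h3
        rw [h3]
        simp [jadd]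
        linarith
      · have a := ih j (by simp)
        have b := ih (k.1, one2) (by simp)
        refine ⟨(a.1.pw _).mu (a.2.1.pw _), (a.2.1.pw _).mu (a.1.pw _), ?_⟩
        filter_upwards [a.2.2, b.2.2, lg_jmul a.1 a.2.1 k.1] with x h1 h2 h3
        rw [h3]
        simp [jmul] at h2 ⊢
        nlinarith
      · refine o _ ?_
        filter_upwards [fl_ev, Nf_le (eventually_ge_atTop (u : ℝ))] with x h1 h2
        simpa [h1] using h2
    · obtain ⟨rfl, rfl⟩ := Prod.mk.inj e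
      refine o _ (h.ev.mono fun x hx => ?_)
      simp only [evr, Nat.cast_pos] at hx
      simpa [evr] using Nat.succ_le_of_lt hx
    · obtain ⟨rfl, rfl⟩ := Prod.mk.inj e
      refine ⟨h.2.pw _, h.1.pw _, ?_⟩
      filter_upwards [h.1.ev, h.2.ev, lg_jty h.1 h.2 (2 * u + 1)] with x a b c
      rw [c]
      have := log_le_PP u (div_pos b a)
      have := evr_nonneg (ty j.1.1 j.1.2 (2 * u + 1)).2.2 x
      simp [jty, (ty_spec _ _ _ x a.ne').1]
      nlinarith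
    · obtain ⟨rfl, rfl⟩ := Prod.mk.inj e
      refine o _ ?_
      filter_upwards [(ih j (by simp)).2.2, (ih (zp k.2, one2) (by simp)).2.2,
        (idt_iff' _ _).1 h.1, (idt_iff_zv _ _).1 h.2] with x h1 h2 h3 h4
      simp [lg, h3, ← h4, one2] at h1 h2 ⊢
      exact nonneg_of_mul_nonneg_left h1 (by linarith)
    · obtain ⟨rfl, rfl⟩ := Prod.mk.inj e
      exact Axs.snd _ h

/-! Provable inequalities between functions. -/

def PN (b : ℕ × ℕ) : Prop := Pj (b, one2)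

theorem pj_plain {j k c : Jd} {u : ℕ} {L : List Jd} (h : (c, L) ∈ plain j k u)
    (hL : ∀ b ∈ L, Pj b) : Pj c := Cl.intro c L ⟨(j, k, u), Or.inl h⟩ hL

theorem pn_zs (u : ℕ) : PN (zs u) :=
  pj_plain (j := 0) (k := 0) (u := u) (L := []) (by simp [plain]) (by simp)

theorem Pos.pn {u : ℕ} (h : Pos u) : PN (zp (zs u)) :=
  Cl.intro _ [] ⟨(0, 0, u), Or.inr (Or.inl ⟨h, rfl⟩)⟩ (by simp)

theorem Pj.add {j k : Jd} (h : Pj j) (h' : Pj k) : Pj (jadd j k) :=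
  pj_plain (j := j) (k := k) (u := 0) (L := [j, k]) (by simp [plain]) (by simp [h, h'])

theorem Pj.mul {j : Jd} {b : ℕ × ℕ} (h : Pj j) (h' : PN b) : Pj (jmul j b) :=
  pj_plain (j := j) (k := (b, 0)) (u := 0) (L := [j, (b, one2)]) (by simp [plain])
    (by simp [h, show Pj (b, one2) from h'])

theorem Pj.canc {j : Jd} {b v : ℕ × ℕ} (h : Pj j) (hv : PN (zp v)) (e : lg j.2 =ᶠ[Nf] 0)
    (e' : zv b * zv v =ᶠ[Nf] zv j.1) : PN b := by
  refine Cl.intro _ [j, (zp v, one2)] ⟨(j, (b, v), 0), Or.inr (Or.inr (Or.inr (Or.inl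
    ⟨⟨(idt_iff' _ _).2 ?_, (idt_iff_zv _ _).2 (by simpa using e')⟩, rfl⟩)))⟩
    (by simp [show Cl Rule j from h, show Cl Rule (zp v, one2) from hv])
  filter_upwards [e, h.sound.1.ev, h.sound.2.1.ev] with x a b c
  exact (log_injOn_pos c b (sub_eq_zero.1 a)).symm

theorem Pj.pn {j : Jd} {b : ℕ × ℕ} (h : Pj j) (e : lg j.2 =ᶠ[Nf] 0) (e' : zv b =ᶠ[Nf] zv j.1) :
    PN b := h.canc pos_one.pn e (by simpa using e')

theorem PN.add {a b c : ℕ × ℕ} (h : PN a) (h' : PN b) (e : zv c = zv a + zv b) : PN c :=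
  (Pj.add h h').pn (by simpa using lg_jadd h.sound h'.sound) (by simp [jadd, e])

theorem PN.mul {a b : ℕ × ℕ} (h : PN a) (h' : PN b) : PN (zm a b) :=
  (Pj.mul h h').pn (by simpa using lg_jmul (j := (a, one2)) pos_one pos_one b) (by simp [jmul])

theorem PN.of_zp {v : ℕ × ℕ} (h : PN (zp v)) : PN v := h.add (pn_zs (cs 1)) (by simp)

theorem PN.zp_mul {u v : ℕ × ℕ} (h : PN (zp u)) (h' : PN (zp v)) : PN (zp (zm u v)) :=
  (h.mul h'.of_zp).add h' (by simp; ring)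

/-- The sum of the two components is provably nonnegative; the second one is logarithmic. -/
def LN (μ : Fn × Fn) : Prop :=
  ∃ j v, Pj j ∧ PN (zp v) ∧ μ.1 * zv v =ᶠ[Nf] zv j.1 ∧ μ.2 * zv v =ᶠ[Nf] lg j.2
def NN (h : Fn) : Prop := LN (h, 0)
/-- Quotients of positive terms. -/
def Fp (w : Fn) : Prop := ∃ A B, Pos A ∧ Pos B ∧ w =ᶠ[Nf] evr A / evr B
noncomputable def lf (w : Fn) : Fn := fun x => log (w x)

section
variable {μ ρ : Fn × Fn} {f g h q w w' : Fn}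

theorem LN.congr (a : LN μ) (e : μ.1 =ᶠ[Nf] ρ.1) (e' : μ.2 =ᶠ[Nf] ρ.2) : LN ρ := by
  obtain ⟨j, v, h1, h2, h3, h4⟩ := a
  exact ⟨j, v, h1, h2, (e.symm.mul .rfl).trans h3, (e'.symm.mul .rfl).trans h4⟩

theorem LN.eq (a : LN μ) (e : μ = ρ) : LN ρ := e ▸ a
theorem NN.congr (a : NN f) (e : f =ᶠ[Nf] g) : NN g := LN.congr a e .rfl
theorem NN.eq (a : NN f) (e : f = g) : NN g := e ▸ a

theorem LN.sound (a : LN μ) : ∀ᶠ x in Nf, 0 ≤ μ.1 x + μ.2 x := by
  obtain ⟨j, v, h1, h2, h3, h4⟩ := a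
  filter_upwards [h1.sound.2.2, h2.sound.2.2, h3, h4] with x a1 a2 a3 a4
  rw [← a3, ← a4, Pi.mul_apply, Pi.mul_apply, ← add_mul] at a1
  simp at a2
  exact nonneg_of_mul_nonneg_left a1 (by linarith)

theorem NN.sound (a : NN f) : ∀ᶠ x in Nf, 0 ≤ f x := by simpa using LN.sound a

theorem Pj.ln {j : Jd} (h : Pj j) : LN (zv j.1, lg j.2) :=
  ⟨j, zs (cs 1), h, pos_one.pn, by simp, by simp⟩

theorem PN.nn {b : ℕ × ℕ} (h : PN b) : NN (zv b) := (Pj.ln h).eq (by simp)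

theorem NN.pn {b : ℕ × ℕ} (h : NN (zv b)) : PN b := by
  obtain ⟨j, v, h1, h2, h3, h4⟩ := h
  exact h1.canc h2 (by simpa using h4.symm) h3

theorem NN.ex (a : NN h) : ∃ b v, PN b ∧ PN (zp v) ∧ h * zv v =ᶠ[Nf] zv b := by
  obtain ⟨j, v, h1, h2, h3, h4⟩ := a
  exact ⟨j.1, v, h1.pn (by simpa using h4.symm) .rfl, h2, h3⟩

theorem LN.add (a : LN μ) (b : LN ρ) : LN (μ + ρ) := by
  obtain ⟨j, u, h1, h2, h3, h4⟩ := a
  obtain ⟨k, v, k1, k2, k3, k4⟩ := b
  have a1 := h1.mul k2.of_zp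
  have a2 := k1.mul h2.of_zp
  refine ⟨_, _, a1.add a2, h2.zp_mul k2, ?_, ?_⟩
  · filter_upwards [h3, k3] with x e1 e2
    simp [jadd, jmul, ← e1, ← e2]
    ring
  · filter_upwards [h4, k4, lg_jadd a1.sound a2.sound, lg_jmul h1.sound.1 h1.sound.2.1 v,
      lg_jmul k1.sound.1 k1.sound.2.1 u] with x e1 e2 e3 e4 e5
    simp [e3, e4, e5, ← e1, ← e2]
    ring

theorem LN.smul (a : LN μ) (b : NN h) : LN (h • μ) := by
  obtain ⟨j, u, h1, h2, h3, h4⟩ := a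
  obtain ⟨k, v, k1, k2, k3⟩ := b.ex
  refine ⟨_, _, h1.mul k1, h2.zp_mul k2, ?_, ?_⟩
  · filter_upwards [h3, k3] with x e1 e2
    simp [jmul, ← e1, ← e2]
    ring
  · filter_upwards [h4, k3, lg_jmul h1.sound.1 h1.sound.2.1 k] with x e1 e2 e3
    simp [e3, ← e1, ← e2]
    ring

theorem LN.canc1 (a : LN (q • μ)) (b : NN (q - 1)) : LN μ := by
  obtain ⟨j, u, h1, h2, h3, h4⟩ := a
  obtain ⟨k, v, k1, k2, k3⟩ := b.ex
  refine ⟨_, zm u (za k v), h1.mul k2.of_zp, h2.zp_mul (k1.add k2 (by simp; ring)), ?_, ?_⟩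
  · filter_upwards [h3, k3] with x e1 e2
    simp [jmul, ← e1, ← e2]
    ring
  · filter_upwards [h4, k3, lg_jmul h1.sound.1 h1.sound.2.1 v] with x e1 e2 e3
    simp [e3, ← e1, ← e2]
    ring

theorem NN.add (a : NN f) (b : NN g) : NN (f + g) := (LN.add a b).eq (by simp)
theorem NN.mul (a : NN f) (b : NN g) : NN (f * g) := (LN.smul b a).eq (by simp)

theorem sk_nn (a : Sk f) : NN f := by
  obtain ⟨s, e⟩ := a
  exact (pn_zs s).nn.congr (by simpa using e.symm)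

theorem nn_zero : NN 0 := sk_nn Sk.zero
theorem nn_one : NN 1 := sk_nn Sk.one
theorem nn_xx : NN xx := sk_nn Sk.xx
theorem ln_zero : LN 0 := nn_zero

theorem NN.pow (a : NN f) (n : ℕ) : NN (f ^ n) := by
  induction n with
  | zero => simpa using nn_one
  | succ n ih => rw [pow_succ]; exact ih.mul a

theorem nn_x_sub (n : ℕ) : NN (xx - n) :=
  (PN.nn (pj_plain (j := 0) (k := 0) (u := n) (c := ((cs n, 0), one2)) (L := []) (by simp [plain])
    (by simp))).congr (by simpa using fl_ev.sub .rfl)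

omit [Axs] in
theorem Fp.congr (a : Fp w) (e : w =ᶠ[Nf] w') : Fp w' := by
  obtain ⟨A, B, h1, h2, h3⟩ := a
  exact ⟨A, B, h1, h2, e.symm.trans h3⟩

omit [Axs] in
theorem Fp.pos (a : Fp w) : ∀ᶠ x in Nf, 0 < w x := by
  obtain ⟨A, B, h1, h2, h3⟩ := a
  filter_upwards [h1.ev, h2.ev, h3] with x a1 a2 a3
  exact a3 ▸ div_pos a1 a2

omit [Axs] in
theorem Fp.ne (a : Fp w) : ∀ᶠ x in Nf, w x ≠ 0 := a.pos.mono fun _ h => h.ne'

theorem Fp.nn (a : Fp w) : NN w := by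
  obtain ⟨A, B, -, h2, h3⟩ := a
  refine ⟨(zs A, one2), zs B, pn_zs A, h2.pn, ?_, by simp⟩
  filter_upwards [h2.ev, h3] with x a1 a2
  simp [a2, a1.ne']

omit [Axs] in
theorem Fp.of_sk (a : Sk f) (k : ∀ᶠ x in Nf, 0 < f x) : Fp f := by
  obtain ⟨s, a⟩ := a
  exact ⟨s, cs 1, (pos_iff _).2 ((a.and k).mono fun x e => e.1 ▸ e.2), pos_one, by simpa using a⟩

theorem nn_sub_one (a : Sk f) (k : ∀ᶠ x in Nf, 0 < f x) : NN (f - 1) := by
  obtain ⟨s, a⟩ := a
  exact (((pos_iff s).2 ((a.and k).mono fun x e => e.1 ▸ e.2)).pn.nn).congr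
    (by simpa using a.symm.sub .rfl)

omit [Axs] in
theorem Fp.inv (a : Fp w) : Fp w⁻¹ := by
  obtain ⟨A, B, h1, h2, h3⟩ := a
  exact ⟨B, A, h2, h1, by simpa using h3.inv⟩

omit [Axs] in
theorem Fp.mul (a : Fp w) (b : Fp w') : Fp (w * w') := by
  obtain ⟨A, B, h1, h2, h3⟩ := a
  obtain ⟨A', B', k1, k2, k3⟩ := b
  exact ⟨_, _, h1.mu k1, h2.mu k2, by simpa [mul_div_mul_comm] using h3.mul k3⟩

omit [Axs] in
theorem Fp.div (a : Fp w) (b : Fp w') : Fp (w / w') := by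
  rw [div_eq_mul_inv]; exact a.mul b.inv

omit [Axs] in
theorem Fp.nat {n : ℕ} (h : 0 < n) : Fp n :=
  Fp.of_sk (Sk.nat _) (Eventually.of_forall fun _ => by simpa using h)

omit [Axs] in
theorem Fp.one : Fp 1 := by simpa using Fp.nat one_pos

omit [Axs] in
theorem Fp.pow (a : Fp w) (n : ℕ) : Fp (w ^ n) := by
  induction n with
  | zero => simpa using Fp.one
  | succ n ih => rw [pow_succ]; exact ih.mul a

omit [Axs] in
theorem Fp.xx : Fp xx := Fp.of_sk Sk.xx pos_ev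

omit [Axs] in
theorem Fp.rp (a : Fp w) (b : Sk f) : Fp (rp w f) := by
  obtain ⟨A, B, h1, h2, h3⟩ := a
  obtain ⟨s, b⟩ := b
  exact ⟨_, _, h1.pw s, h2.pw s, (rp_congr h3 b).trans (Eventually.of_forall fun x => by
    simp [MP_b50963_lc.rp, div_rpow (evr_nonneg A x) (evr_nonneg B x)])⟩

omit [Axs] in
theorem Fp.cq {q : ℚ} (h : 0 < q) : Fp (cq q) := by
  refine ((Fp.nat (n := q.num.toNat) (by simpa using h)).div (Fp.nat q.pos)).congr
    (Eventually.of_forall fun x => ?_)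
  have : ((q.num.toNat : ℕ) : ℝ) = q.num := by
    exact_mod_cast Int.toNat_of_nonneg (Rat.num_nonneg.2 h.le)
  simp [this, Rat.cast_def]

theorem nn_cq {q : ℚ} (h : 0 ≤ q) : NN (cq q) := by
  rcases h.eq_or_lt with rfl | h
  · exact nn_zero.eq (by funext x; simp)
  · exact (Fp.cq h).nn

theorem LN.canc (a : LN (q • μ)) {δ : ℚ} (hδ : 0 < δ) (b : NN (q - cq δ)) : LN μ := by
  have h := nn_cq (inv_pos.2 hδ).le
  have e : (δ : ℝ) ≠ 0 := by exact_mod_cast hδ.ne'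
  exact LN.canc1 (q := cq δ⁻¹ * q) ((a.smul h).eq (smul_smul _ _ _))
    ((h.mul b).eq (by funext x; simp [mul_sub, e]))

theorem NN.canc (a : NN (q * h)) {δ : ℚ} (hδ : 0 < δ) (b : NN (q - cq δ)) : NN h :=
  LN.canc (q := q) (LN.eq a (by simp)) hδ b

theorem LN.cancel (a : LN (w • μ)) (b : Fp w) : LN μ :=
  (a.smul b.inv.nn).congr (b.ne.mono fun x e => by simp [e]) (b.ne.mono fun x e => by simp [e])

theorem NN.cancel (a : NN (h * w)) (b : Fp w) : NN h :=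
  (a.mul b.inv.nn).congr (b.ne.mono fun x e => by simp [e])

theorem ln_PP (a : Fp w) (m : ℕ) : LN (fun x => -PP (2 * m + 1) (1 - w x), -lf w) := by
  obtain ⟨B, A, h2, h1, h3⟩ := a
  refine ⟨jty A B (2 * m + 1), zs (ty A B (2 * m + 1)).2.2,
    Cl.intro _ [] ⟨(((A, B), 0), 0, m), Or.inr (Or.inr (Or.inl ⟨⟨h1, h2⟩, rfl⟩))⟩ (by simp),
    (pos_ty h1 _ _).pn, ?_, ?_⟩
  · filter_upwards [h1.ev, h3] with x a b
    simp [jty, (ty_spec _ _ _ x a.ne').1, b, mul_comm]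
  · filter_upwards [lg_jty h1 h2 (2 * m + 1), h3] with x a b
    simp [a, lf, b]

theorem ln_log (a : Fp w) : LN (w - 1, -lf w) :=
  (ln_PP a 0).eq (by congr 1; funext x; simp [PP])

theorem nn_of_log (a : Fp w) (b : LN (0, lf w)) : NN (w - 1) := ((ln_log a).add b).eq (by simp)

theorem ln_log' (a : Fp w) : LN (w⁻¹ - 1, lf w) :=
  (ln_log a.inv).eq (by congr 1; funext x; simp [lf])

theorem log_of_nn (a : Fp w) (b : NN (w - 1)) : LN (0, lf w) :=
  ((ln_log' a).add (b.mul a.inv.nn)).congr (a.ne.mono fun x e => by simp [sub_mul, e]) (by simp)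

end

end Pool.Agent.MP_b50963_lc.PB
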