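import Pool.Agent.MP_b50963_lc.PB1
import Pool.Agent.MP_b50963_lc.Herm

/-!
Provable limits, the approximations of the numbers `exp q`, and the linear relations between `1`
and logarithms of integers over the ring generated by these numbers.
-/

set_option autoImplicit false

namespace Pool.Agent.MP_b50963_lc.PB

open Set Filter Topology Real Pool.Agent.MP_d9ba76_lc

abbrev P2 := Fn × Fn

section
variable [Axs]

def Lo (μ : P2) (θ : ℝ) : Prop := ∀ r : ℚ, (r : ℝ) < θ → LN (μ - (cq r, 0))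
/-- Provable limit. -/
def LL (μ : P2) (θ : ℝ) : Prop := Lo μ θ ∧ Lo (-μ) (-θ)
def Lim (y : Fn) (θ : ℝ) : Prop := LL (y, 0) θ

variable {μ ν : P2} {y y' w F : Fn} {θ θ' : ℝ}

omit [Axs] in
@[simp] theorem cq_zero : cq 0 = 0 := by funext x; simp

theorem Lo.ln (h : Lo μ θ) (h0 : 0 < θ) : LN μ := (h 0 (by simpa using h0)).eq (by simp)

theorem Lo.const (q : ℚ) : Lo (cq q, 0) q := fun r h =>
  LN.eq (nn_cq (q := q - r) (sub_nonneg.2 (by exact_mod_cast h.le))) (by ext x <;> simp)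

theorem Lim.const (q : ℚ) : Lim (cq q) q :=
  ⟨Lo.const q, by
    have := Lo.const (-q)
    rwa [Rat.cast_neg, show ((cq (-q), 0) : P2) = -(cq q, 0) by ext x <;> simp] at this⟩

theorem Lo.congr (h : Lo μ θ) (e : μ.1 =ᶠ[Nf] ν.1) (e' : μ.2 =ᶠ[Nf] ν.2) : Lo ν θ :=
  fun r hr => (h r hr).congr (e.sub .rfl) (e'.sub .rfl)

theorem LL.congr (h : LL μ θ) (e : μ.1 =ᶠ[Nf] ν.1) (e' : μ.2 =ᶠ[Nf] ν.2) : LL ν θ :=
  ⟨h.1.congr e e', h.2.congr e.neg e'.neg⟩

theorem LL.eq (h : LL μ θ) (e : μ = ν) (e' : θ = θ') : LL ν θ' := e ▸ e' ▸ h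
theorem Lim.eq (h : Lim y θ) (e : y = y') (e' : θ = θ') : Lim y' θ' := e ▸ e' ▸ h
theorem Lim.congr (h : Lim y θ) (e : y =ᶠ[Nf] y') : Lim y' θ := LL.congr h e .rfl

theorem LL.neg (h : LL μ θ) : LL (-μ) (-θ) := ⟨h.2, by simpa using h.1⟩

theorem Lo.add (h : Lo μ θ) (h' : Lo ν θ') : Lo (μ + ν) (θ + θ') := fun r hr => by
  obtain ⟨s, h1, h2⟩ := exists_rat_btwn (show r - θ' < θ by linarith)
  exact ((h s h2).add (h' (r - s) (by push_cast; linarith))).eq (by ext x <;> simp; ring)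

theorem LL.add (h : LL μ θ) (h' : LL ν θ') : LL (μ + ν) (θ + θ') :=
  ⟨h.1.add h'.1, by rw [neg_add, neg_add]; exact h.2.add h'.2⟩

theorem LL.hi (h : LL μ θ) (r : ℚ) (hr : θ < r) : LN ((cq r, 0) - μ) :=
  (h.2 (-r) (by push_cast; linarith)).eq (by ext x <;> simp; ring)

theorem Lim.lo (h : Lim y θ) (r : ℚ) (hr : r < θ) : NN (y - cq r) := (h.1 r hr).eq (by simp)
theorem Lim.hi (h : Lim y θ) (r : ℚ) (hr : θ < r) : NN (cq r - y) := (LL.hi h r hr).eq (by simp)
theorem Lim.neg (h : Lim y θ) : Lim (-y) (-θ) := (LL.neg h).eq (by simp) rfl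
theorem Lim.add (h : Lim y θ) (h' : Lim y' θ') : Lim (y + y') (θ + θ') :=
  (LL.add h h').eq (by simp) rfl

theorem Lim.smul_lo (h : Lim y θ) (h' : LL μ θ') : Lo (y • μ) (θ * θ') := fun r hr => by
  obtain ⟨ε, e0, e1⟩ := Metric.eventually_nhds_iff.1
    ((continuous_mul.tendsto (θ, θ')).eventually_const_lt hr)
  have k : ∀ a b : ℚ, |a - θ| < ε → |b - θ'| < ε → NN (cq (a * b - r)) := fun a b h1 h2 =>
    nn_cq (sub_nonneg.2 (by
      have : (r : ℝ) < a * b := e1 (y := (a, b)) (by simp [Prod.dist_eq, Real.dist_eq, h1, h2])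
      exact_mod_cast this.le))
  obtain ⟨a, a1, a2⟩ := exists_rat_btwn (show θ - ε < θ by linarith)
  obtain ⟨a', a3, a4⟩ := exists_rat_btwn (show θ < θ + ε by linarith)
  obtain ⟨b, b1, b2⟩ := exists_rat_btwn (show θ' - ε < θ' by linarith)
  obtain ⟨b', b3, b4⟩ := exists_rat_btwn (show θ' < θ' + ε by linarith)
  have c1 : |a - θ| < ε := abs_lt.2 ⟨by linarith, by linarith⟩
  have c2 : |a' - θ| < ε := abs_lt.2 ⟨by linarith, by linarith⟩
  have c3 : |b - θ'| < ε := abs_lt.2 ⟨by linarith, by linarith⟩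
  have c4 : |b' - θ'| < ε := abs_lt.2 ⟨by linarith, by linarith⟩
  have p : 0 < (a' - a) * (b' - b) := mul_pos (sub_pos.2 (by exact_mod_cast a2.trans a3))
    (sub_pos.2 (by exact_mod_cast b2.trans b3))
  refine LN.cancel ((((((h'.hi b' b3).smul (h.hi a' a3)).smul (k a b c1 c3)).add
    (((h'.hi b' b3).smul (h.lo a a2)).smul (k a' b c2 c3))).add
    ((((h'.1 b b2).smul (h.hi a' a3)).smul (k a b' c1 c4)).add
    (((h'.1 b b2).smul (h.lo a a2)).smul (k a' b' c2 c4)))).eq ?_) (Fp.cq p)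
  ext x <;> simp <;> ring

theorem Lim.smul (h : Lim y θ) (h' : LL μ θ') : LL (y • μ) (θ * θ') :=
  ⟨h.smul_lo h', by rw [← neg_smul, ← neg_mul]; exact h.neg.smul_lo h'⟩

theorem Lim.mul (h : Lim y θ) (h' : Lim y' θ') : Lim (y * y') (θ * θ') :=
  (h.smul h').eq (by simp) rfl

theorem lim_one : Lim 1 1 := (Lim.const 1).eq (by ext; simp) (by simp)
theorem lim_zero : Lim 0 0 := (Lim.const 0).eq (by ext; simp) (by simp)
theorem ll_zero : LL 0 0 := lim_zero

theorem Lim.pow (h : Lim y θ) (n : ℕ) : Lim (y ^ n) (θ ^ n) := by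
  induction n with
  | zero => simpa using lim_one
  | succ n ih => rw [pow_succ, pow_succ]; exact ih.mul h

theorem LL.sum {ι : Type} {s : Finset ι} {f : ι → P2} {g : ι → ℝ} (h : ∀ i ∈ s, LL (f i) (g i)) :
    LL (∑ i ∈ s, f i) (∑ i ∈ s, g i) := by
  classical
  induction s using Finset.induction_on with
  | empty => exact ll_zero
  | insert a s ha ih =>
    rw [Finset.sum_insert ha, Finset.sum_insert ha]
    exact (h a (by simp)).add (ih fun i m => h i (by simp [m]))

theorem LL.sound (h : LL μ θ) : Tendsto (μ.1 + μ.2) Nf (𝓝 θ) := by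
  refine tendsto_order.2 ⟨fun a ha => ?_, fun a ha => ?_⟩
  · obtain ⟨r, h1, h2⟩ := exists_rat_btwn ha
    exact (h.1 r h2).sound.mono fun x hx => by simp at hx ⊢; linarith
  · obtain ⟨r, h1, h2⟩ := exists_rat_btwn ha
    exact (h.hi r h1).sound.mono fun x hx => by simp at hx ⊢; linarith

theorem Lim.sound (h : Lim y θ) : Tendsto y Nf (𝓝 θ) := by simpa using LL.sound h

theorem LL.squeeze (h : Lim y 0) (a : LN ((y, 0) + μ)) (b : LN ((y, 0) - μ)) : LL μ 0 :=
  ⟨fun r hr => (a.add (h.hi (-r) (by push_cast; linarith))).eq (by ext x <;> simp; ring),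
    fun r hr => (b.add (h.hi (-r) (by push_cast; linarith))).eq (by ext x <;> simp; ring)⟩

theorem LL.small (h : Lim y 0) (h' : NN y) (a : LN ((1, 0) + μ)) (b : LN ((1, 0) - μ)) :
    LL (y • μ) 0 :=
  LL.squeeze h ((a.smul h').eq (by simp)) ((b.smul h').eq (by simp [smul_sub]))

theorem lim_inv (hw : Fp w) (h : ∀ n : ℕ, NN (w - n)) : Lim w⁻¹ 0 := by
  refine ⟨fun r hr => LN.eq (hw.inv.nn.add (nn_cq (q := -r) (by exact_mod_cast neg_nonneg.2 hr.le)))
    (by ext x <;> simp; ring), fun r hr => ?_⟩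
  have h0 : 0 < -r := by exact_mod_cast (by linarith : (0 : ℝ) < -r)
  obtain ⟨n, hn⟩ := exists_nat_ge (-r)⁻¹
  have k := (((h n).add (nn_cq (sub_nonneg.2 hn))).mul (nn_cq h0.le)).mul hw.inv.nn
  have : (r : ℝ) ≠ 0 := by linarith
  exact LN.congr k (hw.ne.mono fun x e => by simp; field_simp; ring) (by simp)

theorem lim_xi : Lim xx⁻¹ 0 := lim_inv Fp.xx nn_x_sub

theorem Lo.div0 (h : Lim y θ) (h0 : 0 < θ) (a : Lo (y • μ) 0) : Lo μ 0 := by
  intro r hr
  obtain ⟨s, h1, h2⟩ := exists_rat_btwn (mul_neg_of_neg_of_pos hr h0)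
  obtain ⟨δ, h3, h4⟩ := exists_rat_btwn h0
  have k := ((Lim.const (-r)).mul h).lo (-s) (by push_cast; linarith)
  exact LN.canc (((a s h2).add k).eq (by ext x <;> simp; ring)) (by exact_mod_cast h3) (h.lo δ h4)

theorem LL.div0 (h : Lim y θ) (h0 : θ ≠ 0) (a : LL (y • μ) 0) : LL μ 0 := by
  rcases h0.lt_or_gt with k | k
  · exact ⟨Lo.div0 h.neg (by linarith) (by simpa using a.2), by
      simpa using Lo.div0 (μ := -μ) h.neg (by linarith) (by simpa using a.1)⟩
  · exact ⟨Lo.div0 h k a.1, by simpa using Lo.div0 (μ := -μ) h k (by simpa using a.2)⟩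

theorem Lo.smul1 (h : Lim y 1) (a : Lo μ 0) : Lo (y • μ) 0 := by
  intro r hr
  have k := ((Lim.const (r / 2)).mul h).lo r (by push_cast; linarith)
  exact (((a (r / 2) (by push_cast; linarith)).smul ((h.lo 0 (by simp)).eq (sub_eq_self.2 cq_zero))).add
    k).eq (by ext x <;> simp; ring)

theorem up_rat {q : ℚ} (h : 0 < q) : Lo (0, -lf (cq q)) (-log q) := by
  have mul : ∀ {a b : ℚ}, 0 < a → 0 < b → Lo (0, -lf (cq a)) (-log a) →
      Lo (0, -lf (cq b)) (-log b) → Lo (0, -lf (cq (a * b))) (-log (a * b : ℚ)) := by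
    intro a b ha hb h1 h2
    have e : log (a * b : ℚ) = log a + log b := by
      push_cast; exact log_mul (by positivity) (by positivity)
    rw [e, neg_add]
    exact (h1.add h2).congr (by simp) (Eventually.of_forall fun x => by
      simp only [lf, e, Prod.snd_add, Pi.add_apply, Pi.neg_apply, neg_add])
  have base : ∀ {q : ℚ}, 0 < q → q < 2 → Lo (0, -lf (cq q)) (-log q) := by
    intro q h h2 r hr
    have h3 : |1 - (q : ℝ)| < 1 := by
      have : (0 : ℝ) < q := by exact_mod_cast h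
      have : (q : ℝ) < 2 := by exact_mod_cast h2
      exact abs_lt.2 ⟨by linarith, by linarith⟩
    have k := (hasSum_pow_div_log_of_abs_lt_one h3).tendsto_sum_nat
    rw [sub_sub_cancel] at k
    obtain ⟨m, hm⟩ := ((k.comp (tendsto_atTop_mono (fun m : ℕ => show m ≤ 2 * m + 1 by omega)
      tendsto_id)).eventually_const_lt hr).exists
    have k2 := nn_cq (q := ∑ i ∈ Finset.range (2 * m + 1), (1 - q) ^ (i + 1) / (i + 1) - r)
      (by rw [sub_nonneg, ← Rat.cast_le (K := ℝ)]; push_cast; exact hm.le)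
    exact ((ln_PP (Fp.cq h) m).add k2).eq (by ext x <;> simp [PP]; ring)
  have two : Lo (0, -lf (cq 2)) (-log (2 : ℚ)) := by
    have := mul (a := 3 / 2) (b := 4 / 3) (by norm_num) (by norm_num)
      (base (by norm_num) (by norm_num)) (base (by norm_num) (by norm_num))
    rwa [show (3 / 2 * (4 / 3) : ℚ) = 2 by norm_num] at this
  obtain ⟨k, hk⟩ := pow_unbounded_of_one_lt q one_lt_two
  induction k generalizing q with
  | zero => exact base h (by linarith)
  | succ k ih =>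
    have := mul two_pos (half_pos h) two (ih (half_pos h) (by rw [pow_succ] at hk; linarith))
    rwa [mul_div_cancel₀ _ two_ne_zero] at this

theorem ll_rat {q : ℚ} (h : 0 < q) : LL (0, lf (cq q)) (log q) :=
  ⟨by
    have := up_rat (inv_pos.2 h)
    rw [Rat.cast_inv, log_inv, neg_neg] at this
    exact this.congr .rfl (Eventually.of_forall fun x => by simp [lf]), by simpa using up_rat h⟩

theorem lim_exp (hF : Fp F) (h : LL (0, lf F) θ) : Lim F (exp θ) := by
  have k : ∀ r : ℚ, exp θ < r → NN (cq r - F) := fun r hr => by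
    have h0 : (0 : ℝ) < r := (exp_pos θ).trans hr
    have h1 : 0 < r := by exact_mod_cast h0
    have := ((ll_rat h1).add h.neg).1.ln (by simpa using (lt_log_iff_exp_lt h0).2 hr)
    exact ((nn_of_log ((Fp.cq h1).div hF) (this.congr (by simp) (hF.ne.mono fun x e => by
      simp [lf, log_div h0.ne' e, sub_eq_add_neg]))).mul hF.nn).congr (hF.ne.mono fun x e => by
      simp [sub_mul, e])
  refine ⟨fun r hr => ?_, fun r hr => LN.eq (k (-r) (by push_cast; linarith))
    (by ext x <;> simp; ring)⟩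
  rcases le_or_gt r 0 with h1 | h1
  · exact LN.eq (hF.nn.add (nn_cq (neg_nonneg.2 h1))) (by ext x <;> simp; ring)
  have h0 : (0 : ℝ) < r := by exact_mod_cast h1
  have := (h.add (ll_rat h1).neg).1.ln (by simpa using (log_lt_iff_lt_exp h0).2 hr)
  exact LN.congr ((nn_of_log (hF.div (Fp.cq h1)) (this.congr (by simp) (hF.ne.mono fun x e => by
    simp [lf, log_div e h0.ne', sub_eq_add_neg]))).mul (nn_cq h1.le))
    (Eventually.of_forall fun x => by simp [sub_mul, h0.ne']) (by simp)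

end

end Pool.Agent.MP_b50963_lc.PB
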