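import Pool.Agent.MP_b50963_lc.PB2

/-!
The approximations of the numbers `exp q`, and the linear relations between `1` and logarithms of
integers over the ring generated by these numbers.
-/

set_option autoImplicit false

namespace Pool.Agent.MP_b50963_lc.PB

open Set Filter Topology Real Pool.Agent.MP_d9ba76_lc

noncomputable def ww (M : ℕ) : Fn := M.factorial * xx ^ M
/-- An approximation of `1` that is logarithmic. -/
noncomputable def lam (M : ℕ) : Fn := ww M * lf (1 + (ww M)⁻¹)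
noncomputable def ex (q : ℚ) (M : ℕ) : Fn := fun x => exp (q * lam M x)

theorem sk_ww (M : ℕ) : Sk (ww M) := (Sk.nat _).mul (Sk.xx.pow M)
theorem fp_ww (M : ℕ) : Fp (ww M) := (Fp.nat M.factorial_pos).mul (Fp.xx.pow M)

theorem fp_ww1 (M : ℕ) : Fp (ww M + 1) :=
  Fp.of_sk ((sk_ww M).add Sk.one) ((fp_ww M).pos.mono fun x e => by simp; linarith)

theorem fp_ww2 (M : ℕ) : Fp (1 + (ww M)⁻¹) :=
  ((fp_ww1 M).div (fp_ww M)).congr ((fp_ww M).ne.mono fun x e => by simp; field_simp)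

theorem ev_dvd (d : ℕ) (hd : 0 < d) : ∀ᶠ M : ℕ in atTop, d ∣ M.factorial :=
  (eventually_ge_atTop d).mono fun _ h => Nat.dvd_factorial hd h

theorem pr_fact : Primrec Nat.factorial :=
  (Primrec.nat_rec₁ (f := fun n r => (n + 1) * r) 1 (by unfold Primrec₂; fun_prop)).of_eq fun n => by
    induction n with
    | zero => rfl
    | succ n ih => simp only [Nat.factorial_succ, ← ih]

theorem ex_code (q : ℚ) : ∃ A B : ℕ → ℕ, Primrec A ∧ Primrec B ∧
    ∀ᶠ M in atTop, Pos (A M) ∧ Pos (B M) ∧ ex q M =ᶠ[Nf] evr (A M) / evr (B M) := by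
  wlog h : 0 ≤ q generalizing q
  · obtain ⟨A, B, h1, h2, h3⟩ := this (-q) (by linarith)
    exact ⟨B, A, h2, h1, h3.mono fun M ⟨a, b, c⟩ => ⟨b, a, by
      filter_upwards [c] with x e
      simp only [ex, Rat.cast_neg, neg_mul, exp_neg, Pi.div_apply] at e ⊢
      rw [← inv_div, ← e, inv_inv]⟩⟩
  have := pr_fact
  let W : ℕ → ℕ := fun M => mu (cs M.factorial) (pw 0 (cs M))
  let K : ℕ → ℕ := fun M => mu (cs (q.num.toNat * (M.factorial / q.den))) (pw 0 (cs M))
  refine ⟨fun M => pw (ad (W M) (cs 1)) (K M), fun M => pw (W M) (K M), by fun_prop, by fun_prop,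
    (ev_dvd _ q.pos).mono fun M hM => ⟨Pos.pw (by simp [Pos]) _,
      Pos.pw (by simp [Pos, W, M.factorial_pos]) _, ?_⟩⟩
  filter_upwards [fl_ev, (fp_ww M).pos] with x e p
  have e1 : evr (W M) x = ww M x := by simp [W, rp, ww, e]
  have e2 : evr (K M) x = q * ww M x := by
    have : ((q.num.toNat : ℕ) : ℝ) = q.num := by
      exact_mod_cast Int.toNat_of_nonneg (Rat.num_nonneg.2 h)
    have h2 : (q.den : ℝ) ≠ 0 := by positivity
    simp [K, rp, ww, e, Nat.cast_div hM h2, this, Rat.cast_def]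
    ring
  simp only [evr_pw, evr_ad, evr_cs, rp, Pi.div_apply, Pi.add_apply, e1, e2, ex, lam, lf,
    Pi.mul_apply, Pi.inv_apply, Nat.cast_one, Pi.one_apply]
  rw [← div_rpow (by linarith) p.le, rpow_def_of_pos (by positivity), add_div, div_self p.ne',
    one_div]
  congr 1
  ring

theorem fp_ex (q : ℚ) : ∀ᶠ M in atTop, Fp (ex q M) := by
  obtain ⟨A, B, -, -, h⟩ := ex_code q
  exact h.mono fun M h => ⟨_, _, h⟩

abbrev KK := AddMonoidAlgebra ℚ ℚ

noncomputable def evl (t : ℝ) : KK →ₐ[ℚ] ℝ :=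
  AddMonoidAlgebra.lift ℚ ℝ ℚ
    ⟨⟨fun q => exp (q.toAdd * t), by simp⟩, fun a b => by simp [add_mul, exp_add]⟩

@[simp] theorem evl_single (t : ℝ) (q c : ℚ) : evl t (.single q c) = c * exp (q * t) := by
  simp [evl, Rat.smul_def]

noncomputable def evM (M : ℕ) : KK →+* Fn := RingHom.pi fun x => (evl (lam M x) : KK →+* ℝ)

theorem evM_single (M : ℕ) (q c : ℚ) : evM M (.single q c) = cq c * ex q M := by
  funext x; simp [evM, ex]

theorem evl_ne {a : KK} (h : a ≠ 0) : evl 1 a ≠ 0 := by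
  classical
  intro h0
  have : ∀ᶠ M : ℕ in atTop, ∀ q ∈ a.coeff.support, ∃ n : ℕ, (n : ℚ) = (q + M) * M.factorial := by
    rw [eventually_all_finset]
    intro q _
    obtain ⟨m, hm⟩ := exists_nat_ge (-q)
    filter_upwards [ev_dvd _ q.pos, eventually_ge_atTop m] with M ⟨k, h1⟩ h2
    have h3 : (m : ℚ) ≤ M := by exact_mod_cast h2
    have h4 : ((q.num * k + M * M.factorial : ℤ) : ℚ) = (q + M) * M.factorial := by
      push_cast
      rw [add_mul, h1, ← Rat.mul_den_eq_num]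
      push_cast
      ring
    lift (q.num * k + M * M.factorial : ℤ) to ℕ using
      (by rw [← Int.cast_nonneg_iff (R := ℚ), h4]; exact mul_nonneg (by linarith) (by positivity))
      with n
    exact ⟨n, by exact_mod_cast h4⟩
  obtain ⟨M, hM⟩ := this.exists
  choose! n hn using hM
  have hf : (M.factorial : ℚ) ≠ 0 := by positivity
  have key := hermite M.factorial_pos
    (P := ∑ q ∈ a.coeff.support, Polynomial.monomial (n q) (a.coeff q)) (by
      rw [evl, AddMonoidAlgebra.lift_apply, Finsupp.sum] at h0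
      rw [map_sum, ← mul_zero (exp M), ← h0, Finset.mul_sum]
      refine Finset.sum_congr rfl fun q hq => ?_
      have : (n q : ℝ) = (q + M) * M.factorial := by exact_mod_cast hn q hq
      rw [Polynomial.aeval_monomial, ← exp_nat_mul, this, mul_assoc,
        mul_one_div_cancel (by positivity)]
      simp [Rat.smul_def, exp_add]
      ring)
  obtain ⟨q, hq⟩ : a.coeff.support.Nonempty :=
    Finsupp.support_nonempty_iff.2 fun e => h (AddMonoidAlgebra.coeff_eq_zero.1 e)
  have := congrArg (Polynomial.coeff · (n q)) key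
  simp only [Polynomial.finsetSum_coeff, Polynomial.coeff_monomial, Polynomial.coeff_zero] at this
  rw [Finset.sum_eq_single_of_mem q hq fun b hb hne => if_neg fun e => hne (by
    have := (hn b hb).symm.trans (e ▸ hn q hq)
    simpa [hf] using this), if_pos rfl] at this
  exact Finsupp.mem_support_iff.1 hq this

theorem exp_rat {ρ r : ℚ} (h : exp ρ = r) : ρ = 0 := by
  by_contra h0
  refine evl_ne (a := .single ρ 1 - .single 0 r) (fun e => ?_) (by simp [h])
  have := congrArg (·.coeff ρ) e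
  simp [Finsupp.single_eq_of_ne h0] at this

/-- Linear forms in `1` and the logarithms of `1, ..., N`. -/
abbrev FF (N : ℕ) := KK × (Fin N → KK)

variable {N : ℕ}

noncomputable def val (t : ℝ) : FF N →+ ℝ where
  toFun φ := evl t φ.1 + ∑ i, evl t (φ.2 i) * log (i + 1)
  map_zero' := by simp
  map_add' a b := by simp [add_mul, Finset.sum_add_distrib]; ring

noncomputable def evF (M : ℕ) : FF N →+ P2 where
  toFun φ := (evM M φ.1, ∑ i, evM M (φ.2 i) * lf (cq (i + 1)))
  map_zero' := by simp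
  map_add' a b := by simp [add_mul, Finset.sum_add_distrib]

theorem val_smul (t : ℝ) (a : KK) (φ : FF N) : val t (a • φ) = evl t a * val t φ := by
  simp [val, mul_add, Finset.mul_sum, mul_assoc]

theorem evF_smul (M : ℕ) (a : KK) (φ : FF N) : evF M (a • φ) = evM M a • evF M φ := by
  simp [evF, Finset.mul_sum, mul_assoc]

theorem evF_val (M : ℕ) (φ : FF N) (x : ℝ) :
    (evF M φ).1 x + (evF M φ).2 x = val (lam M x) φ := by
  simp [evF, val, evM, lf, Finset.sum_apply]

theorem diff_evl (a : KK) : Differentiable ℝ fun t => evl t a := by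
  induction a using AddMonoidAlgebra.induction_linear with
  | zero => simp
  | add a b h1 h2 => simp only [map_add]; exact h1.add h2
  | single q c => simp only [evl_single]; fun_prop

theorem diff_val (φ : FF N) : Differentiable ℝ fun t => val t φ :=
  (diff_evl _).add (Differentiable.fun_sum fun _ _ => (diff_evl _).mul_const _)

section
variable [Axs]

theorem nn_pow_sub_one {y : Fn} (h : NN (y - 1)) (n : ℕ) : NN (y ^ n - 1) := by
  induction n with
  | zero => simpa using nn_zero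
  | succ n ih => exact (((ih.mul h).add ih).add h).eq (by ring)

theorem nn_x1 : NN (xx - 1) := by simpa using nn_x_sub 1

theorem nn_ww (M : ℕ) : NN (ww M - xx ^ M) :=
  ((nn_sub_one (Sk.nat M.factorial) (Fp.nat M.factorial_pos).pos).mul (nn_xx.pow M)).eq
    (by unfold ww; ring)

theorem lam_hi (M : ℕ) : LN (1, -lam M) :=
  ((ln_log (fp_ww2 M)).smul (fp_ww M).nn).congr ((fp_ww M).ne.mono fun x e => by simp [e])
    (by simp [lam])

theorem lam_lo (M : ℕ) : LN ((xx ^ M)⁻¹ - 1, lam M) := by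
  have h := fp_ww M
  refine ((((ln_log' (fp_ww2 M)).smul h.nn).add (h.mul (fp_ww1 M)).inv.nn).add
    ((nn_ww M).mul (h.mul (Fp.xx.pow M)).inv.nn)).congr ?_ (by simp [lam])
  filter_upwards [h.pos, pos_ev] with x e e'
  simp
  field_simp
  ring

theorem lim_xi_pow {M : ℕ} (h : 0 < M) : Lim (xx ^ M)⁻¹ 0 :=
  (lim_xi.pow M).eq (by simp) (zero_pow h.ne')

theorem ll_lam {M : ℕ} (h : 0 < M) : LL (0, lam M) 1 :=
  ((LL.squeeze (μ := (-1, lam M)) (lim_xi_pow h) ((lam_lo M).eq (by simp [sub_eq_add_neg]))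
    (((lam_hi M).add (Fp.xx.pow M).inv.nn).eq (by simp [add_comm]))).add lim_one).eq (by simp)
    (by simp)

theorem lim_ex (q : ℚ) : ∀ᶠ M in atTop, Lim (ex q M) (exp q) := by
  filter_upwards [fp_ex q, eventually_gt_atTop 0] with M h1 h2
  exact lim_exp h1 (((Lim.const q).smul (ll_lam h2)).eq (by ext x <;> simp [lf, ex]) (mul_one _))

theorem lim_evM (a : KK) : ∀ᶠ M in atTop, Lim (evM M a) (evl 1 a) := by
  induction a using AddMonoidAlgebra.induction_linear with
  | zero => exact Eventually.of_forall fun _ => lim_zero.eq (by simp) (by simp)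
  | add a b h1 h2 => simp only [map_add]; exact (h1.and h2).mono fun _ e => e.1.add e.2
  | single q c =>
    exact (lim_ex q).mono fun M e => ((Lim.const c).mul e).eq (evM_single M q c).symm (by simp)

theorem ll_evF (φ : FF N) : ∀ᶠ M in atTop, LL (evF M φ) (val 1 φ) := by
  filter_upwards [lim_evM φ.1, eventually_all.2 fun i => lim_evM (φ.2 i)] with M h1 h2
  refine (LL.add h1 (LL.sum (s := Finset.univ) fun i _ =>
    (h2 i).smul (ll_rat (q := i + 1) (by positivity)))).eq ?_ (by simp [val])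
  ext x <;> simp [evF, Prod.fst_sum, Prod.snd_sum, Finset.sum_apply]

end

theorem lam_bound (M : ℕ) : ∀ᶠ x in Nf, |lam M x - 1| ≤ (x ^ M)⁻¹ := by
  let : Axs := ⟨fun _ => False, fun _ h => h.elim⟩
  filter_upwards [(lam_hi M).sound, (lam_lo M).sound, pos_ev] with x a b c
  have : 0 < (x ^ M)⁻¹ := by positivity
  simp at a b
  exact abs_le.2 ⟨by linarith, by linarith⟩

theorem rel_true {φ : FF N} (h : val 1 φ = 0) {M : ℕ} :
    ∀ᶠ x in Nf, 0 ≤ 1 + x ^ M * val (lam (M + 1) x) φ := by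
  obtain ⟨C, hC⟩ := (diff_val φ 1).isBigO_sub.bound
  have h1 : Tendsto (lam (M + 1)) Nf (𝓝 1) := by
    let : Axs := ⟨fun _ => False, fun _ h => h.elim⟩
    simpa using (ll_lam M.succ_pos).sound
  filter_upwards [h1.eventually hC, lam_bound (M + 1), pos_ev, Nf_le (eventually_ge_atTop |C|)]
    with x a b c d
  rw [h, sub_zero, norm_eq_abs, norm_eq_abs] at a
  have k : |val (lam (M + 1) x) φ| ≤ x * (x ^ (M + 1))⁻¹ :=
    a.trans (mul_le_mul ((le_abs_self C).trans d) b (abs_nonneg _) c.le)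
  rw [show x * (x ^ (M + 1))⁻¹ = (x ^ M)⁻¹ by field_simp; ring] at k
  have := mul_le_mul_of_nonneg_left (abs_le.1 k).1 (pow_pos c M).le
  rw [mul_neg, mul_inv_cancel₀ (pow_pos c M).ne'] at this
  linarith

/-! Codes for families of functions. -/

def Cj (μ : P2) (c : Jd × ℕ) : Prop := Pos c.2 ∧ Pos c.1.2.1 ∧ Pos c.1.2.2 ∧
  μ.1 * evr c.2 =ᶠ[Nf] zv c.1.1 ∧ μ.2 * evr c.2 =ᶠ[Nf] lg c.1.2

def Cd (Φ : ℕ → P2) : Prop := ∃ f : ℕ → Jd × ℕ, Primrec f ∧ ∀ᶠ M in atTop, Cj (Φ M) (f M)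

section
variable {Φ Ψ : ℕ → P2} {g : ℕ → Fn}

theorem Cd.smul (a : Cd fun M => (g M, 0)) (b : Cd Φ) : Cd fun M => g M • Φ M := by
  obtain ⟨f, h1, h2⟩ := a
  obtain ⟨f', k1, k2⟩ := b
  refine ⟨fun M => (jmul (f' M).1 (f M).1.1, mu (f' M).2 (f M).2), by fun_prop, ?_⟩
  filter_upwards [h2, k2] with M ⟨a1, _, _, a4, _⟩ ⟨b1, b2, b3, b4, b5⟩
  refine ⟨b1.mu a1, (b2.pw _).mu (b3.pw _), (b3.pw _).mu (b2.pw _), ?_, ?_⟩
  · filter_upwards [a4, b4] with x e1 e2
    simp [jmul, ← e1, ← e2]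
    ring
  · filter_upwards [a4, b5, lg_jmul b2 b3 (f M).1.1] with x e1 e2 e3
    simp [e3, ← e1, ← e2]
    ring

theorem Cd.add (a : Cd Φ) (b : Cd Ψ) : Cd fun M => Φ M + Ψ M := by
  obtain ⟨f, h1, h2⟩ := a
  obtain ⟨f', k1, k2⟩ := b
  refine ⟨fun M => (jadd (jmul (f M).1 (zs (f' M).2)) (jmul (f' M).1 (zs (f M).2)),
    mu (f M).2 (f' M).2), by fun_prop, ?_⟩
  filter_upwards [h2, k2] with M ⟨a1, a2, a3, a4, a5⟩ ⟨b1, b2, b3, b4, b5⟩
  have p1 := (a2.pw (f' M).2).mu (a3.pw (cs 0))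
  have p2 := (a3.pw (f' M).2).mu (a2.pw (cs 0))
  have p3 := (b2.pw (f M).2).mu (b3.pw (cs 0))
  have p4 := (b3.pw (f M).2).mu (b2.pw (cs 0))
  refine ⟨a1.mu b1, p1.mu p3, p2.mu p4, ?_, ?_⟩
  · filter_upwards [a4, b4] with x e1 e2
    simp [jadd, jmul, ← e1, ← e2]
    ring
  · filter_upwards [a5, b5, lg_jadd' (j := jmul (f M).1 (zs (f' M).2))
      (k := jmul (f' M).1 (zs (f M).2)) p1 p2 p3 p4, lg_jmul a2 a3 (zs (f' M).2),
      lg_jmul b2 b3 (zs (f M).2)] with x e1 e2 e3 e4 e5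
    simp [e3, e4, e5, ← e1, ← e2]
    ring

theorem cd_frac {a : ℕ → ℕ × ℕ} {B : ℕ → ℕ} (h1 : Primrec a) (h2 : Primrec B)
    (h : ∀ᶠ M in atTop, Pos (B M) ∧ g M * evr (B M) =ᶠ[Nf] zv (a M)) : Cd fun M => (g M, 0) :=
  ⟨fun M => ((a M, one2), B M), by fun_prop, h.mono fun M e => ⟨e.1, pos_one, pos_one, e.2, by simp⟩⟩

theorem cd_cq (q : ℚ) : Cd fun _ => (cq q, 0) :=
  cd_frac (a := fun _ => (cs (-q.num).toNat, cs q.num.toNat)) (B := fun _ => cs q.den)
    (by fun_prop) (by fun_prop) (Eventually.of_forall fun _ => ⟨by simp [Pos, q.pos],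
      Eventually.of_forall fun x => by
        have : ((q.num.toNat : ℕ) : ℝ) - ((-q.num).toNat : ℕ) = q.num := by
          exact_mod_cast Int.toNat_sub_toNat_neg q.num
        simp [this, Rat.cast_def]⟩)

theorem cd_evM (a : KK) : Cd fun M => (evM (M + 1) a, 0) := by
  induction a using AddMonoidAlgebra.induction_linear with
  | zero => simpa using cd_cq 0
  | add a b h1 h2 => simpa using h1.add h2
  | single q c =>
    obtain ⟨A, B, h1, h2, h3⟩ := ex_code q
    have : Cd fun M => (ex q (M + 1), 0) :=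
      cd_frac (a := fun M => zs (A (M + 1))) (B := fun M => B (M + 1)) (by fun_prop) (by fun_prop)
        (((tendsto_add_atTop_nat 1).eventually h3).mono fun M e => ⟨e.2.1, by
          filter_upwards [e.2.1.ev, e.2.2] with x a b
          simp [b, a.ne']⟩)
    simpa [evM_single] using (cd_cq c).smul this

theorem cd_evF (φ : FF N) : Cd fun M => (1, 0) + xx ^ M • evF (M + 1) φ := by
  have h1 : Cd fun M => (xx ^ M, 0) :=
    cd_frac (a := fun M => zs (pw 0 (cs M))) (B := fun _ => cs 1) (by fun_prop) (by fun_prop)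
      (Eventually.of_forall fun M => ⟨pos_one, fl_ev.mono fun x e => by simp [rp, e]⟩)
  have h2 : ∀ i : ℕ, Cd fun _ => (0, lf (cq (i + 1))) := fun i =>
    ⟨fun _ => ((zs (cs 0), (cs 1, cs (i + 1))), cs 1), by fun_prop, Eventually.of_forall fun _ =>
      ⟨pos_one, pos_one, by simp [Pos], by simp, Eventually.of_forall fun x => by simp [lg, lf]⟩⟩
  have h3 : ∀ s : Finset (Fin N),
      Cd fun M => (evM (M + 1) φ.1, ∑ i ∈ s, evM (M + 1) (φ.2 i) * lf (cq (i + 1))) := fun s => by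
    induction s using Finset.induction_on with
    | empty => exact cd_evM _
    | insert i s hi ih => simpa [hi, add_comm] using ih.add ((cd_evM (φ.2 i)).smul (h2 i))
  have := (cd_cq 1).add (h1.smul (h3 Finset.univ))
  rwa [show cq 1 = 1 by funext x; simp] at this

end

theorem exists_ax (s : Finset (FF N)) (h : ∀ φ ∈ s, val 1 φ = 0) : ∃ ax : Jd → Prop, CE ax ∧
    (∀ j, ax j → Snd j) ∧ ∀ φ ∈ s, ∀ᶠ M in atTop,
      ∃ c, ax c.1 ∧ Cj ((1, 0) + xx ^ M • evF (M + 1) φ) c := by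
  classical
  induction s using Finset.induction_on with
  | empty => exact ⟨fun _ => False, CE.of_pred (pp_const _), by simp, by simp⟩
  | insert φ s _ ih =>
    obtain ⟨ax, a1, a2, a3⟩ := ih fun ψ m => h ψ (by simp [m])
    obtain ⟨f, b1, b2⟩ := cd_evF φ
    obtain ⟨M₀, b2⟩ := eventually_atTop.1 b2
    refine ⟨fun j => ax j ∨ ∃ M, M₀ ≤ M ∧ j = (f M).1, a1.or (CE.ex (p := fun y : Jd × ℕ =>
      M₀ ≤ y.2 ∧ y.1 = (f y.2).1) (CE.of_pred ((pp_le (by fun_prop) (by fun_prop)).and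
      (pp_eq (by fun_prop) (by fun_prop))))), ?_, ?_⟩
    · rintro j (k | ⟨M, k, rfl⟩)
      · exact a2 j k
      · obtain ⟨-, c2, c3, c4, c5⟩ := b2 M k
        refine ⟨c2, c3, ?_⟩
        filter_upwards [c4, c5, rel_true (h φ (by simp)) (M := M)] with x e1 e2 e3
        rw [← e1, ← e2, Pi.mul_apply, Pi.mul_apply, ← add_mul]
        refine mul_nonneg ?_ (evr_nonneg _ _)
        rw [← evF_val] at e3
        simpa [add_assoc, mul_add] using e3
    · intro ψ m
      rcases Finset.mem_insert.1 m with rfl | m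
      · exact (eventually_ge_atTop M₀).mono fun M k => ⟨f M, Or.inr ⟨M, k, rfl⟩, b2 M k⟩
      · exact (a3 ψ m).mono fun M ⟨c, k1, k2⟩ => ⟨c, Or.inl k1, k2⟩

/-- All true linear relations are provable for the approximations. -/
class HasRel (N : outParam ℕ) [Axs] : Prop where
  rel : ∀ φ : FF N, val 1 φ = 0 → ∀ k : ℕ, ∀ᶠ M in atTop, LL (xx ^ k • evF M φ) 0

theorem exists_rel (N : ℕ) : ∃ A : Axs, CE A.ax ∧ HasRel N := by
  classical
  obtain ⟨I, h1, h2⟩ := exists_maximal_linearIndepOn KK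
    (fun φ : {φ : FF N // val 1 φ = 0} => φ.1)
  have hI : I.Finite := Set.finite_coe_iff.1 (LinearIndependent.finite h1)
  let s := (hI.image fun φ => φ.1).toFinset
  have hs : ∀ φ ∈ s, val 1 φ = 0 := fun φ m => by
    obtain ⟨ψ, -, rfl⟩ := (Finite.mem_toFinset _).1 m
    exact ψ.2
  obtain ⟨ax, a1, a2, a3⟩ := exists_ax (s ∪ s.image fun φ => -φ) fun φ m => by
    rcases Finset.mem_union.1 m with m | m
    · exact hs φ m
    · obtain ⟨ψ, m', rfl⟩ := Finset.mem_image.1 m
      rw [map_neg, hs ψ m', neg_zero]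
  let A : Axs := ⟨ax, a2⟩
  refine ⟨A, a1, ⟨fun φ hφ k => ?_⟩⟩
  have k1 : ∀ φ ∈ s ∪ s.image fun φ => -φ, ∀ᶠ M in atTop,
      LN ((1, 0) + xx ^ M • evF (M + 1) φ) := fun φ m => (a3 φ m).mono fun M ⟨c, c1, c2⟩ =>
    ⟨c.1, zs c.2, Cl.intro _ [] ⟨(c.1, 0, 0), Or.inr (Or.inr (Or.inr (Or.inr ⟨c1, rfl⟩)))⟩ (by simp),
      c2.1.pn, by simpa using c2.2.2.2.1, by simpa using c2.2.2.2.2⟩
  have k2 : ∀ ψ ∈ Submodule.span KK ((fun φ : {φ : FF N // val 1 φ = 0} => φ.1) '' I),
      ∀ᶠ M in atTop, LL (xx ^ k • evF M ψ) 0 := by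
    intro ψ m
    induction m using Submodule.span_induction with
    | mem ψ m =>
      have m' : ψ ∈ s := (Finite.mem_toFinset _).2 m
      rw [← map_add_atTop_eq_nat (k + 2), eventually_map]
      filter_upwards [(tendsto_add_atTop_nat (k + 1)).eventually (k1 ψ (by simp [m'])),
        (tendsto_add_atTop_nat (k + 1)).eventually (k1 (-ψ) (by simp [m']))] with M b1 b2
      have := LL.small (lim_xi_pow M.succ_pos) (Fp.xx.pow _).inv.nn b1
        (b2.eq (by rw [map_neg, smul_neg, sub_eq_add_neg]))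
      refine this.congr ?_ ?_ <;>
      · filter_upwards [pos_ev] with x e
        simp [add_assoc]
        field_simp
        ring
    | zero => exact Eventually.of_forall fun M => ll_zero.eq (by simp) rfl
    | add a b _ _ c1 c2 =>
      exact (c1.and c2).mono fun M e => (e.1.add e.2).eq (by rw [map_add, smul_add]) (by simp)
    | smul a b _ c =>
      exact (c.and (lim_evM a)).mono fun M e =>
        (e.2.smul e.1).eq (by rw [evF_smul, smul_comm]) (by simp)
  by_cases m : ⟨φ, hφ⟩ ∈ I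
  · exact k2 φ (Submodule.subset_span ⟨_, m, rfl⟩)
  · obtain ⟨a, b1, b2⟩ := h2 _ m
    exact ((k2 _ b2).and (lim_evM a)).mono fun M e =>
      LL.div0 e.2 (evl_ne b1) (e.1.eq (by rw [evF_smul, smul_comm]) rfl)

end Pool.Agent.MP_b50963_lc.PB
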