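import Pool.Agent.MP_b50963_lc.PB3

/-!
Provable asymptotic expansions in powers of `x`, and leading terms.
-/

set_option autoImplicit false

namespace Pool.Agent.MP_b50963_lc.PB

open Set Filter Topology Real Polynomial Asymptotics

/-- Integer powers of `x`. -/
noncomputable def zx (n : ℤ) : Fn := fun x => exp (n * log x)

theorem zx_add (m n : ℤ) : zx (m + n) = zx m * zx n := by funext x; simp [zx, add_mul, exp_add]
@[simp] theorem zx_zero : zx 0 = 1 := by funext x; simp [zx]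
theorem zx_pos (n : ℤ) (x : ℝ) : 0 < zx n x := exp_pos _
theorem zx_neg (n : ℤ) : zx (-n) = (zx n)⁻¹ := by funext x; simp [zx, exp_neg]
theorem zx_nat' (n : ℕ) {x : ℝ} (h : 0 < x) : zx n x = x ^ n := by
  simp [zx, exp_nat_mul, exp_log h]
theorem zx_nat (n : ℕ) : zx n =ᶠ[Nf] xx ^ n := pos_ev.mono fun _ h => zx_nat' n h
theorem zx_mul_neg (n : ℤ) : zx n * zx (-n) = 1 := by rw [← zx_add]; simp

theorem fp_zx (n : ℤ) : Fp (zx n) := by
  obtain ⟨m, rfl | rfl⟩ := n.eq_nat_or_neg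
  · exact (Fp.xx.pow m).congr (zx_nat m).symm
  · exact zx_neg m ▸ ((Fp.xx.pow m).congr (zx_nat m).symm).inv

theorem tm_zx (n : ℤ) : Tm log (zx n) :=
  ((Tm.const n).mul sc_log (Tm.id.log sc_log fun _ h => h)).exp sc_log
    ((isBigO_refl _ _).const_mul_left _)

/-- The function given by a polynomial in `s`. -/
noncomputable def pc (B : ℚ[X]) (s : Fn) : Fn := fun x => aeval (s x) B

theorem pc_ind {P : Fn → Prop} {s : Fn} (hc : ∀ q, P (cq q)) (ha : ∀ f g, P f → P g → P (f + g))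
    (hm : ∀ f, P f → P (f * s)) (B : ℚ[X]) : P (pc B s) := by
  induction B using Polynomial.recOnHorner with
  | M0 => convert hc 0; funext x; simp [pc]
  | MC p a _ _ ih => convert ha _ _ ih (hc a); funext x; simp [pc]
  | MX p _ ih => convert hm _ ih; funext x; simp [pc]

/-- Models of expansions of functions. -/
inductive Mp : (ℕ → Fn) → Prop
  | gen (n : ℤ) (a : KK) : Mp fun M => zx n * evM M a
  | zero : Mp 0
  | add {f g : ℕ → Fn} : Mp f → Mp g → Mp (f + g)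

/-- Models of expansions of pairs. -/
inductive Mo (N : ℕ) : (ℕ → P2) → Prop
  | gen (n : ℤ) (φ : FF N) : Mo N fun M => zx n • evF M φ
  | zero : Mo N 0
  | add {f g : ℕ → P2} : Mo N f → Mo N g → Mo N (f + g)

variable {N : ℕ}

theorem Mp.mo {g : ℕ → Fn} (h : Mp g) : Mo N fun M => (g M, 0) := by
  induction h with
  | gen n a => simpa [evF] using Mo.gen (N := N) n (a, 0)
  | zero => exact Mo.zero
  | add _ _ a b => convert a.add b using 1; funext M; simp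

theorem Mp.smul {g : ℕ → Fn} {Φ : ℕ → P2} (h : Mp g) (h' : Mo N Φ) : Mo N fun M => g M • Φ M := by
  induction h with
  | gen n a =>
    induction h' with
    | gen m φ =>
      convert Mo.gen (n + m) (a • φ) using 2
      rw [evF_smul, zx_add, smul_smul, smul_smul, mul_right_comm]
    | zero => convert Mo.zero using 1; funext M; simp
    | add _ _ a b => convert a.add b using 1; funext M; simp
  | zero => convert Mo.zero using 1; funext M; simp
  | add _ _ a b => convert a.add b using 1; funext M; simp [add_smul]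

theorem Mp.mul {f g : ℕ → Fn} (h : Mp f) (h' : Mp g) : Mp (f * g) := by
  induction h with
  | gen n a =>
    induction h' with
    | gen m b =>
      convert Mp.gen (n + m) (a * b) using 1
      funext M
      rw [map_mul, zx_add, Pi.mul_apply, mul_mul_mul_comm]
    | zero => simpa using Mp.zero
    | add _ _ a b => rw [mul_add]; exact a.add b
  | zero => simpa using Mp.zero
  | add _ _ a b => rw [add_mul]; exact a.add b

theorem mp_cq (q : ℚ) : Mp fun _ => cq q := by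
  convert Mp.gen 0 (.single 0 q) using 2
  funext x
  simp [evM_single, ex]

theorem mp_zx (n : ℤ) : Mp fun _ => zx n := by simpa using Mp.gen n 1

theorem Mo.nf {Φ : ℕ → P2} (h : Mo N Φ) :
    ∃ a : ℤ →₀ FF N, ∀ M, Φ M = a.sum fun n φ => zx n • evF M φ := by
  induction h with
  | gen n φ => exact ⟨.single n φ, fun M => by simp⟩
  | zero => exact ⟨0, fun M => by simp⟩
  | add _ _ a b =>
    obtain ⟨a, ha⟩ := a
    obtain ⟨b, hb⟩ := b
    exact ⟨a + b, fun M => by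
      rw [Finsupp.sum_add_index' (by simp) (by simp), Pi.add_apply, ha, hb]⟩

variable [Axs]

theorem lim_zx {n : ℤ} (h : n < 0) : Lim (zx n) 0 := by
  obtain ⟨m, rfl⟩ : ∃ m : ℕ, n = -m := ⟨(-n).toNat, by omega⟩
  exact (lim_xi_pow (by omega)).congr (zx_neg m ▸ (zx_nat m).symm.inv)

theorem LL.down {μ : P2} {m n : ℤ} (h : LL (zx n • μ) 0) (e : m ≤ n) : LL (zx m • μ) 0 := by
  rcases e.eq_or_lt with rfl | e
  · exact h
  · exact ((lim_zx (sub_neg.2 e)).smul h).eq (by rw [smul_smul, ← zx_add, sub_add_cancel])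
      (mul_zero _)

def Ap (g : Fn) : Prop := ∀ k : ℕ, ∃ G, Mp G ∧ ∀ᶠ M in atTop, Lim (zx k * (g - G M)) 0
def ApL (N : ℕ) (μ : P2) : Prop :=
  ∀ k : ℕ, ∃ Φ, Mo N Φ ∧ ∀ᶠ M in atTop, LL (zx k • (μ - Φ M)) 0

section
variable {f g : Fn} {μ ν : P2}

theorem Ap.apl (h : Ap g) : ApL N (g, 0) := fun k => by
  obtain ⟨G, h1, h2⟩ := h k
  exact ⟨_, h1.mo, h2.mono fun M e => LL.eq e (by simp) rfl⟩

theorem Ap.of_mp (h : Mp fun _ => g) : Ap g := fun _ =>
  ⟨_, h, Eventually.of_forall fun _ => lim_zero.eq (by simp) rfl⟩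

theorem Ap.congr (h : Ap f) (e : f =ᶠ[Nf] g) : Ap g := fun k =>
  (h k).imp fun _ a => ⟨a.1, a.2.mono fun _ b => b.congr (.mul .rfl (e.sub .rfl))⟩

theorem ApL.congr (h : ApL N μ) (e : μ.1 =ᶠ[Nf] ν.1) (e' : μ.2 =ᶠ[Nf] ν.2) : ApL N ν := fun k =>
  (h k).imp fun _ a => ⟨a.1, a.2.mono fun _ b =>
    b.congr (.mul .rfl (e.sub .rfl)) (.mul .rfl (e'.sub .rfl))⟩

theorem Ap.add (h : Ap f) (h' : Ap g) : Ap (f + g) := fun k => by
  obtain ⟨F, h1, h2⟩ := h k
  obtain ⟨G, k1, k2⟩ := h' k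
  exact ⟨_, h1.add k1, (h2.and k2).mono fun M e => (e.1.add e.2).eq (by simp; ring) (add_zero _)⟩

theorem ApL.add (h : ApL N μ) (h' : ApL N ν) : ApL N (μ + ν) := fun k => by
  obtain ⟨F, h1, h2⟩ := h k
  obtain ⟨G, k1, k2⟩ := h' k
  exact ⟨_, h1.add k1, (h2.and k2).mono fun M e => (e.1.add e.2).eq
    (by rw [← smul_add, Pi.add_apply, add_sub_add_comm]) (add_zero _)⟩

variable [HasRel N]

theorem Mo.lead {Φ : ℕ → P2} (h : Mo N Φ) : ∃ γ : ℤ → ℝ, (∃ b, ∀ n > b, γ n = 0) ∧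
    ∀ m, (∀ n > m, γ n = 0) → ∀ᶠ M in atTop, LL (zx (-m) • Φ M) (γ m) := by
  obtain ⟨a, ha⟩ := h.nf
  obtain ⟨b, hb⟩ := a.support.bddAbove
  refine ⟨fun n => val 1 (a n), ⟨b, fun n e => by
    simp only [Finsupp.notMem_support_iff.1 fun k => e.not_ge (hb k), map_zero]⟩, fun m hm => ?_⟩
  have : ∀ n ∈ a.support, ∀ᶠ M in atTop,
      LL (zx (-m) • zx n • evF M (a n)) (if n = m then val 1 (a n) else 0) := fun n _ => by
    simp only [smul_smul, ← zx_add]
    rcases lt_trichotomy n m with e | rfl | e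
    · exact (ll_evF (a n)).mono fun M k => ((lim_zx (by omega)).smul k).eq rfl (by simp [e.ne])
    · simpa using ll_evF (a n)
    · obtain ⟨k, hk⟩ : ∃ k : ℕ, -m + n = k := ⟨(n - m).toNat, by omega⟩
      rw [if_neg e.ne', hk]
      exact (HasRel.rel (a n) (hm n e) k).mono fun M c =>
        c.congr (.mul (zx_nat k).symm .rfl) (.mul (zx_nat k).symm .rfl)
  refine ((eventually_all_finset _).2 this).mono fun M e => (LL.sum e).eq ?_ ?_
  · rw [ha, Finsupp.sum, Finset.smul_sum]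
  · rw [Finset.sum_ite_eq']
    split_ifs with k
    · rfl
    · simp only [Finsupp.notMem_support_iff.1 k, map_zero]

theorem Mo.bound {Φ : ℕ → P2} (h : Mo N Φ) : ∃ K : ℕ, ∀ᶠ M in atTop, LL (zx (-K) • Φ M) 0 := by
  obtain ⟨γ, ⟨b, h1⟩, h2⟩ := h.lead
  exact ⟨b.toNat + 1, h1 (b.toNat + 1 : ℕ) (by omega) ▸ h2 _ fun n e => h1 n (by omega)⟩

theorem ApL.bound (h : ApL N μ) : ∃ K : ℕ, LL (zx (-K) • μ) 0 := by
  obtain ⟨Φ, h1, h2⟩ := h 0
  obtain ⟨K, h3⟩ := h1.bound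
  obtain ⟨M, a, b⟩ := (h2.and h3).exists
  exact ⟨K, ((a.down (m := -K) (by omega)).add b).eq (by rw [← smul_add, sub_add_cancel])
    (add_zero _)⟩

theorem Ap.smul (h : Ap g) (h' : ApL N μ) : ApL N (g • μ) := fun k => by
  obtain ⟨K, h1⟩ := h'.bound
  obtain ⟨G, h2, h3⟩ := h (k + K)
  obtain ⟨K', h4⟩ := (h2.mo (N := N)).bound
  obtain ⟨Φ, h5, h6⟩ := h' (k + K')
  refine ⟨_, h2.smul h5, ?_⟩
  filter_upwards [h3, h4, h6] with M a b c
  refine ((a.smul h1).add (Lim.smul (y := zx (-K') * G M) (b.eq (by simp) rfl) c)).eq ?_ (by simp)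
  have e1 := zx_mul_neg K
  have e2 := zx_mul_neg K'
  push_cast
  ext1 <;> simp [zx_add]
  · linear_combination (zx k * (g - G M) * μ.1) * e1 + (zx k * G M * (μ.1 - (Φ M).1)) * e2
  · linear_combination (zx k * (g - G M) * μ.2) * e1 + (zx k * G M * (μ.2 - (Φ M).2)) * e2

include N in
theorem Ap.mul (h : Ap f) (h' : Ap g) : Ap (f * g) := fun k => by
  obtain ⟨K, h1⟩ := (h'.apl (N := N)).bound
  obtain ⟨F, h2, h3⟩ := h (k + K)
  obtain ⟨K', h4⟩ := (h2.mo (N := N)).bound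
  obtain ⟨G, h5, h6⟩ := h' (k + K')
  refine ⟨_, h2.mul h5, ?_⟩
  filter_upwards [h3, h4, h6] with M a b c
  refine ((a.mul (y' := zx (-K) * g) (h1.eq (by simp) rfl)).add
    (Lim.mul (y := zx (-K') * F M) (b.eq (by simp) rfl) c)).eq ?_ (by simp)
  have e1 := zx_mul_neg K
  have e2 := zx_mul_neg K'
  push_cast
  simp [zx_add]
  linear_combination (zx k * (f - F M) * g) * e1 + (zx k * F M * (g - G M)) * e2

theorem ApL.lead (h : ApL N μ) (hf : Un log f) (e : f =ᶠ[Nf] μ.1 + μ.2) :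
    ∃ (n : ℤ) (γ : ℝ), γ ≠ 0 ∧ LL (zx (-n) • μ) γ := by
  obtain ⟨C, -, h1⟩ := hf.le sc_log
  obtain ⟨k, hk⟩ := exists_nat_ge C
  obtain ⟨Φ, h2, h3⟩ := h k
  obtain ⟨γ, ⟨b, h4⟩, h5⟩ := h2.lead
  have key : ∀ m : ℤ, -k ≤ m → (∀ n > m, γ n = 0) → LL (zx (-m) • μ) (γ m) := fun m e1 e2 => by
    obtain ⟨M, a, b⟩ := (h3.and (h5 m e2)).exists
    exact ((a.down (m := -m) (by omega)).add b).eq (by rw [← smul_add, sub_add_cancel]) (zero_add _)
  by_cases h6 : ∃ n : ℤ, -k ≤ n ∧ γ n ≠ 0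
  · obtain ⟨n, ⟨a1, a2⟩, a3⟩ := Int.exists_greatest_of_bdd
      ⟨b, fun n a => not_lt.1 fun c => a.2 (h4 n c)⟩ h6
    exact ⟨n, _, a2, key n a1 fun m c => not_not.1 fun d => c.not_ge (a3 m ⟨by omega, d⟩)⟩
  · push Not at h6
    have := (key (-k) le_rfl fun n c => h6 n c.le).sound
    rw [h6 _ le_rfl] at this
    obtain ⟨x, a1, a2, a3, a4⟩ := ((this.abs.eventually_lt_const (by simp : |(0 : ℝ)| < 1)).and
      (e.and ((h1.and (eventually_ge_atTop 1)).filter_mono Nf_le))).exists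
    have a5 := mul_le_mul_of_nonneg_right hk (log_nonneg a4)
    have a6 : 1 ≤ zx k x * exp (-(C * log x)) := by
      rw [zx, ← exp_add]
      exact one_le_exp (by push_cast; linarith)
    simp only [neg_neg, Prod.smul_fst, Prod.smul_snd, smul_eq_mul, Pi.add_apply, Pi.mul_apply,
      ← mul_add, abs_mul, abs_of_pos (zx_pos _ _)] at a1
    rw [a2, Pi.add_apply] at a3
    nlinarith [zx_pos k x]

end

/-- Tame functions with provable expansions. -/
def TA (g : Fn) : Prop := Ap g ∧ ∃ f, Tm log f ∧ f =ᶠ[Nf] g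
def TL (N : ℕ) (μ : P2) : Prop := ApL N μ ∧ ∃ f, Tm log f ∧ f =ᶠ[Nf] μ.1 + μ.2

section
variable {f g : Fn} {μ ν : P2}

theorem TA.tl (h : TA g) : TL N (g, 0) := ⟨h.1.apl, by simpa using h.2⟩

theorem TA.congr (h : TA f) (e : f =ᶠ[Nf] g) : TA g :=
  ⟨h.1.congr e, h.2.imp fun _ a => ⟨a.1, a.2.trans e⟩⟩

theorem TL.congr (h : TL N μ) (e : μ.1 =ᶠ[Nf] ν.1) (e' : μ.2 =ᶠ[Nf] ν.2) : TL N ν :=
  ⟨h.1.congr e e', h.2.imp fun _ a => ⟨a.1, a.2.trans (e.add e')⟩⟩

theorem TA.add (h : TA f) (h' : TA g) : TA (f + g) := by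
  obtain ⟨a, F, a1, a2⟩ := h
  obtain ⟨b, G, b1, b2⟩ := h'
  exact ⟨a.add b, _, a1.add b1, a2.add b2⟩

theorem TL.add (h : TL N μ) (h' : TL N ν) : TL N (μ + ν) := by
  obtain ⟨a, F, a1, a2⟩ := h
  obtain ⟨b, G, b1, b2⟩ := h'
  exact ⟨a.add b, _, a1.add b1, (a2.add b2).trans (by simp [add_add_add_comm])⟩

theorem ta_cq (q : ℚ) : TA (cq q) := ⟨Ap.of_mp (mp_cq q), _, Tm.const _, .rfl⟩
theorem ta_zx (n : ℤ) : TA (zx n) := ⟨Ap.of_mp (mp_zx n), _, tm_zx n, .rfl⟩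
theorem ta_one : TA 1 := by simpa using ta_zx 0
theorem ta_zero : TA 0 := by simpa using ta_cq 0
theorem ta_xx : TA xx := (ta_zx (1 : ℕ)).congr (by simpa using zx_nat 1)

variable [HasRel N]

theorem TA.smul (h : TA g) (h' : TL N μ) : TL N (g • μ) := by
  obtain ⟨a, F, a1, a2⟩ := h
  obtain ⟨b, G, b1, b2⟩ := h'
  exact ⟨a.smul b, _, a1.mul sc_log b1, (a2.mul b2).trans (by simp [mul_add])⟩

theorem TL.lead (h : TL N μ) :
    μ.1 + μ.2 =ᶠ[Nf] 0 ∨ ∃ (n : ℤ) (γ : ℝ), γ ≠ 0 ∧ LL (zx (-n) • μ) γ := by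
  obtain ⟨a, F, a1, a2⟩ := h
  exact (a1.md sc_log).2.imp (fun e => a2.symm.trans (Nf_le e)) fun e => a.lead e a2

include N

theorem TA.mul (h : TA f) (h' : TA g) : TA (f * g) := by
  obtain ⟨a, F, a1, a2⟩ := h
  obtain ⟨b, G, b1, b2⟩ := h'
  exact ⟨a.mul b, _, a1.mul sc_log b1, a2.mul b2⟩

theorem TA.neg (h : TA f) : TA (-f) := by
  convert (ta_cq (-1)).mul h using 1
  funext x
  simp

theorem TA.sub (h : TA f) (h' : TA g) : TA (f - g) := sub_eq_add_neg f g ▸ h.add (h'.neg)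

theorem TA.pow (h : TA f) (n : ℕ) : TA (f ^ n) := by
  induction n with
  | zero => simpa using ta_one
  | succ n ih => rw [pow_succ]; exact ih.mul h

theorem TA.pc (h : TA f) (B : ℚ[X]) : TA (pc B f) :=
  pc_ind ta_cq (fun _ _ => TA.add) (fun _ a => a.mul h) B

theorem TA.nn (h : TA g) (e : ∀ᶠ x in Nf, 0 ≤ g x) : NN g := by
  rcases (h.tl (N := N)).lead with k | ⟨n, γ, k1, k2⟩
  · exact nn_zero.congr (by simpa using k.symm)
  · have : 0 ≤ γ := ge_of_tendsto k2.sound (e.mono fun x a => by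
      simpa using mul_nonneg (zx_pos _ x).le a)
    exact (k2.1.ln (this.lt_of_ne' k1)).cancel (fp_zx _)

theorem TA.lim {θ : ℝ} (h : TA g) (e : Tendsto g Nf (𝓝 θ)) : Lim g θ :=
  ⟨fun r hr => LN.eq ((h.sub (ta_cq r)).nn ((e.eventually_const_lt hr).mono fun x a =>
    sub_nonneg.2 a.le)) (by simp), fun r hr => LN.eq (((h.neg).sub (ta_cq r)).nn
    ((e.neg.eventually_const_lt hr).mono fun x a => sub_nonneg.2 a.le)) (by simp)⟩

end

end Pool.Agent.MP_b50963_lc.PB
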