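import Pool.Agent.MP_b50963_lc.PB4

/-!
Expansions of logarithms of polynomials and of moderate products of powers of polynomials.
-/

set_option autoImplicit false

namespace Pool.Agent.MP_b50963_lc.PB

open Set Filter Topology Real Polynomial Asymptotics

noncomputable def xi : Fn := zx (-1)

theorem xi_tendsto : Tendsto xi Nf (𝓝 0) := by
  let : Axs := ⟨fun _ => False, fun _ h => h.elim⟩
  exact (lim_zx (by omega)).sound

theorem xi_pow (m : ℕ) : Tendsto (xi ^ (m + 1)) Nf (𝓝 0) := by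
  have := xi_tendsto.pow (m + 1)
  rwa [zero_pow m.succ_ne_zero] at this

theorem zx_xi (k : ℕ) : zx k * xi ^ k = 1 := by
  funext x
  simp [zx, xi, ← exp_nat_mul, ← exp_add]

section
variable {u g : Fn}

theorem O_zero (h : u =O[Nf] xi) : Tendsto u Nf (𝓝 0) := h.trans_tendsto xi_tendsto

theorem O_small {k n : ℕ} (e : k < n) (h : g =O[Nf] (xi ^ n)) : Tendsto (zx k * g) Nf (𝓝 0) := by
  obtain ⟨m, rfl⟩ := Nat.exists_eq_add_of_lt e
  refine ((isBigO_refl (zx k) Nf).mul h).trans_tendsto ?_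
  have : (fun x => zx k x * (xi ^ (k + m + 1)) x) = xi ^ (m + 1) := by
    rw [add_assoc, pow_add]
    exact (mul_assoc _ _ _).symm.trans (by rw [zx_xi, one_mul])
  exact this ▸ xi_pow m

theorem O_PP (h : u =O[Nf] xi) (n : ℕ) :
    (fun x => PP n (u x) + log (1 - u x)) =O[Nf] (xi ^ (n + 1)) := by
  refine IsBigO.trans (IsBigO.of_bound 2 ?_) (h.pow (n + 1))
  filter_upwards [(O_zero h).abs.eventually_lt_const (by simp : |(0 : ℝ)| < 1 / 2)] with x a
  refine (abs_log_sub_add_sum_range_le (by linarith) n).trans ?_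
  rw [div_le_iff₀ (by linarith), norm_pow, norm_eq_abs]
  nlinarith [pow_nonneg (abs_nonneg (u x)) (n + 1)]

end

noncomputable def PQ (n : ℕ) : ℚ[X] := ∑ i ∈ Finset.range n, C ((i : ℚ) + 1)⁻¹ * X ^ (i + 1)
noncomputable def EQ (n : ℕ) : ℚ[X] := ∑ i ∈ Finset.range n, C (i.factorial : ℚ)⁻¹ * X ^ i

theorem pc_PQ (n : ℕ) (u : Fn) (x : ℝ) : pc (PQ n) u x = PP n (u x) := by
  simp [pc, PQ, PP, div_eq_inv_mul]

theorem O_EQ {u : Fn} (h : u =O[Nf] xi) (n : ℕ) :
    (fun x => exp (u x) - pc (EQ (n + 1)) u x) =O[Nf] (xi ^ (n + 1)) := by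
  refine IsBigO.trans (IsBigO.of_bound ((n + 1).succ / ((n + 1).factorial * (n + 1 : ℕ))) ?_)
    (h.pow (n + 1))
  filter_upwards [(O_zero h).abs.eventually_le_const (by simp : |(0 : ℝ)| < 1)] with x a
  have := exp_bound a n.succ_pos
  rw [mul_comm, norm_pow, norm_eq_abs, norm_eq_abs]
  simpa [pc, EQ, div_eq_inv_mul] using this

theorem O_pc {u : Fn} (h : u =O[Nf] xi) {B : ℚ[X]} (h0 : B.coeff 0 = 0) : pc B u =O[Nf] xi := by
  obtain ⟨B, rfl⟩ := X_dvd_iff.2 h0
  have := ((B.continuous_aeval (A := ℝ)).tendsto 0 |>.comp (O_zero h)).isBigO_one ℝ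
  exact (h.mul this).congr (fun x => by simp [pc]) fun x => mul_one _

variable {N : ℕ} [Axs]

theorem LN.lo {μ : P2} (h : LN μ) : Lo μ 0 := fun r hr =>
  (h.add (nn_cq (q := -r) (by exact_mod_cast neg_nonneg.2 hr.le))).eq (by ext x <;> simp; ring)

theorem PP_sub {a b : Fn} (ha : Lim a 0) (hb : Lim b 0) (n : ℕ) :
    ∃ Q, Lim Q 1 ∧ pc (PQ (n + 1)) a - pc (PQ (n + 1)) b = Q * (a - b) := by
  have k : ∀ i : ℕ, ∃ q, Lim q 0 ∧ a ^ (i + 2) - b ^ (i + 2) = q * (a - b) := fun i => by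
    induction i with
    | zero => exact ⟨a + b, (ha.add hb).eq rfl (add_zero _), by ring⟩
    | succ i ih =>
      obtain ⟨q, h1, h2⟩ := ih
      exact ⟨_, ((ha.mul h1).add (hb.pow (i + 2))).eq rfl (by simp), by linear_combination a * h2⟩
  induction n with
  | zero => exact ⟨1, lim_one, by funext x; simp [pc_PQ, PP]⟩
  | succ n ih =>
    obtain ⟨Q, h1, h2⟩ := ih
    obtain ⟨q, h3, h4⟩ := k n
    refine ⟨_, (h1.add ((Lim.const ((n + 1 : ℕ) + 1)⁻¹).mul h3)).eq rfl (by simp), funext fun x => ?_⟩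
    have a1 := congrFun h2 x
    have a2 := congrFun h4 x
    simp only [Pi.sub_apply, Pi.mul_apply, Pi.pow_apply, Pi.add_apply, pc_PQ, PP] at a1 a2 ⊢
    rw [Finset.sum_range_succ, Finset.sum_range_succ _ (n + 1)]
    push_cast
    linear_combination a1 + ((n : ℝ) + 1 + 1)⁻¹ * a2

variable [HasRel N] {w F T : Fn}
include N

theorem log_ap (hw : Fp w) (h : TA w) (hs : (1 - w) =O[Nf] xi) (k : ℕ) :
    LL (zx k • (pc (PQ (2 * k + 1)) (1 - w), lf w)) 0 := by
  have h1 : Tendsto w Nf (𝓝 1) := by simpa using (O_zero hs).const_sub 1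
  have hs' : (1 - w⁻¹) =O[Nf] xi :=
    (hs.neg_left.mul ((h1.inv₀ one_ne_zero).isBigO_one ℝ)).congr' (hw.ne.mono fun x e => by
      simp [sub_mul, e]) (by simp)
  have h2 : ∀ n, TA (w ^ n * pc (PQ n) (1 - w⁻¹)) := fun n => by
    induction n with
    | zero => exact ta_zero.congr (Eventually.of_forall fun x => by simp [pc_PQ, PP])
    | succ n ih =>
      refine ((h.mul ih).add ((ta_cq ((n : ℚ) + 1)⁻¹).mul ((h.sub ta_one).pow (n + 1)))).congr
        (hw.ne.mono fun x e => ?_)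
      simp only [Pi.sub_apply, Pi.mul_apply, Pi.pow_apply, Pi.add_apply, Pi.one_apply,
        Pi.inv_apply, pc_PQ, PP, Finset.sum_range_succ]
      rw [show w x - 1 = w x * (1 - (w x)⁻¹) by field_simp, mul_pow]
      push_cast
      ring
  set n := 2 * k + 1
  have h3 : Tendsto (zx k * (pc (PQ n) (1 - w) + pc (PQ n) (1 - w⁻¹))) Nf (𝓝 0) :=
    O_small (n := n + 1) (by omega) (((O_PP hs n).add (O_PP hs' n)).congr_left fun x => by
      simp [pc_PQ]; ring)
  have h4 : Lim (zx k * (pc (PQ n) (1 - w) + pc (PQ n) (1 - w⁻¹))) 0 :=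
    LL.div0 ((h.pow n).lim (h1.pow n)) (by simp) (LL.eq (TA.lim
      (g := w ^ n * (zx k * (pc (PQ n) (1 - w) + pc (PQ n) (1 - w⁻¹)))) (by
        convert (ta_zx k).mul (((h.pow n).mul ((ta_one.sub h).pc (PQ n))).add (h2 n)) using 1
        ring) ((h1.pow n).mul h3)) (by simp) (by simp))
  refine ⟨?_, ?_⟩
  · have := (((ln_PP hw.inv k).smul (fp_zx k).nn).lo.add h4.1)
    rw [add_zero] at this
    exact this.congr (Eventually.of_forall fun x => by simp [pc_PQ, n]; ring)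
      (Eventually.of_forall fun x => by simp [lf])
  · rw [neg_zero]
    exact ((ln_PP hw k).smul (fp_zx k).nn).lo.congr
      (Eventually.of_forall fun x => by simp [pc_PQ, n]) (by simp)

theorem exp_lo (hF : Fp F) (hT : TA T) (hs : T =O[Nf] xi) {k : ℕ}
    (h : LL (zx k • (-T, lf F)) 0) : Lim F 1 ∧ Lo (zx k * (F - pc (EQ (k + 1)) T), 0) 0 := by
  have h0 := O_zero hs
  have h1 : Lim F 1 := (lim_exp hF (((h.down (m := 0) (by omega)).add (hT.lim h0)).eq (by simp)
    (add_zero _))).eq rfl exp_zero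
  refine ⟨h1, ?_⟩
  set E := pc (EQ (k + 1)) T
  have hE : TA E := hT.pc _
  have s1 : (1 - E) =O[Nf] xi := (O_pc hs (B := 1 - EQ (k + 1)) (by
    simp [EQ, Finset.sum_range_succ', coeff_X_pow])).congr_left fun x => by simp [pc, E]
  have t1 : Tendsto (fun x => exp (-T x)) Nf (𝓝 1) := by simpa using h0.neg.rexp
  have t2 : Tendsto (fun x => E x * exp (-T x)) Nf (𝓝 1) := by
    simpa using ((O_zero s1).const_sub 1).mul t1
  have s2 : (fun x => log (E x) - T x) =O[Nf] (xi ^ (k + 1)) := by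
    have a := ((hasDerivAt_log one_ne_zero).isBigO_sub.comp_tendsto t2)
    have b := (O_EQ hs k).neg_left.mul (t1.isBigO_one ℝ)
    refine (a.trans (b.congr (fun x => ?_) fun x => mul_one _)).congr' ?_ .rfl
    · simp [E, sub_mul, ← exp_add]
    · filter_upwards [t2.eventually_ne one_ne_zero] with x e
      simp [log_mul (left_ne_zero_of_mul e) (exp_pos _).ne', sub_eq_add_neg]
  have h2 : Lim (zx k * (pc (PQ (2 * k + 1)) (1 - E) + T)) 0 :=
    ((ta_zx k).mul (((ta_one.sub hE).pc _).add hT)).lim (by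
      have := (O_small (k := k) (n := 2 * k + 1 + 1) (by omega) (O_PP s1 (2 * k + 1))).sub
        (O_small k.lt_succ_self s2)
      rw [sub_zero] at this
      exact this.congr fun x => by simp [pc_PQ]; ring)
  obtain ⟨Q, q1, q2⟩ := PP_sub ((ta_one.sub hE).lim (O_zero s1))
    ((lim_one.add h1.neg).eq (sub_eq_add_neg _ _).symm (by simp)) (2 * k)
  have := (((ln_PP hF k).smul (fp_zx k).nn).lo.add h.1).add h2.1
  rw [add_zero, add_zero] at this
  refine Lo.div0 q1 one_pos (this.congr (Eventually.of_forall fun x => ?_) (by simp))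
  have := congrFun q2 x
  simp [pc_PQ] at this ⊢
  linear_combination zx k x * this

theorem exp_ap (hF : Fp F) (hT : TA T) (hs : T =O[Nf] xi) {k : ℕ}
    (h : LL (zx k • (-T, lf F)) 0) : Lim (zx k * (F - pc (EQ (k + 1)) T)) 0 := by
  obtain ⟨h1, h2⟩ := exp_lo hF hT hs h
  obtain ⟨-, h3⟩ := exp_lo hF.inv hT.neg hs.neg_left (k := k)
    (h.neg.eq (by ext x <;> simp [lf]) neg_zero)
  refine ⟨h2, ?_⟩
  have h0 := O_zero hs
  have t1 : Tendsto (pc (EQ (k + 1)) T) Nf (𝓝 1) := by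
    simpa using h0.rexp.sub ((O_EQ hs k).trans_tendsto (xi_pow k))
  have t2 : Tendsto (fun x => exp (-T x)) Nf (𝓝 1) := by simpa using h0.neg.rexp
  have h4 : Lim (zx k * (pc (EQ (k + 1)) T * pc (EQ (k + 1)) (-T) - 1)) 0 :=
    ((ta_zx k).mul (((hT.pc _).mul (hT.neg.pc _)).sub ta_one)).lim (O_small k.lt_succ_self (by
      have a := ((O_EQ hs k).mul (t2.isBigO_one ℝ)).add
        ((O_EQ (u := -T) hs.neg_left k).mul (t1.isBigO_one ℝ))
      exact a.neg_left.congr (fun x => by simp [sub_mul, ← exp_add]; ring) fun x => mul_one _))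
  have := (Lo.smul1 ((h1.mul ((hT.pc _).lim t1)).eq rfl (mul_one _)) h3).add (h1.mul h4).1
  rw [mul_zero, add_zero] at this
  rw [neg_zero]
  exact this.congr (hF.ne.mono fun x e => by simp; field_simp; ring) (by simp)

/-! Logarithms of polynomials. -/

omit N

omit [Axs] in
theorem sk_pv (p : ℕ[X]) : Sk (pv p) := by
  induction p using Polynomial.recOnHorner with
  | M0 => convert Sk.zero; funext x; simp [pv]
  | MC p a _ _ ih => convert ih.add (Sk.nat a); funext x; simp [pv]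
  | MX p _ ih => convert ih.mul Sk.xx; funext x; simp [pv]

omit [Axs] in
theorem pv_pos {p : ℕ[X]} (h : p ≠ 0) {x : ℝ} (hx : 0 < x) : 0 < pv p x := by
  rw [pv, aeval_eq_sum_range]
  refine Finset.sum_pos' (fun i _ => by positivity) ⟨p.natDegree, by simp, ?_⟩
  have : 0 < p.coeff p.natDegree := Nat.pos_of_ne_zero (leadingCoeff_ne_zero.2 h)
  positivity

omit [Axs] in
theorem fp_pv {p : ℕ[X]} (h : p ≠ 0) : Fp (pv p) :=
  Fp.of_sk (sk_pv p) (pos_ev.mono fun _ => pv_pos h)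

omit [Axs] in
theorem mp_pc (B : ℚ[X]) : Mp fun _ => pc B xi :=
  pc_ind (P := fun f => Mp fun _ => f) (s := xi) mp_cq (fun _ _ => Mp.add)
    (fun _ a => a.mul (mp_zx (-1))) B

noncomputable def yp (p : ℕ[X]) : Fn := lf (pv p) - p.natDegree * lf xx

/-- Logarithmic functions with rational expansions. -/
def RA (z : Fn) : Prop := ∃ Λ : ℝ[X], (∀ j, ∃ r : ℚ, 0 < r ∧ Λ.coeff j = log r) ∧
  ∀ k : ℕ, ∃ A B : ℚ[X], B.coeff 0 = 0 ∧ LL (zx k • (-(pv A + pc B xi), z - pv Λ)) 0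

section
variable {z z' : Fn}

theorem RA.zero : RA 0 := ⟨0, fun _ => ⟨1, one_pos, by simp⟩, fun k =>
  ⟨0, 0, rfl, ll_zero.eq (by ext x <;> simp [pv, pc]) rfl⟩⟩

theorem RA.add (h : RA z) (h' : RA z') : RA (z + z') := by
  obtain ⟨Λ, a1, a2⟩ := h
  obtain ⟨Λ', b1, b2⟩ := h'
  refine ⟨Λ + Λ', fun j => ?_, fun k => ?_⟩
  · obtain ⟨r, c1, c2⟩ := a1 j
    obtain ⟨r', c3, c4⟩ := b1 j
    exact ⟨r * r', by positivity, by
      rw [coeff_add, c2, c4, Rat.cast_mul, log_mul (by positivity) (by positivity)]⟩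
  · obtain ⟨A, B, c1, c2⟩ := a2 k
    obtain ⟨A', B', c3, c4⟩ := b2 k
    exact ⟨A + A', B + B', by simp [c1, c3], (c2.add c4).eq
      (by ext x <;> simp [pv, pc] <;> ring) (add_zero _)⟩

theorem RA.neg (h : RA z) : RA (-z) := by
  obtain ⟨Λ, a1, a2⟩ := h
  refine ⟨-Λ, fun j => ?_, fun k => ?_⟩
  · obtain ⟨r, c1, c2⟩ := a1 j
    exact ⟨r⁻¹, by positivity, by simp [c2]⟩
  · obtain ⟨A, B, c1, c2⟩ := a2 k
    exact ⟨-A, -B, by simp [c1], c2.neg.eq (by ext x <;> simp [pv, pc] <;> ring) neg_zero⟩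

theorem RA.mulx (h : RA z) : RA (xx * z) := by
  obtain ⟨Λ, a1, a2⟩ := h
  refine ⟨X * Λ, fun j => ?_, fun k => ?_⟩
  · rcases j with _ | j
    · exact ⟨1, one_pos, by simp⟩
    · simpa using a1 j
  · obtain ⟨A, B, c1, c2⟩ := a2 (k + 1)
    obtain ⟨B, rfl⟩ := X_dvd_iff.2 c1
    refine ⟨X * A + C (B.coeff 0), B - C (B.coeff 0), by simp, c2.congr ?_ ?_⟩ <;>
    · filter_upwards [pos_ev] with x e
      have h1 : zx 1 x = x := by simpa using zx_nat' 1 e
      have : x * xi x = 1 := by simpa [h1] using congrFun (zx_xi 1) x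
      simp [pv, pc, zx_add, zx_nat' _ e, h1]
      first | ring1 | linear_combination (-x ^ k * aeval (xi x) B) * this

theorem RA.mul (h : RA z) (P : ℕ[X]) : RA (pv P * z) := by
  induction P using Polynomial.recOnHorner with
  | M0 => convert RA.zero; funext x; simp [pv]
  | MC p a h1 h2 ih =>
    clear h1 h2
    induction a with
    | zero => simpa using ih
    | succ a ih => convert ih.add h; funext x; simp [pv]; ring
  | MX p _ ih => convert ih.mulx using 1; funext x; simp [pv]; ring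

end

include N

theorem yp_ap {p : ℕ[X]} (h : p ≠ 0) (k : ℕ) : ∃ B : ℚ[X], B.coeff 0 = 0 ∧
    LL (zx k • (-pc B xi, yp p - fun _ => log p.leadingCoeff)) 0 := by
  have hc : 0 < p.leadingCoeff := Nat.pos_of_ne_zero (leadingCoeff_ne_zero.2 h)
  set B : ℚ[X] := 1 - C (p.leadingCoeff : ℚ)⁻¹ * p.reverse.map (algebraMap ℕ ℚ) with hB
  have h0 : B.coeff 0 = 0 := by simp [hB, hc.ne']
  have e : 1 - pc B xi =ᶠ[Nf] pv p / ((p.leadingCoeff : Fn) * xx ^ p.natDegree) :=
    pos_ev.mono fun x e => by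
    have := invertibleOfNonzero e.ne'
    have h1 := eval₂_reverse_mul_pow (algebraMap ℕ ℝ) x p
    have h2 : xi x = ⅟x := by simp [xi, zx, exp_neg, exp_log e]
    simp only [pc, pv, hB, map_sub, map_one, map_mul, aeval_map_algebraMap, aeval_C, h2,
      Pi.sub_apply, Pi.div_apply, Pi.mul_apply, Pi.pow_apply, Pi.one_apply, Pi.natCast_apply]
    rw [aeval_def x, ← h1, aeval_def]
    simp
    field_simp
  have := log_ap (((fp_pv h).div ((Fp.nat hc).mul (Fp.xx.pow _))).congr e.symm)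
    (ta_one.sub ((ta_zx (-1) : TA xi).pc B)) (by simpa using O_pc (isBigO_refl xi _) h0) k
  refine ⟨-(PQ (2 * k + 1)).comp B, ?_, this.congr (Eventually.of_forall fun x => by
    simp [pc, aeval_comp]) ?_⟩
  · rw [coeff_zero_eq_eval_zero] at h0 ⊢
    simp [h0, PQ, eval_finsetSum]
  · filter_upwards [e, pos_ev] with x e1 e2
    have : (p.leadingCoeff : ℝ) ≠ 0 := by positivity
    simp only [Prod.smul_snd, smul_eq_mul, Pi.mul_apply, lf, e1]
    simp [yp, lf, log_div (pv_pos h e2).ne' (mul_ne_zero this (pow_ne_zero _ e2.ne')),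
      log_mul this (pow_ne_zero _ e2.ne'), sub_sub, add_comm]

theorem ra_yp {p : ℕ[X]} (h : p ≠ 0) : RA (yp p) := by
  have hc : 0 < p.leadingCoeff := Nat.pos_of_ne_zero (leadingCoeff_ne_zero.2 h)
  refine ⟨C (log p.leadingCoeff), fun j => ?_, fun k => ?_⟩
  · rcases j with _ | j
    · exact ⟨p.leadingCoeff, by positivity, by simp⟩
    · exact ⟨1, one_pos, by simp⟩
  · obtain ⟨B, h1, h2⟩ := yp_ap h k
    exact ⟨0, B, h1, h2.eq (by ext x <;> simp [pv]) rfl⟩

omit [HasRel N] in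
theorem apl_log {c : ℕ} (h : c ∈ N.smoothNumbers) : ApL N (0, fun _ => log c) := by
  suffices Mo N fun _ => (0, fun _ => log c) from fun k =>
    ⟨_, this, Eventually.of_forall fun _ => ll_zero.eq (by simp) rfl⟩
  induction c using induction_on_primes with
  | zero => exact absurd rfl h.1
  | one => convert Mo.zero using 1; funext M; simp; rfl
  | prime_mul q c hq ih =>
    have h1 : q < N := (Nat.mem_smoothNumbers'.1 h) q hq (dvd_mul_right _ _)
    have h2 := Nat.mem_smoothNumbers_of_dvd h (dvd_mul_left c q)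
    have h3 := hq.pos
    convert (Mo.gen 0 ((0, Pi.single ⟨q - 1, by omega⟩ 1) : FF N)).add (ih h2) using 1
    funext M
    have : (q : ℝ) ≠ 0 := by positivity
    have : (c : ℝ) ≠ 0 := by exact_mod_cast h2.1
    ext x <;> simp [evF, Pi.single_apply, lf, log_mul, *]

theorem tl_yp {p : ℕ[X]} (h : p.leadingCoeff ∈ N.smoothNumbers) : TL N (0, yp p) := by
  have h0 : p ≠ 0 := leadingCoeff_ne_zero.1 h.1
  refine ⟨((apl_log h).add (ν := (0, yp p - fun _ => log p.leadingCoeff)) fun k => ?_).congr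
    (by simp) (by simp), yp p, ?_, by simp⟩
  · obtain ⟨B, -, h2⟩ := yp_ap h0 k
    exact ⟨_, (mp_pc B).mo, Eventually.of_forall fun _ => h2.eq (by simp) rfl⟩
  · exact (((Tm.poly sc_log p).log sc_log fun x => pv_pos h0).add
      ((Tm.const (-p.natDegree)).mul sc_log (Tm.id.log sc_log fun _ e => e))).congr fun x _ => by
      simp [yp, lf, pv, sub_eq_add_neg]

theorem RA.ap {z : Fn} (h : RA z) (hF : Fp F) (e : lf F =ᶠ[Nf] z) (hb : z =O[Nf] (1 : Fn)) :
    Ap F := fun k => by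
  obtain ⟨Λ, a1, a2⟩ := h
  obtain ⟨A, B, b1, b2⟩ := a2 k
  have hT := O_pc (isBigO_refl xi Nf) b1
  have h1 : (Λ + A.map (algebraMap ℚ ℝ)).degree ≤ 0 := by
    by_contra c
    refine not_isBoundedUnder_of_tendsto_atTop ((abs_tendsto_atTop _ (not_le.1 c)).mono_left Nf_le)
      (IsBigO.isBoundedUnder_le (c := (1 : ℝ))
        (f := fun x => eval x (Λ + A.map (algebraMap ℚ ℝ))) ?_)
    refine ((hb.sub ((b2.down (m := 0) (by omega)).sound.isBigO_one ℝ)).sub
      ((O_zero hT).isBigO_one ℝ)).congr_left fun x => ?_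
    simp [pv, eval_map_algebraMap]
    ring
  obtain ⟨r, c1, c2⟩ := a1 0
  have h2 : ∀ j, Λ.coeff (j + 1) = 0 ∧ A.coeff (j + 1) = 0 := fun j => by
    obtain ⟨r, c1, c2⟩ := a1 (j + 1)
    have := (degree_le_iff_coeff_zero _ _).1 h1 (j + 1) (by exact_mod_cast j.succ_pos)
    rw [coeff_add, coeff_map, eq_ratCast] at this
    have k : -A.coeff (j + 1) = 0 := exp_rat (r := r) (by
      rw [Rat.cast_neg, ← eq_neg_of_add_eq_zero_left this, c2, exp_log (by positivity)])
    rw [neg_eq_zero] at k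
    exact ⟨by simpa [k] using this, k⟩
  obtain rfl : Λ = C (log r) := by ext (_ | j) <;> simp [c2, h2]
  obtain ⟨ρ, rfl⟩ : ∃ ρ, A = C ρ := ⟨A.coeff 0, by ext (_ | j) <;> simp [h2]⟩
  refine ⟨_, (Mp.gen 0 (.single ρ r)).mul (mp_pc ((EQ (k + 1)).comp B)), ?_⟩
  filter_upwards [fp_ex ρ, lim_ex ρ, eventually_gt_atTop k] with M d1 d2 d3
  have d4 : LL (zx k • (1, -lam M)) 0 := by
    refine (LL.small (y := zx (k - M)) (μ := zx M • (1, -lam M)) (lim_zx (by omega)) (fp_zx _).nn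
      (LN.add nn_one ((lam_hi M).smul (fp_zx _).nn)) (((lam_lo M).smul (fp_zx M).nn).congr ?_
      (by simp))).eq (by rw [smul_smul, ← zx_add, sub_add_cancel]) rfl
    filter_upwards [pos_ev] with x a
    simp [zx_nat' _ a, mul_sub, a.ne']
  have d5 := (Fp.cq c1).mul d1
  have d6 := exp_ap (T := pc B xi) (hF.div d5) ((ta_zx (-1) : TA xi).pc B) hT (k := k)
    ((b2.add ((Lim.const ρ).smul d4)).congr (Eventually.of_forall fun x => by simp [pv]; ring) (by
      filter_upwards [e, hF.pos] with x a b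
      have : (r : ℝ) ≠ 0 := by positivity
      simp [pv, lf, ex, log_div b.ne' (mul_ne_zero this (exp_pos _).ne'),
        log_mul this (exp_pos _).ne', ← a]
      ring) |>.eq rfl (by simp))
  refine (((Lim.const r).mul d2).mul d6).congr (d5.ne.mono fun x a => ?_) |>.eq rfl (mul_zero _)
  have a1 := left_ne_zero_of_mul a
  have a2 := right_ne_zero_of_mul a
  simp [evM_single, pc, aeval_comp]
  field_simp

end Pool.Agent.MP_b50963_lc.PB
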