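import Pool.Agent.MP_b50963_lc.PB5

/-!
Comparison of monomials: the quotient of two monomials has a provable expansion, or is provably
larger than all powers of `x`, or its inverse is.
-/

set_option autoImplicit false

namespace Pool.Agent.MP_b50963_lc.PB

open Set Filter Topology Real Polynomial Asymptotics

theorem tm_cont {f : Fn} (h : Tm log f) : ContinuousOn f (Ioi 0) := by
  obtain ⟨n, G, h, e⟩ := h
  have h0 : MQ log V0 := by
    rintro a _ ⟨c, rfl⟩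
    exact (Tm.const c).md sc_log
  obtain ⟨V, Δ, a1, -, -, a4⟩ := h 1 _ _ (ch_V0.ext dat_V0)
    ⟨h0.ext sc_log ch_V0 dat_V0 (Md.id sc_log) (Md.const 1) (Md.const 1⁻¹), self_ext ch_V0 _⟩
  exact (a1.an a4).continuousOn.congr fun x hx => e x hx

theorem tm_lt {f : Fn} (h : Tm log f) {C : ℝ} (e : ∀ᶠ x in Nf, f x < C) :
    ∀ᶠ x in atTop, f x < C := by
  rcases ((h.add (Tm.const (-C))).md sc_log).2 with k | k
  · obtain ⟨x, a, b⟩ := (e.and (Nf_le k)).exists
    simp at b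
    linarith
  · obtain ⟨x₀, k⟩ := eventually_atTop.1 (k.1.and (eventually_gt_atTop 0))
    exact (eventually_ge_atTop x₀).mono fun x hx => isPreconnected_Ici.gt_of_ne
      ((tm_cont h).mono fun y hy => (k y hy).2) (fun y hy c => (k y hy).1 (by simp [c]))
      ((e.and (Nf_le (eventually_ge_atTop x₀))).exists.imp fun _ => And.symm) hx

theorem tm_exp {f : Fn} (h : Tm log f) (e : f =O[Nf] (1 : Fn)) : Tm log fun x => exp (f x) := by
  obtain ⟨C, hC⟩ := e.bound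
  refine h.exp sc_log (IsBigO.of_bound 1 ?_)
  filter_upwards [tm_lt h (C := C + 1) (hC.mono fun x a => by
      simp at a; linarith [le_abs_self (f x)]),
    tm_lt ((Tm.const (-1)).mul sc_log h) (C := C + 1) (hC.mono fun x a => by
      simp at a ⊢; linarith [neg_le_abs (f x)]),
    tendsto_log_atTop.eventually_ge_atTop (C + 1)] with x a b c
  simp at b ⊢
  exact (abs_le.2 ⟨by linarith, by linarith⟩).trans (le_abs_self _)

theorem deg_of_O {Q : ℤ[X]} (h : pv Q =O[Nf] (1 : Fn)) : ∃ c : ℤ, Q = C c := by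
  refine ⟨_, eq_C_of_degree_le_zero ?_⟩
  rw [← degree_map_eq_of_injective (RingHom.injective_int (algebraMap ℤ ℝ))]
  by_contra c
  exact not_isBoundedUnder_of_tendsto_atTop ((abs_tendsto_atTop _ (not_le.1 c)).mono_left Nf_le)
    (IsBigO.isBoundedUnder_le (c := (1 : ℝ)) (f := fun x => eval x (Q.map (algebraMap ℤ ℝ)))
      (h.congr_left fun x => (eval_map_algebraMap Q x).symm))

/-- Finite sums. -/
def FS (P : Fn → Prop) (f : Fn) : Prop :=
  ∃ (ι : Type) (s : Finset ι) (g : ι → Fn), (∀ i ∈ s, P (g i)) ∧ f =ᶠ[Nf] ∑ i ∈ s, g i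

section
variable {P T : Fn → Prop} {f g : Fn}

theorem FS.congr (h : FS P f) (e : f =ᶠ[Nf] g) : FS P g := by
  obtain ⟨ι, s, u, h1, h2⟩ := h
  exact ⟨ι, s, u, h1, e.symm.trans h2⟩

theorem FS.zero : FS P 0 := ⟨Unit, ∅, 0, by simp, by simp⟩
theorem FS.of (h : P f) : FS P f := ⟨Unit, {()}, fun _ => f, by simp [h], by simp⟩

theorem FS.add (h : FS P f) (h' : FS P g) : FS P (f + g) := by
  obtain ⟨ι, s, u, h1, h2⟩ := h
  obtain ⟨κ, t, v, k1, k2⟩ := h'
  refine ⟨ι ⊕ κ, s.disjSum t, Sum.elim u v, ?_, by simpa using h2.add k2⟩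
  rintro (i | i) m
  · exact h1 i (by simpa using m)
  · exact k1 i (by simpa using m)

theorem FS.ind (h : FS P f) (hc : ∀ f g, T f → f =ᶠ[Nf] g → T g) (h0 : T 0)
    (ha : ∀ f g, T f → T g → T (f + g)) (hb : ∀ f, P f → T f) : T f := by
  obtain ⟨ι, s, u, h1, h2⟩ := h
  exact hc _ _ (Finset.sum_induction u T ha h0 fun i m => hb _ (h1 i m)) h2.symm

theorem FS.map (h : FS P f) (u : Fn) (hb : ∀ f, P f → FS T (f * u)) : FS T (f * u) :=
  h.ind (T := fun f => FS T (f * u)) (fun _ _ a e => a.congr (e.mul .rfl))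
    (by simpa using FS.zero) (fun _ _ a b => by rw [add_mul]; exact a.add b) hb

theorem FS.mono (h : FS P f) (hb : ∀ f, P f → T f) : FS T f := by
  simpa using h.map 1 fun f a => FS.of (by simpa using hb f a)

theorem FS.mul (h : FS P f) (h' : FS P g) (hb : ∀ f g, P f → P g → P (f * g)) : FS P (f * g) :=
  h.map g fun u a => mul_comm g u ▸ h'.map u fun v b => FS.of (hb v u b a)

end

theorem exists_top {ι : Type} {r : ι → ι → Prop} {s : Finset ι} (hs : s.Nonempty)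
    (tot : ∀ i ∈ s, ∀ j ∈ s, r i j ∨ r j i) (tr : ∀ i ∈ s, ∀ j ∈ s, ∀ k ∈ s, r i j → r j k → r i k) :
    ∃ i ∈ s, ∀ j ∈ s, r i j := by
  induction hs using Finset.Nonempty.cons_induction with
  | singleton a => exact ⟨a, by simp, by simpa using tot⟩
  | cons a s _ _ ih =>
    obtain ⟨i, h1, h2⟩ := ih (fun i m j m' => tot i (by simp [m]) j (by simp [m']))
      fun i m j m' k m'' => tr i (by simp [m]) j (by simp [m']) k (by simp [m''])
    rcases tot i (by simp [h1]) a (by simp) with k | k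
    · exact ⟨i, by simp [h1], by simpa [k] using h2⟩
    · refine ⟨a, by simp, fun j m => ?_⟩
      rcases Finset.mem_cons.1 m with rfl | m
      · simpa using tot j (by simp) j (by simp)
      · exact tr a (by simp) i (by simp [h1]) j (by simp [m]) k (h2 j m)

variable {N : ℕ} [Axs]

def Good (U : Fn) : Prop := Fp U ∧ TA U ∧ TA U⁻¹
def Big (m : Fn) : Prop := Fp m ∧ ∀ k : ℕ, NN (m - xx ^ k)
def Dom (Z : Fn) : Prop := ∃ δ : ℚ, 0 < δ ∧ LN (-(cq δ * xx), Z)

section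
variable {U V m m' w Z Z' G Y y : Fn} {μ : P2} {θ θ' : ℝ}

theorem Good.inv (h : Good U) : Good U⁻¹ := ⟨h.1.inv, h.2.2, by simpa using h.2.1⟩
theorem Good.congr (h : Good U) (e : U =ᶠ[Nf] V) : Good V :=
  ⟨h.1.congr e, h.2.1.congr e, h.2.2.congr e.inv⟩
theorem good_zx (n : ℤ) : Good (zx n) := ⟨fp_zx n, ta_zx n, zx_neg n ▸ ta_zx (-n)⟩
theorem Big.congr (h : Big m) (e : m =ᶠ[Nf] m') : Big m' :=
  ⟨h.1.congr e, fun k => (h.2 k).congr (e.sub .rfl)⟩
theorem Big.mul (h : Big m) (h' : Big m') : Big (m * m') :=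
  ⟨h.1.mul h'.1, fun k => (((h.2 k).mul h'.1.nn).add ((nn_xx.pow k).mul (h'.2 0))).eq (by ring)⟩
theorem Dom.congr (h : Dom Z) (e : Z =ᶠ[Nf] Z') : Dom Z' :=
  h.imp fun _ a => ⟨a.1, a.2.congr .rfl e⟩
theorem Dom.add (h : Dom Z) (h' : LN (0, Z')) : Dom (Z + Z') :=
  h.imp fun _ a => ⟨a.1, (a.2.add h').eq (by simp)⟩

theorem Lo.mono (h : Lo μ θ) (e : θ' ≤ θ) : Lo μ θ' := fun r hr => h r (hr.trans_le e)

theorem dom_of (h : Lo (0, Z) θ) (h0 : 0 < θ) (hy : NN (y - xx)) : Dom (y * Z) := by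
  obtain ⟨r, h1, h2⟩ := exists_rat_btwn h0
  have h3 : 0 < r := by exact_mod_cast h1
  exact ⟨r, h3, (((h r h2).smul ((hy.add nn_xx).eq (sub_add_cancel _ _))).add
    ((nn_cq h3.le).mul hy)).eq (by ext x <;> simp; ring)⟩

theorem lo_log (c : ℝ) : Lo (0, lf xx) c := by
  obtain ⟨n, hn⟩ := exists_nat_ge (exp c)
  have h0 : (0 : ℝ) < n := (exp_pos c).trans_le hn
  have h1 : (0 : ℚ) < n := by exact_mod_cast h0
  have h2 := Fp.cq h1
  have := (log_of_nn (Fp.xx.div h2) (((nn_x_sub n).mul h2.inv.nn).eq (by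
    funext x; simp; field_simp))).lo.add (ll_rat h1).1
  exact (this.congr (by simp) (pos_ev.mono fun x e => by simp [lf, log_div e.ne' h0.ne'])).mono
    (by simpa using (le_log_iff_exp_le h0).2 hn)

theorem ll_xlog : LL (zx (-1) • (0, lf xx)) 0 := by
  have h := lim_zx (n := -1) (by omega)
  refine ⟨((log_of_nn Fp.xx nn_x1).smul (fp_zx _).nn).lo, fun r hr => ?_⟩
  have h0 : 0 < -r / 2 := by
    have : r < 0 := by exact_mod_cast (by simpa using hr : (r : ℝ) < 0)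
    linarith
  have h1 : (r : ℝ) ≠ 0 := by simpa using hr.ne
  refine (((ln_log ((Fp.cq h0).mul Fp.xx)).smul (fp_zx (-1)).nn).add
    ((h.smul (LL.add lim_one (ll_rat h0))).1 (r / 2) (by push_cast; linarith))).congr ?_ ?_ <;>
  filter_upwards [pos_ev] with x e
  · have : zx (-1) x * x = 1 := by simp [zx, exp_neg, exp_log e, e.ne']
    simp
    linear_combination (-r / 2 : ℝ) * this
  · simp [lf, log_mul (show -(r : ℝ) / 2 ≠ 0 by simpa using h1) e.ne']
    ring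

theorem Dom.big (h : Dom Z) (hw : Fp w) (e : lf w =ᶠ[Nf] Z) : Big w := by
  obtain ⟨δ, h1, h2⟩ := h
  refine ⟨hw, fun k => ?_⟩
  have := h2.add ((((Lim.const k).smul ll_xlog).hi δ (by simpa using h1)).smul nn_xx)
  refine ((nn_of_log (hw.div (Fp.xx.pow k)) (this.congr (by simp [mul_comm]) ?_)).mul
    (nn_xx.pow k)).congr (pos_ev.mono fun x a => by simp [sub_mul, a.ne'])
  filter_upwards [e, pos_ev, hw.ne] with x a b c
  have : zx (-1) x * x = 1 := by simp [zx, exp_neg, exp_log b, b.ne']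
  simp [lf, log_div c (pow_ne_zero k b.ne')] at a ⊢
  linear_combination -a - k * log x * this

theorem LL.up {m n : ℤ} (h : LL (zx (-m) • μ) θ) (e : m ≤ n) : ∃ θ', LL (zx (-n) • μ) θ' := by
  rcases e.eq_or_lt with rfl | e
  · exact ⟨_, h⟩
  · exact ⟨_, ((lim_zx (n := m - n) (by omega)).smul h).eq
      (by rw [smul_smul, ← zx_add]; congr 2; ring) rfl⟩

theorem LL.isBigO {n : ℤ} (h : LL (zx (-n) • μ) θ) : (μ.1 + μ.2) =O[Nf] zx n :=
  ((isBigO_refl (zx n) Nf).mul (h.sound.isBigO_one ℝ)).congr (fun x => by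
    have := congrFun (zx_mul_neg n) x
    simp at this ⊢
    linear_combination (μ.1 x + μ.2 x) * this) fun x => mul_one _

theorem key1 {g : Fn} (h : Lim g θ) (h0 : 0 < θ) (h' : LL (0, y) θ') : Lo (0, g * lf xx + y) 1 := by
  obtain ⟨δ, h1, h2⟩ := exists_rat_btwn h0
  obtain ⟨c, hc⟩ := exists_nat_ge ((1 - θ') / δ)
  have a := h.lo δ h2
  have := (((lo_log (c + 1) c (by simp)).smul (a.add (nn_cq (q := δ) (by
    exact_mod_cast h1.le)))).add (a.mul (sk_nn (Sk.nat c)))).lo.add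
    ((Lo.const (c * δ)).add h'.1)
  rw [div_le_iff₀ h1] at hc
  exact (this.congr (Eventually.of_forall fun x => by simp; ring) (by simp)).mono
    (by push_cast; linarith)

theorem key2 {m n : ℤ} (h : LL (zx (-m) • (G, 0)) θ) (e : m < n) (h' : LL (zx (-n) • (0, Y)) θ') :
    LL (zx (-n) • (0, G * lf xx + Y)) θ' := by
  obtain ⟨γ, h⟩ := h.up (n := n - 1) (by omega)
  refine ((Lim.smul (y := zx (-(n - 1)) * G) (h.eq (by simp) rfl) ll_xlog).add h').eq ?_ (by simp)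
  have : zx (-n) = zx (-(n - 1)) * zx (-1) := by rw [← zx_add]; congr 1; ring
  rw [this]
  ext x <;> simp
  ring

variable [HasRel N]

theorem key (h : TA G) (h' : TL N (0, Y)) : (G =ᶠ[Nf] 0 ∧ Y =ᶠ[Nf] 0) ∨ ∃ n : ℤ, ∃ δ > 0,
    (Lo (0, zx (-n) * (G * lf xx + Y)) δ ∨ Lo (0, zx (-n) * -(G * lf xx + Y)) δ) ∧
    G =O[Nf] zx n ∧ Y =O[Nf] zx n := by
  have k1 : ∀ (n : ℤ) (γ η : ℝ), γ ≠ 0 → LL (zx (-n) • (G, 0)) γ → LL (zx (-n) • (0, Y)) η →
      ∃ n : ℤ, ∃ δ > 0, (Lo (0, zx (-n) * (G * lf xx + Y)) δ ∨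
        Lo (0, zx (-n) * -(G * lf xx + Y)) δ) ∧ G =O[Nf] zx n ∧ Y =O[Nf] zx n := by
    intro n γ η a b c
    refine ⟨n, 1, one_pos, ?_, by simpa using b.isBigO, by simpa using c.isBigO⟩
    rcases a.lt_or_gt with a | a
    · exact Or.inr ((key1 (g := -(zx (-n) * G)) (y := -(zx (-n) * Y)) (b.neg.eq (by simp) rfl)
        (neg_pos.2 a) (c.neg.eq (by simp) rfl)).congr .rfl (Eventually.of_forall fun x => by
        simp; ring))
    · exact Or.inl ((key1 (g := zx (-n) * G) (y := zx (-n) * Y) (b.eq (by simp) rfl) a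
        (c.eq (by simp) rfl)).congr .rfl (Eventually.of_forall fun x => by simp; ring))
  have k2 : ∀ (m n : ℤ) (γ η : ℝ), η ≠ 0 → m < n → LL (zx (-m) • (G, 0)) γ →
      LL (zx (-n) • (0, Y)) η → ∃ n : ℤ, ∃ δ > 0, (Lo (0, zx (-n) * (G * lf xx + Y)) δ ∨
        Lo (0, zx (-n) * -(G * lf xx + Y)) δ) ∧ G =O[Nf] zx n ∧ Y =O[Nf] zx n := by
    intro m n γ η a e b c
    have d := key2 b e c
    refine ⟨n, |η|, abs_pos.2 a, ?_, by simpa using (b.up e.le).choose_spec.isBigO,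
      by simpa using c.isBigO⟩
    rcases a.lt_or_gt with a | a
    · exact Or.inr (abs_of_neg a ▸ d.2.congr (by simp) (by simp [-neg_add_rev]))
    · exact Or.inl ((abs_of_pos a).symm ▸ d.1.congr (by simp) (by simp))
  have z1 : G =ᶠ[Nf] 0 → ∀ n, LL (zx n • (G, 0)) 0 := fun e n =>
    ll_zero.congr (e.mono fun x a => by simp [a]) (by simp)
  have z2 : Y =ᶠ[Nf] 0 → ∀ n, LL (zx n • (0, Y)) 0 := fun e n =>
    ll_zero.congr (by simp) (e.mono fun x a => by simp [a])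
  rcases (h.tl (N := N)).lead with a | ⟨m, γ, a1, a2⟩ <;> rcases h'.lead with b | ⟨n, η, b1, b2⟩
  · exact Or.inl ⟨by simpa using a, by simpa using b⟩
  · exact Or.inr (k2 (n - 1) n _ _ b1 (by omega) (z1 (by simpa using a) _) b2)
  · exact Or.inr (k1 m _ _ a1 a2 (z2 (by simpa using b) _))
  · rcases lt_or_ge m n with e | e
    · exact Or.inr (k2 m n _ _ b1 e a2 b2)
    · exact Or.inr (k1 m _ _ a1 a2 (b2.up e).choose_spec)

include N

theorem Good.mul (h : Good U) (h' : Good V) : Good (U * V) :=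
  ⟨h.1.mul h'.1, h.2.1.mul h'.2.1, mul_inv U V ▸ h.2.2.mul h'.2.2⟩

theorem Good.big (h : Good U) (h' : Big m) : Big (U * m) := by
  obtain ⟨K, h1⟩ := (h.2.2.1.apl (N := N)).bound
  refine ⟨h.1.mul h'.1, fun k => ((h.1.nn.mul (h'.2 (k + K))).add (((Lim.hi (y := zx (-K) * U⁻¹)
    (h1.eq (by simp) rfl) 1 (by simp)).mul h.1.nn).mul (nn_xx.pow (k + K)))).congr ?_⟩
  filter_upwards [pos_ev, h.1.ne] with x a b
  simp [zx_neg, zx_nat' _ a]
  field_simp
  ring

theorem Big.lim (h : Big m) (n : ℤ) : Lim (zx n * m⁻¹) 0 := by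
  have := (good_zx (-n)).big h
  exact (lim_inv this.1 fun k => ((this.2 1).add (nn_x_sub k)).eq (by ring)).eq
    (by rw [mul_inv, zx_neg, inv_inv]) rfl

theorem TA.tot (h : TA G) : NN G ∨ NN (-G) := by
  rcases (h.tl (N := N)).lead with k | ⟨n, γ, k1, k2⟩
  · exact Or.inl (nn_zero.congr (by simpa using k.symm))
  · exact k1.lt_or_gt.symm.imp (fun a => (k2.1.ln a).cancel (fp_zx _)) fun a =>
      LN.cancel ((k2.2.ln (neg_pos.2 a)).eq (by simp)) (fp_zx (-n))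

end

/-- Logarithmic functions of polynomial level. -/
def PX (N : ℕ) (z : Fn) : Prop :=
  ∃ (Q : ℤ[X]) (Y : Fn), RA Y ∧ TL N (0, Y) ∧ z =ᶠ[Nf] pv Q * lf xx + Y

section
variable {z z' w : Fn}

theorem PX.congr (h : PX N z) (e : z =ᶠ[Nf] z') : PX N z' := by
  obtain ⟨Q, Y, h1, h2, h3⟩ := h
  exact ⟨Q, Y, h1, h2, e.symm.trans h3⟩

theorem PX.zero : PX N 0 :=
  ⟨0, 0, RA.zero, ta_zero.tl, Eventually.of_forall fun x => by simp [pv]⟩

theorem PX.add (h : PX N z) (h' : PX N z') : PX N (z + z') := by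
  obtain ⟨Q, Y, h1, h2, h3⟩ := h
  obtain ⟨Q', Y', k1, k2, k3⟩ := h'
  exact ⟨Q + Q', Y + Y', h1.add k1, (h2.add k2).congr (by simp) .rfl,
    (h3.add k3).trans (Eventually.of_forall fun x => by simp [pv]; ring)⟩

variable [HasRel N]

include N in
theorem ta_pv (Q : ℤ[X]) : TA (pv Q) :=
  (ta_xx.pc (Q.map (algebraMap ℤ ℚ))).congr (Eventually.of_forall fun x =>
    aeval_map_algebraMap ℚ x Q)

theorem TL.neg {Y : Fn} (h : TL N (0, Y)) : TL N (0, -Y) :=
  ((ta_cq (-1)).smul h).congr (by simp) (Eventually.of_forall fun x => by simp)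

theorem PX.neg (h : PX N z) : PX N (-z) := by
  obtain ⟨Q, Y, h1, h2, h3⟩ := h
  exact ⟨-Q, -Y, h1.neg, h2.neg, h3.neg.trans (Eventually.of_forall fun x => by simp [pv]; ring)⟩

theorem PX.mul (h : PX N z) (P : ℕ[X]) : PX N (pv P * z) := by
  obtain ⟨Q, Y, h1, h2, h3⟩ := h
  have e : pv (P.map (algebraMap ℕ ℤ)) = pv P := funext fun x => aeval_map_algebraMap ℤ x P
  refine ⟨P.map (algebraMap ℕ ℤ) * Q, _, h1.mul P, ((e ▸ ta_pv _).smul h2).congr (by simp) .rfl,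
    h3.mono fun x a => ?_⟩
  have := congrFun e x
  simp only [pv, Pi.mul_apply, Pi.add_apply, map_mul] at a this ⊢
  rw [a, this]
  ring

theorem px_log {p : ℕ[X]} (h : p.leadingCoeff ∈ N.smoothNumbers) : PX N (lf (pv p)) :=
  ⟨p.natDegree, yp p, ra_yp (leadingCoeff_ne_zero.1 h.1), tl_yp h,
    Eventually.of_forall fun x => by simp [pv, yp]⟩

theorem PX.bound (h : PX N z) : ∃ K : ℤ, LL (zx (-K) • (0, z)) 0 := by
  obtain ⟨Q, Y, -, h2, h3⟩ := h
  obtain ⟨K, a⟩ := ((ta_pv Q).1.apl (N := N)).bound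
  obtain ⟨K', b⟩ := h2.1.bound
  exact ⟨K + K' + 1, (key2 a (by omega) (b.down (by omega))).congr .rfl (.mul .rfl h3.symm)⟩

theorem ta_of {Y : Fn} {c : ℤ} (hw : Fp w) (h1 : RA Y) (h2 : TL N (0, Y)) (h3 : Y =O[Nf] (1 : Fn))
    (e : lf w =ᶠ[Nf] c * lf xx + Y) : TA w := by
  obtain ⟨f, a, b⟩ := h2.2
  have e' : lf (w / zx c) =ᶠ[Nf] Y := by
    filter_upwards [e, hw.ne] with x k1 k2
    simp [lf, zx, log_div k2 (exp_pos _).ne'] at k1 ⊢
    linarith
  have hF := hw.div (fp_zx c)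
  rw [zero_add] at b
  refine ((ta_zx c).mul ⟨h1.ap hF e' h3, _, tm_exp a (h3.congr' b.symm .rfl), ?_⟩).congr
    (Eventually.of_forall fun x => mul_div_cancel₀ _ (zx_pos c x).ne')
  filter_upwards [b, e', hF.pos] with x k1 k2 k3
  rw [k1, ← k2, lf, exp_log k3]

theorem PX.tri (h : PX N z) (hw : Fp w) (e : lf w =ᶠ[Nf] z) : Good w ∨ Dom z ∨ Dom (-z) := by
  obtain ⟨Q, Y, h1, h2, h3⟩ := h
  have k : pv Q =O[Nf] (1 : Fn) → Y =O[Nf] (1 : Fn) → Good w := fun a b => by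
    obtain ⟨c, rfl⟩ := deg_of_O a
    exact ⟨hw, ta_of (c := c) hw h1 h2 b ((e.trans h3).mono fun x k => by simpa [pv] using k),
      ta_of (c := -c) hw.inv h1.neg h2.neg b.neg_left ((e.trans h3).mono fun x k => by
        simp [lf, pv] at k ⊢; linarith)⟩
  rcases key (ta_pv Q) h2 with ⟨a, b⟩ | ⟨n, δ, a, b, c, d⟩
  · exact Or.inl (k (a.trans_isBigO (isBigO_zero _ _)) (b.trans_isBigO (isBigO_zero _ _)))
  rcases le_or_gt n 0 with m | m
  · have : zx n =O[Nf] (1 : Fn) := IsBigO.of_bound' (((eventually_ge_atTop 1).filter_mono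
      Nf_le).mono fun x hx => by
      simpa [zx] using mul_nonpos_of_nonpos_of_nonneg (by exact_mod_cast m) (log_nonneg hx))
    exact Or.inl (k (c.trans this) (d.trans this))
  obtain ⟨j, rfl⟩ : ∃ j : ℕ, n = (j + 1 : ℕ) := ⟨(n - 1).toNat, by omega⟩
  have hy : NN (zx (j + 1 : ℕ) - xx) := (nn_xx.mul (nn_pow_sub_one nn_x1 j)).congr
    ((zx_nat (j + 1)).mono fun x a => by simp only [Pi.sub_apply, a]; simp; ring)
  exact Or.inr (b.imp (fun b => (dom_of b a hy).congr (by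
    rw [← mul_assoc, zx_mul_neg, one_mul]; exact h3.symm)) fun b => (dom_of b a hy).congr (by
    rw [← mul_assoc, zx_mul_neg, one_mul]; exact h3.symm.neg))

end

/-- The invariant of sets of monomials. -/
structure Iv (S : Fn → Prop) : Prop where
  sk : ∀ m, S m → Sk m ∧ Fp m
  pol : ∀ m, S m → (∃ P : ℕ[X], m =ᶠ[Nf] pv P) ∨ Big m
  tri : ∀ m m', S m → S m' → Good (m / m') ∨ Big (m / m') ∨ Big (m' / m)

variable [HasRel N] {S : Fn → Prop}

theorem Iv.top (I : Iv S) {ι : Type} {μ y : ι → Fn} (s : Finset ι)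
    (h : ∀ i ∈ s, S (μ i) ∧ PX N (y i)) :
    PX N (∑ i ∈ s, μ i * y i) ∨ Dom (∑ i ∈ s, μ i * y i) ∨ Dom (-∑ i ∈ s, μ i * y i) := by
  classical
  induction s using Finset.strongInduction with
  | H s ih =>
  have fp : ∀ i ∈ s, Fp (μ i) := fun i m => (I.sk _ (h i m).1).2
  by_cases hb : ∃ j ∈ s, Big (μ j)
  swap
  · refine Or.inl (Finset.sum_induction _ _ (fun _ _ => PX.add) PX.zero fun i m => ?_)
    obtain ⟨P, e⟩ := (I.pol _ (h i m).1).resolve_right fun k => hb ⟨i, m, k⟩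
    exact ((h i m).2.mul P).congr (e.symm.mul .rfl)
  obtain ⟨j, hj, hb⟩ := hb
  obtain ⟨o, ho, h1⟩ := exists_top (r := fun i j => Good (μ j / μ i) ∨ Big (μ i / μ j)) ⟨j, hj⟩
    (fun i m j m' => by
      rcases I.tri _ _ (h i m).1 (h j m').1 with a | a | a <;> simp [a]) fun i _ j m k _ a b => by
      have e : ∀ u v : Fn, u / μ j * (μ j / v) =ᶠ[Nf] u / v := fun u v =>
        (fp j m).ne.mono fun x c => by simp [div_mul_div_cancel₀ c]
      rcases a with a | a <;> rcases b with b | b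
      · exact Or.inl ((b.mul a).congr (e _ _))
      · exact Or.inr ((a.inv.big b).congr (inv_div (μ j) (μ i) ▸ e _ _))
      · exact Or.inr ((b.inv.big a).congr (by rw [mul_comm, inv_div]; exact e _ _))
      · exact Or.inr ((a.mul b).congr (e _ _))
  have f0 := fp o ho
  have h2 : Big (μ o) := by
    have e : μ o / μ j * μ j =ᶠ[Nf] μ o := (fp j hj).ne.mono fun x c => by simp [c]
    rcases h1 j hj with a | a
    · exact (a.inv.big hb).congr (inv_div (μ j) (μ o) ▸ e)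
    · exact (a.mul hb).congr e
  set t := s.filter fun j => Good (μ j / μ o)
  set r := s.filter fun j => ¬ Good (μ j / μ o)
  have e1 : ∀ u : Finset ι, ∑ i ∈ u, μ i * y i =ᶠ[Nf] μ o * ∑ i ∈ u, μ i / μ o * y i := fun u =>
    f0.ne.mono fun x c => by
      simp only [Finset.sum_apply, Pi.mul_apply, Finset.mul_sum, Pi.div_apply]
      exact Finset.sum_congr rfl fun i _ => by field_simp
  have e2 : ∀ f : ι → Fn, ∑ i ∈ s, f i = ∑ i ∈ t, f i + ∑ i ∈ r, f i := fun f =>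
    (Finset.sum_filter_add_sum_filter_not _ _ _).symm
  obtain ⟨G, Y, a1, a2, a3⟩ : ∃ G Y, TA G ∧ TL N (0, Y) ∧
      ∑ i ∈ t, μ i / μ o * y i =ᶠ[Nf] G * lf xx + Y := by
    refine Finset.sum_induction _ (fun z => ∃ G Y, TA G ∧ TL N (0, Y) ∧ z =ᶠ[Nf] G * lf xx + Y)
      ?_ ⟨0, 0, ta_zero, ta_zero.tl, by simp⟩ fun i m => ?_
    · rintro _ _ ⟨G, Y, a1, a2, a3⟩ ⟨G', Y', b1, b2, b3⟩
      exact ⟨_, _, a1.add b1, (a2.add b2).congr (by simp) .rfl,
        (a3.add b3).trans (Eventually.of_forall fun x => by simp; ring)⟩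
    · obtain ⟨m, a⟩ := Finset.mem_filter.1 m
      obtain ⟨Q, Y, -, b2, b3⟩ := (h i m).2
      exact ⟨_, _, a.2.1.mul (ta_pv Q), (a.2.1.smul b2).congr (by simp) .rfl,
        b3.mono fun x c => by simp [c]; ring⟩
  rcases key a1 a2 with ⟨b1, b2⟩ | ⟨n, δ, b1, b2, -⟩
  · have e : ∑ i ∈ r, μ i * y i =ᶠ[Nf] ∑ i ∈ s, μ i * y i := by
      rw [e2]
      filter_upwards [e1 t, a3, b1, b2] with x c1 c2 c3 c4
      simp only [Pi.add_apply, Pi.mul_apply, c1, c2, c3, c4, Pi.zero_apply]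
      ring
    refine (ih r ((Finset.ssubset_iff_of_subset (Finset.filter_subset _ _)).2 ⟨o, ho, fun m =>
      (Finset.mem_filter.1 m).2 ((good_zx 0).congr (f0.ne.mono fun x c => by simp [c]))⟩)
      fun i m => h i (Finset.mem_filter.1 m).1).imp (·.congr e) (Or.imp (·.congr e) (·.congr e.neg))
  have c1 : LL (0, zx (-n) * ∑ i ∈ r, μ i / μ o * y i) 0 := by
    refine (LL.sum (s := r) (f := fun i => (0, zx (-n) * (μ i / μ o * y i))) (g := 0)
      fun i m => ?_).eq (by ext1 <;> simp [Prod.fst_sum, Prod.snd_sum, Finset.mul_sum]) (by simp)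
    obtain ⟨m, a⟩ := Finset.mem_filter.1 m
    obtain ⟨K, b⟩ := (h i m).2.bound
    refine ((((h1 i m).resolve_left a).lim (K - n)).smul b).eq ?_ (by simp)
    have : zx (-n) = zx (K - n) * zx (-K) := by rw [← zx_add]; congr 1; ring
    rw [this, inv_div]
    ext1 <;> simp
    ring
  have hy := (((good_zx n).big h2).2 1).eq (by rw [pow_one])
  have e3 := zx_mul_neg n
  refine Or.inr (b2.imp (fun b => ?_) fun b => ?_)
  · refine (dom_of ((b.add c1.1).congr (by simp) .rfl) (by simpa using b1) hy).congr ?_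
    filter_upwards [e1 s, a3] with x c2 c3
    have := congrFun e3 x
    rw [c2, e2]
    simp only [Pi.add_apply, Pi.mul_apply, c3, Pi.one_apply] at this ⊢
    linear_combination μ o x * (G x * lf xx x + Y x + (∑ i ∈ r, μ i / μ o * y i) x) * this
  · refine (dom_of ((b.add c1.2).congr (by simp) .rfl) (by simpa using b1) hy).congr ?_
    filter_upwards [e1 s, a3] with x c2 c3
    have := congrFun e3 x
    rw [Pi.neg_apply, c2, e2]
    simp only [Pi.add_apply, Pi.mul_apply, Prod.snd_neg, Pi.neg_apply, c3, Pi.one_apply] at this ⊢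
    linear_combination -μ o x * (G x * lf xx x + Y x + (∑ i ∈ r, μ i / μ o * y i) x) * this

omit [Axs] [HasRel N] in
/-- Products of powers of polynomials with exponents in `S`. -/
def Nx (N : ℕ) (S : Fn → Prop) (m : Fn) : Prop := Sk m ∧ Fp m ∧
  FS (fun z => ∃ μ p, S μ ∧ p.leadingCoeff ∈ N.smoothNumbers ∧ z = μ * lf (pv p)) (lf m)

omit [HasRel N] in
theorem poly_cases (p : ℕ[X]) : (∃ n : ℕ, p = C n) ∨ NN (pv p - xx) := by
  by_cases h : p.divX = 0
  · exact Or.inl ⟨_, divX_eq_zero_iff.1 h⟩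
  · refine Or.inr (((nn_xx.mul (nn_sub_one (sk_pv _) (fp_pv h).pos)).add
      (sk_nn (Sk.nat (p.coeff 0)))).eq (funext fun x => ?_))
    conv_rhs => rw [← p.X_mul_divX_add]
    simp [pv]
    ring

omit [HasRel N] in
theorem Iv.gen (I : Iv S) {μ : Fn} {p : ℕ[X]} (h : S μ) (hp : p ≠ 0) :
    LN (0, μ * lf (pv p)) ∧
      ((∃ P, P ≠ 0 ∧ μ * lf (pv p) =ᶠ[Nf] lf (pv (P : ℕ[X]))) ∨ Dom (μ * lf (pv p))) := by
  have f := fp_pv hp
  refine ⟨((log_of_nn f (nn_sub_one (sk_pv p) f.pos)).smul (I.sk _ h).2.nn).eq (by simp), ?_⟩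
  by_cases h1 : p = 1
  · exact Or.inl ⟨1, one_ne_zero, Eventually.of_forall fun x => by simp [h1, lf, pv]⟩
  have h2 : NN (pv p - cq 2) := by
    rcases poly_cases p with ⟨n, rfl⟩ | k
    · have : n ≠ 0 ∧ n ≠ 1 := ⟨fun e => hp (by simp [e]), fun e => h1 (by simp [e])⟩
      exact (sk_nn (Sk.nat (n - 2))).eq (by
        funext x; simp [pv, Nat.cast_sub (show 2 ≤ n by omega)])
    · exact (k.add (nn_x_sub 2)).eq (by funext x; simp)
  have h3 : Lo (0, lf (pv p)) (1 / 2) :=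
    (((ln_log' f).add ((h2.mul f.inv.nn).mul (nn_cq (q := 1 / 2) (by norm_num)))).lo.add
      (Lo.const (1 / 2))).congr (f.ne.mono fun x e => by simp; field_simp; ring) (by simp) |>.mono
      (by simp)
  have h4 := fun k => dom_of (y := μ) h3 (by norm_num) k
  rcases I.pol μ h with ⟨P, e⟩ | k
  · rcases poly_cases P with ⟨n, rfl⟩ | k
    · exact Or.inl ⟨p ^ n, pow_ne_zero _ hp, e.mono fun x a => by simp [a, pv, lf]⟩
    · exact Or.inr (h4 (k.congr (e.symm.sub .rfl)))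
  · exact Or.inr (h4 ((k.2 1).eq (by rw [pow_one])))

theorem Iv.nx (I : Iv S) : Iv (Nx N S) where
  sk _ h := ⟨h.1, h.2.1⟩
  pol m h := by
    have := h.2.2.ind
      (T := fun z => LN (0, z) ∧ ((∃ P, P ≠ 0 ∧ z =ᶠ[Nf] lf (pv (P : ℕ[X]))) ∨ Dom z))
      (fun f g a e => ⟨a.1.congr .rfl e, a.2.imp (·.imp fun _ b => ⟨b.1, e.symm.trans b.2⟩)
        (·.congr e)⟩)
      ⟨ln_zero, Or.inl ⟨1, one_ne_zero, Eventually.of_forall fun x => by simp [lf, pv]⟩⟩
      (fun f g a b => ⟨(a.1.add b.1).eq (by simp), by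
        rcases a.2 with ⟨P, a1, a2⟩ | a2
        · rcases b.2 with ⟨Q, b1, b2⟩ | b2
          · refine Or.inl ⟨P * Q, mul_ne_zero a1 b1, ?_⟩
            filter_upwards [a2, b2, (fp_pv a1).ne, (fp_pv b1).ne] with x c1 c2 c3 c4
            rw [Pi.add_apply, c1, c2, lf, lf, ← log_mul c3 c4]
            simp [lf, pv]
          · exact Or.inr (add_comm g f ▸ b2.add a.1)
        · exact Or.inr (a2.add b.1)⟩)
      (by rintro _ ⟨μ, p, a, b, rfl⟩; exact I.gen a (leadingCoeff_ne_zero.1 b.1))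
    refine this.2.imp (fun ⟨P, a, b⟩ => ⟨P, ?_⟩) fun a => a.big h.2.1 .rfl
    filter_upwards [b, h.2.1.pos, (fp_pv a).pos] with x c1 c2 c3
    exact log_injOn_pos c2 c3 c1
  tri m m' h h' := by
    have f := h.2.1.div h'.2.1
    have e : lf (m / m') =ᶠ[Nf] lf m + lf m' * -1 := by
      filter_upwards [h.2.1.ne, h'.2.1.ne] with x a b
      simp [lf, log_div a b, sub_eq_add_neg]
    obtain ⟨ι, s, g, a, b⟩ : FS (fun z => ∃ μ y, (S μ ∧ PX N y) ∧ z = μ * y) (lf (m / m')) :=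
      ((h.2.2.mono fun _ ⟨μ, p, a, b, c⟩ => ⟨μ, _, ⟨a, px_log b⟩, c⟩).add (h'.2.2.map (-1)
        fun _ ⟨μ, p, a, b, c⟩ => FS.of ⟨μ, _, ⟨a, (px_log b).neg⟩, by simp [c]⟩)).congr e.symm
    choose! μ y a1 a2 using a
    rw [Finset.sum_congr rfl a2] at b
    refine ((I.top s a1).elim (fun k => k.tri f b) Or.inr).imp_right (Or.imp (·.big f b)
      fun k => k.big (h'.2.1.div h.2.1) ?_)
    filter_upwards [b] with x c
    rw [Pi.neg_apply, ← c, lf, lf, ← log_inv, ← inv_div, Pi.inv_apply]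

omit [Axs] [HasRel N]

/-- Monomials of a given height. -/
def Ms (N : ℕ) : ℕ → Fn → Prop
  | 0 => fun m => m = 1
  | h + 1 => Nx N (Ms N h)

theorem ms_one : ∀ h, Ms N h 1
  | 0 => rfl
  | _ + 1 => ⟨Sk.one, Fp.one, FS.zero.congr (Eventually.of_forall fun x => by simp [lf])⟩

theorem Ms.succ : ∀ {h m}, Ms N h m → Ms N (h + 1) m
  | 0, m, a => by obtain rfl : m = 1 := a; exact ms_one 1
  | _ + 1, _, a => ⟨a.1, a.2.1, a.2.2.mono fun _ ⟨μ, p, a, b⟩ => ⟨μ, p, a.succ, b⟩⟩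

theorem Ms.mul : ∀ {h m m'}, Ms N h m → Ms N h m' → Ms N h (m * m')
  | 0, m, _, a, b => by obtain rfl : m = 1 := a; rwa [one_mul]
  | _ + 1, _, _, a, b => ⟨a.1.mul b.1, a.2.1.mul b.2.1, (a.2.2.add b.2.2).congr (by
    filter_upwards [a.2.1.ne, b.2.1.ne] with x c d
    simp [lf, log_mul c d])⟩

theorem Ms.sk : ∀ {h m}, Ms N h m → Sk m
  | 0, m, a => by obtain rfl : m = 1 := a; exact Sk.one
  | _ + 1, _, a => a.1

/-- The functions of the fragment. -/
def Fr (N : ℕ) (f : Fn) : Prop := ∃ h, ∀ k ≥ h, FS (Ms N k) f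

theorem fr_of {h : ℕ} {f : Fn} (a : Ms N h f) : Fr N f :=
  ⟨h, fun k e => FS.of (by induction e with | refl => exact a | step _ ih => exact ih.succ)⟩

section
variable {f g : Fn}

theorem Fr.congr (h : Fr N f) (e : f =ᶠ[Nf] g) : Fr N g := h.imp fun _ a k b => (a k b).congr e

theorem Fr.add (h : Fr N f) (h' : Fr N g) : Fr N (f + g) := by
  obtain ⟨h, a⟩ := h
  obtain ⟨h', b⟩ := h'
  exact ⟨h + h', fun k e => (a k (by omega)).add (b k (by omega))⟩

theorem Fr.mul (h : Fr N f) (h' : Fr N g) : Fr N (f * g) := by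
  obtain ⟨h, a⟩ := h
  obtain ⟨h', b⟩ := h'
  exact ⟨h + h', fun k e => (a k (by omega)).mul (b k (by omega)) fun _ _ => Ms.mul⟩

theorem fr_nat (c : ℕ) : Fr N c := by
  induction c with
  | zero => exact ⟨0, fun _ _ => by simpa using FS.zero⟩
  | succ c ih => push_cast; exact ih.add (fr_of (ms_one 0))

theorem ms_rp {h : ℕ} (a : FS (Ms N h) f) {p : ℕ[X]} (hp : p.leadingCoeff ∈ N.smoothNumbers) :
    Ms N (h + 1) (rp (pv p) f) := by
  have s : Sk f := a.ind (fun _ _ => Sk.congr) Sk.zero (fun _ _ => Sk.add) fun _ => Ms.sk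
  have b := fp_pv (leadingCoeff_ne_zero.1 hp.1)
  exact ⟨(sk_pv p).rp s, b.rp s, (a.map _ fun μ c => FS.of ⟨μ, p, c, hp, rfl⟩).congr
    (b.pos.mono fun x e => by simp [lf, rp, log_rpow e])⟩

theorem Fr.rp (h : Fr N f) {p : ℕ[X]} (hp : p.leadingCoeff ∈ N.smoothNumbers) :
    Fr N (rp (pv p) f) :=
  let ⟨h, a⟩ := h
  fr_of (ms_rp (a h le_rfl) hp)

theorem x_good : (X : ℕ[X]).leadingCoeff ∈ N.smoothNumbers := by simp [Nat.mem_smoothNumbers]

theorem fr_xx : Fr N xx :=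
  ((fr_nat 1).rp x_good).congr (Eventually.of_forall fun x => by simp [MP_b50963_lc.rp, pv])

variable [Axs] [HasRel N]

theorem iv_ms : ∀ h, Iv (Ms N h)
  | 0 => ⟨by rintro _ rfl; exact ⟨Sk.one, Fp.one⟩,
    by rintro _ rfl; exact Or.inl ⟨1, Eventually.of_forall fun x => by simp [pv]⟩,
    by rintro _ _ rfl rfl; exact Or.inl (by simpa using good_zx 0)⟩
  | h + 1 => (iv_ms h).nx

theorem complete (hf : Fr N f) (hg : Fr N g) :
    NN (rp xx f - rp xx g) ∨ NN (rp xx g - rp xx f) := by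
  obtain ⟨h, a⟩ := hf
  obtain ⟨h', b⟩ := hg
  have a := ms_rp (a (h + h') (by omega)) x_good
  have b := ms_rp (b (h + h') (by omega)) x_good
  rw [show pv (X : ℕ[X]) = xx by funext x; simp [pv]] at a b
  have k : ∀ {u v : Fn}, Fp v → NN (u / v - 1) → NN (u - v) := fun c d =>
    (d.mul c.nn).congr (c.ne.mono fun x e => by simp [sub_mul, e])
  rcases (iv_ms _).tri _ _ a b with c | c | c
  · exact (c.2.1.sub ta_one).tot.imp (k b.2.1) fun d => (d.mul b.2.1.nn).congr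
      (b.2.1.ne.mono fun x e => by simp [sub_mul, e])
  · exact Or.inl (k b.2.1 (by simpa using c.2 0))
  · exact Or.inr (k a.2.1 (by simpa using c.2 0))

end

end Pool.Agent.MP_b50963_lc.PB
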