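import Pool.Agent.MP_b50963_lc.Code

/-!
A c.e. and sound proof system for eventual inequalities between exponential terms.
-/

set_option autoImplicit false

namespace Pool.Agent.MP_b50963_lc

open Set Filter Topology Real Pool.Agent.MP_d9ba76_lc

/-- Pairs of codes stand for differences. -/
def za (a b : ℕ × ℕ) : ℕ × ℕ := (ad a.1 b.1, ad a.2 b.2)
def zm (a b : ℕ × ℕ) : ℕ × ℕ := (ad (mu a.1 b.2) (mu a.2 b.1), ad (mu a.1 b.1) (mu a.2 b.2))
def zn (a : ℕ × ℕ) : ℕ × ℕ := (a.2, a.1)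
def zs (s : ℕ) : ℕ × ℕ := (cs 0, s)

/-- The data of the truncated binomial series of `A ^ x` around `B ^ x`. -/
def bt (A B N : ℕ) : ((ℕ × ℕ) × (ℕ × ℕ)) × ((ℕ × ℕ) × ℕ) :=
  N.rec ((zs (cs 0), zs (cs 1)), (zs (cs 1), cs 1)) fun n d =>
    ((zm (zs (mu (cs (n + 1)) B)) (za d.1.1 d.1.2), zm d.1.2 (zm (cs n, 0) (B, A))),
      (zm d.2.1 (zm (zs (mu (cs (n + 1)) 0)) (B, A)), mu d.2.2 (mu (cs (n + 1)) B)))

def b1 (A B N : ℕ) : ℕ × ℕ := zm (zs (mu (cs 2) (pw B 0))) (bt A B N).2.1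
def b2 (A B N : ℕ) : ℕ × ℕ :=
  za (zs (mu (bt A B N).2.2 (pw A 0))) (zn (zm (zs (pw B 0)) (bt A B N).1.1))
def b3 (A B : ℕ) : List (ℕ × ℕ) := [(cs 1, B), za (zs B) (zm (zs (mu (cs 2) 0)) (B, A)),
  za (zs B) (zm (zs (mu (cs 2) 0)) (A, B))]
def e1 (A c : ℕ) : ℕ := mu (cs A) (pw (mu (cs c) 0) 0)
def e2 (B c : ℕ) : ℕ := mu (cs B) (pw (ad (mu (cs c) 0) (cs 1)) 0)

def plain (a b : ℕ × ℕ) (u : ℕ) : List ((ℕ × ℕ) × List (ℕ × ℕ)) :=
  [(zs u, []), (za a b, [a, b]), (zm a b, [a, b]), (a, [(mu a.1 u, mu a.2 u), (cs 1, u)]),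
    ((cs u, 0), []), ((pw a.1 u, pw a.2 u), [a]), ((pw u a.1, pw u a.2), [a, (cs 1, u)]),
    ((mu (pw 0 (cs a.1)) (pw (cs u) 0), pw (cs (u + 1)) 0), []),
    (za (b1 a.1 a.2 (2 * u)) (b2 a.1 a.2 (2 * u)), b3 a.1 a.2),
    (za (b1 a.1 a.2 (2 * u)) (zn (b2 a.1 a.2 (2 * u))), b3 a.1 a.2)]

def Rule (z : (ℕ × ℕ) × List (ℕ × ℕ)) : Prop :=
  ∃ p : (ℕ × ℕ) × (ℕ × ℕ) × ℕ, z ∈ plain p.1 p.2.1 p.2.2 ∨
    (Idt (ad p.1.1 p.2.1.2) (ad p.2.1.1 p.1.2) ∧ z = (p.1, [p.2.1])) ∨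
    ((p.1.1 : ℝ) < p.1.2 * exp (1 / (p.2.2 + 1 : ℕ)) ∧
      z = ((e1 p.1.1 (p.2.2 + 1), e2 p.1.2 (p.2.2 + 1)), [])) ∨
    ((p.1.2 : ℝ) * exp (1 / (p.2.2 + 1 : ℕ)) < p.1.1 ∧
      z = ((e2 p.1.2 (p.2.2 + 1), e1 p.1.1 (p.2.2 + 1)), []))

/-- Provable eventual inequalities. -/
def Pr : ℕ × ℕ → Prop := Cl Rule

section
variable {α : Type} [Primcodable α]

@[fun_prop] theorem pr_za {f g : α → ℕ × ℕ} (hf : Primrec f) (hg : Primrec g) :
    Primrec fun a => za (f a) (g a) := by unfold za; fun_prop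

@[fun_prop] theorem pr_zm {f g : α → ℕ × ℕ} (hf : Primrec f) (hg : Primrec g) :
    Primrec fun a => zm (f a) (g a) := by unfold zm; fun_prop

@[fun_prop] theorem pr_zn {f : α → ℕ × ℕ} (hf : Primrec f) : Primrec fun a => zn (f a) := by
  unfold zn; fun_prop

@[fun_prop] theorem pr_zs {f : α → ℕ} (hf : Primrec f) : Primrec fun a => zs (f a) := by
  unfold zs; fun_prop

@[fun_prop] theorem pr_bt {f g k : α → ℕ} (hf : Primrec f) (hg : Primrec g) (hk : Primrec k) :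
    Primrec fun a => bt (f a) (g a) (k a) :=
  Primrec.nat_rec' (h := fun a (y : ℕ × (((ℕ × ℕ) × (ℕ × ℕ)) × ((ℕ × ℕ) × ℕ))) =>
    ((zm (zs (mu (cs (y.1 + 1)) (g a))) (za y.2.1.1 y.2.1.2),
      zm y.2.1.2 (zm (cs y.1, 0) (g a, f a))),
      (zm y.2.2.1 (zm (zs (mu (cs (y.1 + 1)) 0)) (g a, f a)), mu y.2.2.2 (mu (cs (y.1 + 1)) (g a)))))
    hk (by fun_prop) (by unfold Primrec₂; fun_prop)

end

theorem lo_iff (A B c : ℕ) : (A : ℝ) < B * exp (1 / (c + 1 : ℕ)) ↔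
    ∃ m, A ^ (c + 1) * m ^ m < B ^ (c + 1) * (m + 1) ^ m := by
  rw [← pow_lt_pow_iff_left₀ (by positivity) (by positivity) c.succ_ne_zero, mul_pow,
    ← exp_nat_mul, mul_one_div_cancel (by positivity)]
  constructor
  · intro h
    obtain ⟨m, h1, h2⟩ := ((((tendsto_one_add_div_pow_exp 1).const_mul _).eventually_const_lt
      h).and (eventually_gt_atTop 0)).exists
    have h3 : (0 : ℝ) < m := by exact_mod_cast h2
    rw [one_add_div h3.ne', div_pow, ← mul_div_assoc, lt_div_iff₀ (by positivity)] at h1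
    exact ⟨m, by exact_mod_cast h1⟩
  · rintro ⟨m, h⟩
    have h1 : ((m : ℝ) + 1) ^ m ≤ exp 1 * m ^ m := by
      rcases Nat.eq_zero_or_pos m with rfl | h2
      · simp
      · have h3 : (0 : ℝ) < m := by exact_mod_cast h2
        rw [← div_le_iff₀ (by positivity), ← div_pow, add_div, div_self h3.ne', one_div]
        exact one_add_inv_pow_le_exp
    have h2 : (A : ℝ) ^ (c + 1) * m ^ m < B ^ (c + 1) * (m + 1) ^ m := by exact_mod_cast h
    refine lt_of_mul_lt_mul_right (h2.trans_le ?_) (by positivity)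
    rw [mul_assoc]
    exact mul_le_mul_of_nonneg_left h1 (by positivity)

theorem hi_iff (A B c : ℕ) : (B : ℝ) * exp (1 / (c + 1 : ℕ)) < A ↔
    ∃ m, B ^ (c + 1) * (m + 1) ^ (m + 1) < A ^ (c + 1) * m ^ (m + 1) := by
  rw [← pow_lt_pow_iff_left₀ (by positivity) (by positivity) c.succ_ne_zero, mul_pow,
    ← exp_nat_mul, mul_one_div_cancel (by positivity), ← lt_div_iff₀ (exp_pos 1), div_eq_mul_inv,
    ← exp_neg]
  have e : ∀ m : ℕ, (1 - 1 / ((m + 1 : ℕ) : ℝ)) ^ (m + 1) = m ^ (m + 1) / (m + 1) ^ (m + 1) :=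
    fun m => by rw [← div_pow]; congr 1; push_cast; field_simp; ring
  constructor
  · intro h
    obtain ⟨m, h1⟩ := ((((tendsto_one_add_div_pow_exp (-1)).comp (tendsto_add_atTop_nat 1)).const_mul
      _).eventually_const_lt h).exists
    rw [Function.comp_apply, neg_div, ← sub_eq_add_neg, e, ← mul_div_assoc,
      lt_div_iff₀ (by positivity)] at h1
    exact ⟨m, by exact_mod_cast h1⟩
  · rintro ⟨m, h⟩
    have h1 := one_sub_div_pow_le_exp_neg (n := m + 1) (t := 1) (by simp)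
    have h2 : (B : ℝ) ^ (c + 1) * (m + 1) ^ (m + 1) < A ^ (c + 1) * m ^ (m + 1) := by
      exact_mod_cast h
    rw [← lt_div_iff₀ (by positivity), mul_div_assoc, ← e] at h2
    exact h2.trans_le (mul_le_mul_of_nonneg_left h1 (by positivity))

theorem ce_pr : CE Pr := by
  refine ce_cl _ (CE.ex (p := fun y : ((ℕ × ℕ) × List (ℕ × ℕ)) × ((ℕ × ℕ) × (ℕ × ℕ) × ℕ) =>
    y.1 ∈ plain y.2.1 y.2.2.1 y.2.2.2 ∨
    (Idt (ad y.2.1.1 y.2.2.1.2) (ad y.2.2.1.1 y.2.1.2) ∧ y.1 = (y.2.1, [y.2.2.1])) ∨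
    ((y.2.1.1 : ℝ) < y.2.1.2 * exp (1 / (y.2.2.2 + 1 : ℕ)) ∧
      y.1 = ((e1 y.2.1.1 (y.2.2.2 + 1), e2 y.2.1.2 (y.2.2.2 + 1)), [])) ∨
    ((y.2.1.2 : ℝ) * exp (1 / (y.2.2.2 + 1 : ℕ)) < y.2.1.1 ∧
      y.1 = ((e2 y.2.1.2 (y.2.2.2 + 1), e1 y.2.1.1 (y.2.2.2 + 1)), [])))
    ((CE.of_pred (pp_mem (by fun_prop) ?_)).or ((CE.of_pred ((pp_idt (by fun_prop) (by fun_prop)).and
      (pp_eq (by fun_prop) (by fun_prop)))).or ((CE.and ?_ (CE.of_pred (pp_eq (by fun_prop) ?_))).or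
      (CE.and ?_ (CE.of_pred (pp_eq (by fun_prop) ?_)))))))
  · unfold plain b1 b2 b3; fun_prop
  · simp only [lo_iff]
    exact CE.ex (p := fun y : (((ℕ × ℕ) × List (ℕ × ℕ)) × ((ℕ × ℕ) × (ℕ × ℕ) × ℕ)) × ℕ =>
      y.1.2.1.1 ^ (y.1.2.2.2 + 1) * y.2 ^ y.2 < y.1.2.1.2 ^ (y.1.2.2.2 + 1) * (y.2 + 1) ^ y.2)
      (CE.of_pred (pp_lt (by fun_prop) (by fun_prop)))
  · unfold e1 e2; fun_prop
  · simp only [hi_iff]
    exact CE.ex (p := fun y : (((ℕ × ℕ) × List (ℕ × ℕ)) × ((ℕ × ℕ) × (ℕ × ℕ) × ℕ)) × ℕ =>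
      y.1.2.1.2 ^ (y.1.2.2.2 + 1) * (y.2 + 1) ^ (y.2 + 1) <
        y.1.2.1.1 ^ (y.1.2.2.2 + 1) * y.2 ^ (y.2 + 1))
      (CE.of_pred (pp_lt (by fun_prop) (by fun_prop)))
  · unfold e1 e2; fun_prop

/-! Semantics. -/

/-- Large natural numbers, as reals. -/
def Nf : Filter ℝ := map Nat.cast atTop

theorem Nf_le : Nf ≤ atTop := tendsto_natCast_atTop_atTop

instance : Nf.NeBot := map_neBot

theorem nat_ev : ∀ᶠ x : ℝ in Nf, ∃ z : ℕ, 0 < z ∧ x = z :=
  eventually_map.2 ((eventually_gt_atTop 0).mono fun z hz => ⟨z, hz, rfl⟩)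

theorem pos_ev : ∀ᶠ x in Nf, (0 : ℝ) < x := Nf_le (eventually_gt_atTop 0)

noncomputable def evr (s : ℕ) : Fn := fun x => ev s ⌊x⌋₊
noncomputable def zv (a : ℕ × ℕ) : Fn := evr a.2 - evr a.1
/-- The integer part; the identity on natural numbers. -/
noncomputable def fl : Fn := fun x => ⌊x⌋₊
noncomputable def rp (f g : Fn) : Fn := fun x => f x ^ g x
abbrev xx : Fn := fun x => x

theorem fl_ev : fl =ᶠ[Nf] xx := nat_ev.mono (by rintro _ ⟨z, -, rfl⟩; simp [fl])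

@[simp] theorem evr_zero : evr 0 = fl := by funext x; simp [evr, fl]
@[simp] theorem evr_cs (c : ℕ) : evr (cs c) = c := by funext x; simp [evr]
@[simp] theorem evr_ad (s t : ℕ) : evr (ad s t) = evr s + evr t := by funext x; simp [evr]
@[simp] theorem evr_mu (s t : ℕ) : evr (mu s t) = evr s * evr t := by funext x; simp [evr]
@[simp] theorem evr_pw (s t : ℕ) : evr (pw s t) = rp (evr s) (evr t) := by
  funext x; simp [evr, rp]
@[simp] theorem zv_mk (s t : ℕ) : zv (s, t) = evr t - evr s := rfl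
@[simp] theorem zv_za (a b : ℕ × ℕ) : zv (za a b) = zv a + zv b := by simp [za, zv]; ring
@[simp] theorem zv_zm (a b : ℕ × ℕ) : zv (zm a b) = zv a * zv b := by simp [zm, zv]; ring
@[simp] theorem zv_zn (a : ℕ × ℕ) : zv (zn a) = -zv a := by simp [zn, zv]
@[simp] theorem zv_zs (s : ℕ) : zv (zs s) = evr s := by simp [zs]

theorem evr_nonneg (s : ℕ) (x : ℝ) : 0 ≤ evr s x := Nat.cast_nonneg _

theorem idt_iff_zv (a b : ℕ × ℕ) : Idt (ad a.1 b.2) (ad b.1 a.2) ↔ zv b =ᶠ[Nf] zv a := by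
  refine Iff.trans (eventually_congr (Eventually.of_forall fun z => ?_)) eventually_map.symm
  simp only [zv, evr, ev_ad, Pi.sub_apply, Nat.floor_natCast]
  rw [← Nat.cast_inj (R := ℝ)]
  push_cast
  constructor <;> intro h <;> linarith

theorem choose_succ (z k : ℕ) :
    ((k : ℝ) + 1) * z.choose (k + 1) = z.choose k * ((z : ℝ) - k) := by
  rcases le_or_gt k z with h | h
  · rw [← Nat.cast_sub h, mul_comm]; exact_mod_cast Nat.choose_succ_right_eq z k
  · simp [Nat.choose_eq_zero_of_lt h, Nat.choose_eq_zero_of_lt (h.trans k.lt_succ_self)]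

theorem bt_spec (A B N z : ℕ) {δ : ℝ} (h : evr A z - evr B z = evr B z * δ) :
    zv (bt A B N).1.1 z = evr (bt A B N).2.2 z * ∑ k ∈ Finset.range N, z.choose k * δ ^ k ∧
    zv (bt A B N).1.2 z = evr (bt A B N).2.2 z * (z.choose N * δ ^ N) ∧
    zv (bt A B N).2.1 z = evr (bt A B N).2.2 z * (z * δ) ^ N ∧
    evr (bt A B N).2.2 z = N.factorial * evr B z ^ N := by
  induction N with
  | zero => simp [bt]
  | succ N ih =>
    obtain ⟨h1, h2, h3, h4⟩ := ih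
    have e := choose_succ z N
    have e' : bt A B (N + 1) = ((zm (zs (mu (cs (N + 1)) B)) (za (bt A B N).1.1 (bt A B N).1.2),
      zm (bt A B N).1.2 (zm (cs N, 0) (B, A))), (zm (bt A B N).2.1
        (zm (zs (mu (cs (N + 1)) 0)) (B, A)), mu (bt A B N).2.2 (mu (cs (N + 1)) B))) := rfl
    simp only [e', zv_zm, zv_zs, zv_za, zv_mk, evr_mu, evr_cs, evr_zero, Pi.mul_apply,
      Pi.add_apply, Pi.sub_apply, Pi.natCast_apply, fl, Nat.floor_natCast, h, h1, h2, h3, h4,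
      Finset.sum_range_succ, Nat.factorial_succ]
    push_cast
    refine ⟨by ring, ?_, by ring, by ring⟩
    linear_combination (-(N.factorial * evr B z ^ (N + 1) * δ ^ (N + 1)) : ℝ) * e

theorem binom_bound (z N : ℕ) {δ : ℝ} (h : |z * δ| ≤ 1 / 2) :
    |(1 + δ) ^ z - ∑ k ∈ Finset.range N, z.choose k * δ ^ k| ≤ 2 * |z * δ| ^ N := by
  have e : (1 + δ) ^ z = ∑ k ∈ Finset.range (z + 1 + N), z.choose k * δ ^ k := by
    rw [add_comm 1 δ, add_pow, Finset.sum_range_add _ (z + 1) N, Finset.sum_eq_zero (s := Finset.range N)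
      fun k _ => by simp [Nat.choose_eq_zero_of_lt (show z < z + 1 + k by omega)]]
    simp [mul_comm]
  rw [e, ← Finset.sum_Ico_eq_sub _ (by omega)]
  refine (Finset.abs_sum_le_sum_abs _ _).trans ((Finset.sum_le_sum fun k _ => ?_).trans
    ((geom_sum_Ico_le_of_lt_one (abs_nonneg (z * δ)) (by linarith)).trans ?_))
  · rw [abs_mul, abs_mul, mul_pow, abs_pow, Nat.abs_cast, Nat.abs_cast]
    exact mul_le_mul_of_nonneg_right (by exact_mod_cast Nat.choose_le_pow z k) (by positivity)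
  · rw [div_le_iff₀ (by linarith)]
    have : 0 ≤ |z * δ| ^ N := by positivity
    nlinarith

theorem b_spec (A B N z : ℕ) (hB : evr B z ≠ 0) :
    zv (b1 A B N) z = N.factorial * evr B z ^ N * evr B z ^ z *
      (2 * (z * (evr A z / evr B z - 1)) ^ N) ∧
    zv (b2 A B N) z = N.factorial * evr B z ^ N * evr B z ^ z * ((evr A z / evr B z) ^ z -
      ∑ k ∈ Finset.range N, z.choose k * (evr A z / evr B z - 1) ^ k) := by
  obtain ⟨h1, -, h3, h4⟩ := bt_spec A B N z (δ := evr A z / evr B z - 1) (by field_simp)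
  simp only [b1, b2, zv_zm, zv_zs, zv_za, zv_zn, evr_mu, evr_cs, evr_pw, evr_zero, Pi.mul_apply,
    Pi.add_apply, Pi.neg_apply, Pi.natCast_apply, rp, fl, Nat.floor_natCast, rpow_natCast, h1, h3,
    h4, div_pow]
  exact ⟨by push_cast; ring, by field_simp; ring⟩

/-- The approximation of `exp (1 / c)`. -/
noncomputable def EE (c : ℕ) : Fn := rp (fun x => (c * x + 1) / (c * x)) xx

theorem tendsto_EE {c : ℕ} (hc : 0 < c) : Tendsto (EE c) atTop (𝓝 (exp (1 / c))) := by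
  refine (tendsto_one_add_div_rpow_exp (1 / c)).congr' ((eventually_gt_atTop 0).mono fun x hx => ?_)
  simp only [EE, rp]
  congr 1
  field_simp

theorem e_spec (A B : ℕ) {c : ℕ} (hc : 0 < c) :
    zv (e1 A c, e2 B c) =ᶠ[Nf] (B * EE c - A) * evr (pw (mu (cs c) 0) 0) := nat_ev.mono (by
  rintro _ ⟨z, hz, rfl⟩
  simp [e1, e2, EE, rp, fl, div_pow]
  field_simp)

theorem bin_sound {A B u : ℕ} (h : ∀ b ∈ b3 A B, ∀ᶠ x in Nf, 0 ≤ zv b x) :
    ∀ᶠ x in Nf, |zv (b2 A B (2 * u)) x| ≤ zv (b1 A B (2 * u)) x := by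
  simp only [b3, List.forall_mem_cons] at h
  filter_upwards [h.1, h.2.1, h.2.2.1, nat_ev] with x h1 h2 h3 ⟨z, _, e⟩
  subst e
  simp [fl] at h1 h2 h3
  have hB : 0 < evr B z := by linarith
  obtain ⟨k1, k2⟩ := b_spec A B (2 * u) z hB.ne'
  have := binom_bound z (2 * u) (δ := evr A z / evr B z - 1) (by
    rw [div_sub_one hB.ne', ← mul_div_assoc, abs_div, abs_of_pos hB, div_le_iff₀ hB, abs_le]
    constructor <;> linarith)
  rw [add_sub_cancel, (even_two_mul u).pow_abs] at this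
  rw [k1, k2, abs_mul, abs_of_pos (by positivity)]
  exact mul_le_mul_of_nonneg_left this (by positivity)

theorem Pr.sound {a : ℕ × ℕ} (h : Pr a) : ∀ᶠ x in Nf, 0 ≤ zv a x := by
  induction h with
  | intro c L h _ ih =>
    obtain ⟨⟨a, b, u⟩, h | ⟨h, e⟩ | ⟨h, e⟩ | ⟨h, e⟩⟩ := h
    · simp only [plain, List.mem_cons, Prod.mk.injEq, List.not_mem_nil, or_false] at h
      rcases h with ⟨rfl, rfl⟩ | ⟨rfl, rfl⟩ | ⟨rfl, rfl⟩ | ⟨rfl, rfl⟩ | ⟨rfl, rfl⟩ | ⟨rfl, rfl⟩ |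
        ⟨rfl, rfl⟩ | ⟨rfl, rfl⟩ | ⟨rfl, rfl⟩ | ⟨rfl, rfl⟩
      · exact Eventually.of_forall fun x => by simpa using evr_nonneg u x
      · filter_upwards [ih a (by simp), ih b (by simp)] with x h1 h2
        simpa using add_nonneg h1 h2
      · filter_upwards [ih a (by simp), ih b (by simp)] with x h1 h2
        simpa using mul_nonneg h1 h2
      · filter_upwards [ih _ List.mem_cons_self, ih (cs 1, u) (by simp)] with x h1 h2
        simp [zv] at h1 h2 ⊢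
        exact le_of_mul_le_mul_right h1 (by linarith)
      · filter_upwards [fl_ev, Nf_le (eventually_ge_atTop (u : ℝ))] with x h1 h2
        simpa [h1] using h2
      · filter_upwards [ih a (by simp)] with x h1
        simp [zv, rp] at h1 ⊢
        exact rpow_le_rpow (evr_nonneg _ _) h1 (evr_nonneg _ _)
      · filter_upwards [ih a (by simp), ih (cs 1, u) (by simp)] with x h1 h2
        simp [zv, rp] at h1 h2 ⊢
        exact rpow_le_rpow_of_exponent_le h2 h1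
      · have := (tendsto_pow_const_mul_const_pow_of_abs_lt_one a.1 (r := u / (u + 1)) (by
          rw [abs_of_nonneg (by positivity), div_lt_one (by positivity)]
          exact lt_add_one _)).eventually_le_const one_pos
        refine eventually_map.2 (this.mono fun z hz => ?_)
        rw [div_pow, ← mul_div_assoc, div_le_one (by positivity)] at hz
        simpa [rp, fl] using hz
      · exact (bin_sound ih).mono fun x hx => by
          simpa using neg_le_iff_add_nonneg'.1 (abs_le.1 hx).1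
      · exact (bin_sound ih).mono fun x hx => by simpa using (abs_le.1 hx).2
    · obtain ⟨rfl, rfl⟩ := Prod.mk.inj e
      filter_upwards [ih b (by simp), (idt_iff_zv _ _).1 h] with x h1 h2
      exact h2 ▸ h1
    · obtain ⟨rfl, rfl⟩ := Prod.mk.inj e
      filter_upwards [e_spec a.1 a.2 u.succ_pos, Nf_le (((tendsto_EE u.succ_pos).const_mul
        _).eventually_const_lt h)] with x h1 h2
      exact h1 ▸ mul_nonneg (sub_nonneg.2 h2.le) (evr_nonneg _ _)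
    · obtain ⟨rfl, rfl⟩ := Prod.mk.inj e
      filter_upwards [e_spec a.1 a.2 u.succ_pos, Nf_le (((tendsto_EE u.succ_pos).const_mul
        _).eventually_lt_const h)] with x h1 h2
      have := h1.trans_le (mul_nonpos_of_nonpos_of_nonneg (sub_nonpos.2 h2.le) (evr_nonneg _ _))
      simpa using this

end Pool.Agent.MP_b50963_lc
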