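import Pool.Agent.MP_b50963_lc.Chain

/-!
Functions of moderate growth in towers, and the closure properties of the functions that can be
reached by towers.
-/

set_option autoImplicit false

namespace Pool.Agent.MP_b50963_lc

open Set Filter Topology Asymptotics Real

/-- A scale: `log x`, `x` or `x log x`. -/
structure Sc (L : Fn) : Prop where
  top : Tendsto L atTop atTop
  reg : ∀ᶠ x in atTop, ∀ s ∈ Icc x (x + 1), L s ≤ 4 * L x
  lg : ∀ᶠ x in atTop, log x ≤ L x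

/-- Moderate growth. -/
def Md (L f : Fn) : Prop := ∃ C : ℝ, f =O[atTop] fun x => exp (C * L x)

/-- Moderate decay. -/
def Un (L f : Fn) : Prop := (∀ᶠ x in atTop, f x ≠ 0) ∧ Md L f⁻¹

def Lw (L f : Fn) : Prop := (∀ᶠ x in atTop, f x = 0) ∨ Un L f

section
variable {L f g : Fn}

theorem Md.of_le {C : ℝ} (h : ∀ᶠ x in atTop, |f x| ≤ exp (C * L x)) : Md L f :=
  ⟨C, IsBigO.of_bound' (by simpa using h)⟩

theorem Md.le (s : Sc L) (h : Md L f) : ∃ C > 0, ∀ᶠ x in atTop, |f x| ≤ exp (C * L x) := by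
  obtain ⟨C, h⟩ := h
  obtain ⟨K, hK⟩ := h.bound
  refine ⟨|C| + 1, by positivity, ?_⟩
  filter_upwards [hK, s.top.eventually_ge_atTop K, s.top.eventually_ge_atTop 0] with x h1 h2 h3
  rw [norm_eq_abs, norm_eq_abs, abs_exp] at h1
  rw [add_mul, one_mul, add_comm, exp_add]
  refine h1.trans (mul_le_mul (h2.trans (by linarith [add_one_le_exp (L x)])) ?_ (exp_pos _).le
    (exp_pos _).le)
  exact exp_le_exp.2 (mul_le_mul_of_nonneg_right (le_abs_self C) h3)

theorem Md.congr (h : Md L f) (e : f =ᶠ[atTop] g) : Md L g :=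
  h.imp fun _ h => h.congr' e EventuallyEq.rfl

theorem Md.of_O (h : Md L f) (e : g =O[atTop] f) : Md L g := h.imp fun _ h => e.trans h

theorem Md.const (c : ℝ) : Md L fun _ => c :=
  ⟨0, by simpa using isBigO_const_const c (one_ne_zero (α := ℝ)) atTop⟩

theorem Md.mul (h : Md L f) (h' : Md L g) : Md L (f * g) := by
  obtain ⟨C, h⟩ := h
  obtain ⟨C', h'⟩ := h'
  exact ⟨C + C', (h.mul h').congr (fun _ => rfl) fun x => by rw [add_mul, exp_add]⟩

theorem Md.pow (h : Md L f) (n : ℕ) : Md L (f ^ n) := by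
  induction n with
  | zero => exact Md.const 1
  | succ n ih => rw [pow_succ]; exact ih.mul h

theorem Md.add (s : Sc L) (h : Md L f) (h' : Md L g) : Md L (f + g) := by
  obtain ⟨C, h⟩ := h
  obtain ⟨C', h'⟩ := h'
  have k : ∀ a b : ℝ, a ≤ b → (fun x => exp (a * L x)) =O[atTop] fun x => exp (b * L x) :=
    fun a b e => IsBigO.of_bound' ((s.top.eventually_ge_atTop 0).mono fun x hx => by
      simpa using mul_le_mul_of_nonneg_right e hx)
  exact ⟨max C C', (h.trans (k _ _ (le_max_left _ _))).add (h'.trans (k _ _ (le_max_right _ _)))⟩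

theorem Md.id (s : Sc L) : Md L fun x => x := by
  refine Md.of_le (C := 1) ?_
  filter_upwards [s.lg, eventually_gt_atTop 0] with x h1 h2
  rw [abs_of_pos h2, one_mul, ← log_le_iff_le_exp h2]
  exact h1

theorem Md.exp (s : Sc L) (h : f =O[atTop] L) : Md L fun x => exp (f x) := by
  obtain ⟨K, hK⟩ := h.bound
  refine Md.of_le (C := K) ?_
  filter_upwards [hK, s.top.eventually_ge_atTop 0] with x h1 h2
  rw [norm_eq_abs, norm_eq_abs, abs_of_nonneg h2] at h1
  rw [abs_exp]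
  exact exp_le_exp.2 ((le_abs_self _).trans h1)

theorem Un.of_le {C : ℝ} (h : ∀ᶠ x in atTop, exp (-(C * L x)) ≤ |f x|) : Un L f := by
  refine ⟨h.mono fun x hx e => ?_, Md.of_le (C := C) (h.mono fun x hx => ?_)⟩
  · rw [e, abs_zero] at hx
    exact (exp_pos _).not_ge hx
  · rw [Pi.inv_apply, abs_inv]
    rw [exp_neg] at hx
    exact inv_le_of_inv_le₀ (exp_pos _) hx

theorem Un.le (s : Sc L) (h : Un L f) : ∃ C > 0, ∀ᶠ x in atTop, exp (-(C * L x)) ≤ |f x| := by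
  obtain ⟨C, h1, h2⟩ := h.2.le s
  refine ⟨C, h1, ?_⟩
  filter_upwards [h.1, h2] with x a b
  rw [Pi.inv_apply, abs_inv] at b
  rw [exp_neg]
  exact inv_le_of_inv_le₀ (abs_pos.2 a) b

theorem Un.mul (h : Un L f) (h' : Un L g) : Un L (f * g) :=
  ⟨(h.1.and h'.1).mono fun _ a => mul_ne_zero a.1 a.2, by rw [mul_inv]; exact h.2.mul h'.2⟩

theorem Un.inv (h : Md L f) (h' : ∀ᶠ x in atTop, f x ≠ 0) : Un L f⁻¹ :=
  ⟨h'.mono fun _ a => inv_ne_zero a, by rwa [inv_inv]⟩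

theorem Lw.congr (h : Lw L f) (e : f =ᶠ[atTop] g) : Lw L g :=
  h.imp (fun h => (h.and e).mono fun _ a => a.2.symm.trans a.1) fun h =>
    ⟨(h.1.and e).mono fun _ a => a.2 ▸ a.1, h.2.congr e.inv⟩

theorem Lw.mul (h : Lw L f) (h' : Un L g) : Lw L (f * g) :=
  h.imp (fun h => h.mono fun x a => by simp [a]) fun h => h.mul h'

theorem log_O (s : Sc L) (h : Md L f) (h' : Un L f) : (fun x => log (f x)) =O[atTop] L := by
  obtain ⟨C, c1, h1⟩ := h.le s
  obtain ⟨C', c2, h2⟩ := h'.le s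
  refine IsBigO.of_bound (C + C') ?_
  filter_upwards [h1, h2, s.top.eventually_ge_atTop 0] with x a b c
  have p : 0 < |f x| := (exp_pos _).trans_le b
  rw [← log_le_iff_le_exp p] at a
  rw [← le_log_iff_exp_le p] at b
  rw [norm_eq_abs, norm_eq_abs, ← log_abs, abs_of_nonneg c, abs_le]
  constructor <;> nlinarith

theorem Md.self (s : Sc L) : Md L L := by
  refine Md.of_le (C := 1) ((s.top.eventually_ge_atTop 0).mono fun x hx => ?_)
  rw [abs_of_nonneg hx, one_mul]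
  linarith [add_one_le_exp (L x)]

theorem un_of_pos_deriv (s : Sc L) {C : ℝ} (hC : 0 < C)
    (h : ∀ᶠ x in atTop, HasDerivAt f (g x) x ∧ exp (-(C * L x)) ≤ g x) : Un L f := by
  obtain ⟨x₀, h⟩ := eventually_atTop.1 h
  have mv : ∀ a b, x₀ ≤ a → a < b → ∃ ξ ∈ Ioo a b, exp (-(C * L ξ)) * (b - a) ≤ f b - f a := by
    intro a b ha hab
    obtain ⟨ξ, k1, k2⟩ := exists_hasDerivAt_eq_slope f g hab
      (fun x hx => (h x (ha.trans hx.1)).1.continuousAt.continuousWithinAt)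
      fun x hx => (h x (ha.trans hx.1.le)).1
    exact ⟨ξ, k1, (le_div_iff₀ (sub_pos.2 hab)).1 (k2 ▸ (h ξ (ha.trans k1.1.le)).2)⟩
  by_cases hp : ∃ a, x₀ ≤ a ∧ 0 < f a
  · obtain ⟨a, h1, h2⟩ := hp
    refine Un.of_le (C := 1) ?_
    filter_upwards [eventually_gt_atTop a, s.top.eventually_ge_atTop (-log (f a))] with x k1 k2
    obtain ⟨ξ, -, k3⟩ := mv a x h1 k1
    have : 0 < exp (-(C * L ξ)) * (x - a) := mul_pos (exp_pos _) (sub_pos.2 k1)
    refine le_trans ?_ (le_abs_self _)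
    calc exp (-(1 * L x)) ≤ exp (log (f a)) := exp_le_exp.2 (by linarith)
      _ = f a := exp_log h2
      _ ≤ f x := by linarith
  · push Not at hp
    refine Un.of_le (C := 4 * C) ?_
    filter_upwards [eventually_ge_atTop x₀, s.reg] with x k1 k2
    obtain ⟨ξ, k3, k4⟩ := mv x (x + 1) k1 (lt_add_one x)
    have := hp (x + 1) (by linarith)
    have k5 := k2 ξ (Ioo_subset_Icc_self k3)
    refine le_trans ?_ (neg_le_abs _)
    calc exp (-(4 * C * L x)) ≤ exp (-(C * L ξ)) := exp_le_exp.2 (by nlinarith)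
      _ ≤ -f x := by linarith

theorem lw_of_deriv (s : Sc L) (h : ∀ᶠ x in atTop, HasDerivAt f (g x) x) (hg : Lw L g) :
    Lw L f := by
  rcases hg with hg | hg
  · obtain ⟨x₀, k⟩ := eventually_atTop.1 (h.and hg)
    have e : ∀ᶠ x in atTop, f x = f x₀ := (eventually_gt_atTop x₀).mono fun x hx => by
      obtain ⟨ξ, k1, k2⟩ := exists_hasDerivAt_eq_slope f g hx
        (fun x hx => (k x hx.1).1.continuousAt.continuousWithinAt) fun x hx => (k x hx.1.le).1
      rw [(k ξ k1.1.le).2, eq_comm, div_eq_zero_iff] at k2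
      exact sub_eq_zero.1 (k2.resolve_right (sub_pos.2 hx).ne')
    by_cases h0 : f x₀ = 0
    · exact Or.inl (h0 ▸ e)
    · exact Or.inr ⟨e.mono fun x hx => hx ▸ h0,
        (Md.const (f x₀)⁻¹).congr (e.mono fun x hx => by simp [hx])⟩
  · obtain ⟨C, hC, h1⟩ := hg.le s
    obtain ⟨x₀, k⟩ := eventually_atTop.1 (h.and hg.1)
    rcases hasDerivWithinAt_forall_lt_or_forall_gt_of_forall_ne (convex_Ici x₀)
      (fun x hx => (k x hx).1.hasDerivWithinAt) fun x hx => (k x hx).2 with a | a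
    · have := un_of_pos_deriv (f := -f) (g := -g) s hC (by
        filter_upwards [h, h1, eventually_ge_atTop x₀] with x k1 k2 k3
        exact ⟨k1.neg, by rwa [abs_of_neg (a x k3)] at k2⟩)
      exact Or.inr ⟨this.1.mono fun x hx => neg_ne_zero.1 hx, this.2.of_O
        (IsBigO.of_bound' (Eventually.of_forall fun x => by simp))⟩
    · exact Or.inr (un_of_pos_deriv s hC (by
        filter_upwards [h, h1, eventually_ge_atTop x₀] with x k1 k2 k3
        exact ⟨k1, by rwa [abs_of_pos (a x k3)] at k2⟩))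

end

def MQ (L : Fn) (V : ℕ → AddSubgroup Fn) : Prop := ∀ a, ∀ f ∈ V a, Md L f ∧ Lw L f

theorem MQ.ext {L : Fn} (s : Sc L) {V : ℕ → AddSubgroup Fn} {Δ y w g α β : Fn} (h : Ch V Δ)
    (D : Dat V Δ y w g α β) (hQ : MQ L V) (h1 : Md L y) (h2 : Md L w) (h3 : Md L w⁻¹) :
    MQ L (ext V y) := by
  have pos : ∀ {u : Fn}, (∀ x > 0, 0 < u x) → ∀ᶠ x in atTop, u x ≠ 0 := fun hu =>
    (eventually_gt_atTop 0).mono fun x hx => (hu x hx).ne'
  have key : ∀ d i, ∀ f ∈ PL V y i d, Lw L f := by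
    intro d
    induction d with
    | zero =>
      exact fun i f hf => Or.inl (Eventually.of_forall (PL.ind (P := fun f => ∀ x, f x = 0)
        (fun _ => rfl) (fun _ _ a b x => by simp [a x, b x])
        (fun _ _ _ e => absurd e (by omega)) hf))
    | succ d ih =>
      intro i f hf
      obtain ⟨c, hc, hr, N, hN, hd⟩ := PL.step h D hf
      rcases (hQ _ c hc).2 with a | a
      · exact (ih _ _ hr).congr (a.mono fun x hx => by simp [hx])
      have hw : Un L (w ^ d) := ⟨pos fun x hx => pow_pos (D.wpos x hx) d, by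
        rw [← inv_pow]; exact h3.pow d⟩
      obtain ⟨n, hn⟩ := h.den
      have k1 : Un L (Δ * g * c ^ 2 * w ^ d)⁻¹ :=
        Un.inv ((((hQ _ _ hn).1.mul (hQ _ _ D.hg).1).mul ((hQ _ c hc).1.pow 2)).mul (h2.pow d)) (by
          filter_upwards [pos h.pos, pos D.gpos, a.1, hw.1] with x a1 a2 a3 a4
          exact mul_ne_zero (mul_ne_zero (mul_ne_zero a1 a2) (pow_ne_zero 2 a3)) a4)
      have k2 := lw_of_deriv (f := f / (c * w ^ d)) s (by
        filter_upwards [eventually_gt_atTop 0, a.1] with x a1 a2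
        exact hd x a1 a2) ((ih _ _ hN).mul k1)
      refine (k2.mul (a.mul hw)).congr ((a.mul hw).1.mono fun x hx => ?_)
      exact div_mul_cancel₀ _ hx
  exact fun a f hf => ⟨PL.ind (Md.const 0) (fun _ _ => Md.add s)
    (fun c hc k _ => (hQ _ c hc).1.mul (h1.pow k)) hf, key _ _ f hf⟩

/-! Functions that can be reached from every tower with the property `Q`. -/

/-- `Q` is preserved by extensions by functions with the property `ok`. -/
structure Inv (Q : ℕ → (ℕ → AddSubgroup Fn) → Prop) (ok : Fn → Prop) : Prop where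
  step : ∀ {n V Δ y w g α β}, Ch V Δ → Dat V Δ y w g α β → Q n V → ok y → ok w → ok w⁻¹ →
    Q (n + 1) (ext V y)
  one : ok 1

def Reach (Q : ℕ → (ℕ → AddSubgroup Fn) → Prop) (n : ℕ) (F : Fn) : Prop :=
  ∀ m V Δ, Ch V Δ → Q m V → ∃ V' Δ', Ch V' Δ' ∧ Q (m + n) V' ∧ (∀ a, V a ≤ V' a) ∧ F ∈ V' 1

section
variable {Q : ℕ → (ℕ → AddSubgroup Fn) → Prop} {ok : Fn → Prop} {n k : ℕ} {F G : Fn}

theorem Reach.next (I : Inv Q ok) (h : Reach Q n F) (hk : ∀ V Δ, Ch V Δ → F ∈ V 1 →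
    ∃ y w g α β, Dat V Δ y w g α β ∧ ok y ∧ ok w ∧ ok w⁻¹ ∧ G ∈ ext V y 1) :
    Reach Q (n + 1) G := by
  intro m V Δ h1 h2
  obtain ⟨V', Δ', a1, a2, a3, a4⟩ := h m V Δ h1 h2
  obtain ⟨y, w, g, α, β, D, b1, b2, b3, b4⟩ := hk V' Δ' a1 a4
  exact ⟨_, _, a1.ext D, I.step a1 D a2 b1 b2 b3, fun a => (a3 a).trans (a1.le_ext y a), b4⟩

theorem Dat.lin {V : ℕ → AddSubgroup Fn} {Δ y g β : Fn} (h : Ch V Δ) (hg : g ∈ V 2) (hβ : β ∈ V 2)
    (gpos : ∀ x > 0, 0 < g x) (dy : ∀ x > 0, HasDerivAt y (β x / (Δ x * g x)) x)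
    (any : AnalyticOnNhd ℝ y (Ioi 0)) : Dat V Δ y 1 g 0 β :=
  ⟨hg, zero_mem _, hβ, gpos, fun _ _ => one_pos, fun x hx => by simpa using dy x hx,
    fun x _ => (hasDerivAt_const x (1 : ℝ)).congr_deriv (by simp), any⟩

theorem Dat.triv {V : ℕ → AddSubgroup Fn} {Δ : Fn} (h : Ch V Δ) : Dat V Δ 1 1 1 0 0 :=
  Dat.lin h (h.mono (by omega) (h.const 1)) (zero_mem _) (fun _ _ => one_pos)
    (fun x _ => (hasDerivAt_const x (1 : ℝ)).congr_deriv (by simp)) analyticOnNhd_const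

theorem Reach.const (c : ℝ) : Reach Q 0 fun _ => c :=
  fun _ V Δ h1 h2 => ⟨V, Δ, h1, h2, fun _ => le_rfl, h1.mono (by omega) (h1.const c)⟩

theorem Reach.mono (I : Inv Q ok) (h : Reach Q n F) (e : n ≤ k) : Reach Q k F := by
  induction e with
  | refl => exact h
  | step _ ih =>
    exact ih.next I fun V Δ h1 h2 =>
      ⟨_, _, _, _, _, Dat.triv h1, I.one, I.one, by simpa using I.one, h1.le_ext _ _ h2⟩

theorem Reach.both (h : Reach Q n F) (h' : Reach Q k G) (m : ℕ) (V : ℕ → AddSubgroup Fn) (Δ : Fn)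
    (h1 : Ch V Δ) (h2 : Q m V) : ∃ V' Δ', Ch V' Δ' ∧ Q (m + (n + k)) V' ∧ (∀ a, V a ≤ V' a) ∧
      F ∈ V' 1 ∧ G ∈ V' 1 := by
  obtain ⟨V', Δ', a1, a2, a3, a4⟩ := h m V Δ h1 h2
  obtain ⟨V'', Δ'', b1, b2, b3, b4⟩ := h' _ V' Δ' a1 a2
  exact ⟨V'', Δ'', b1, by rwa [← add_assoc], fun a => (a3 a).trans (b3 a), b3 1 a4, b4⟩

theorem Reach.add (h : Reach Q n F) (h' : Reach Q k G) : Reach Q (n + k) (F + G) := by
  intro m V Δ h1 h2
  obtain ⟨V', Δ', a1, a2, a3, a4, a5⟩ := h.both h' m V Δ h1 h2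
  exact ⟨V', Δ', a1, a2, a3, add_mem a4 a5⟩

theorem Reach.neg (h : Reach Q n F) : Reach Q n (-F) := by
  intro m V Δ h1 h2
  obtain ⟨V', Δ', a1, a2, a3, a4⟩ := h m V Δ h1 h2
  exact ⟨V', Δ', a1, a2, a3, neg_mem a4⟩

theorem Reach.mul (I : Inv Q ok) (h : Reach Q n F) (h' : Reach Q k G) :
    Reach Q (n + k + 1) (F * G) := by
  intro m V Δ h1 h2
  obtain ⟨V', Δ', a1, a2, a3, a4, a5⟩ := h.both h' m V Δ h1 h2
  exact ⟨_, _, a1.ext (Dat.triv a1), I.step a1 (Dat.triv a1) a2 I.one I.one (by simpa using I.one),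
    fun a => (a3 a).trans (a1.le_ext _ a), PL.base (a1.mono (by omega) (a1.mul a4 a5))⟩

theorem self_ext {V : ℕ → AddSubgroup Fn} {Δ : Fn} (h : Ch V Δ) (y : Fn) : y ∈ ext V y 1 := by
  have := PL.gen (y := y) (k := 1) (d := 2) (h.mono (Nat.zero_le 3) (h.const 1)) (by omega)
  rwa [pow_one, show ((fun _ => 1 : Fn)) = 1 from rfl, one_mul] at this

theorem Reach.log (I : Inv Q ok) (h : Reach Q n F) (hp : ∀ x > 0, 0 < F x)
    (ho : ok fun x => log (F x)) : Reach Q (n + 1) fun x => log (F x) :=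
  h.next I fun V Δ h1 h2 => by
    obtain ⟨u, a1, a2⟩ := h1.der h2
    exact ⟨_, _, _, _, _, Dat.lin h1 (h1.mono (by omega) h2) a1 hp (fun x hx => by
      rw [← div_div]; exact (a2 x hx).log (hp x hx).ne') ((h1.an h2).log hp),
      ho, I.one, by simpa using I.one, self_ext h1 _⟩

theorem Reach.exp (I : Inv Q ok) (h : Reach Q n F) (ho : ok fun x => exp (F x))
    (ho' : ok (fun x => exp (F x))⁻¹) : Reach Q (n + 1) fun x => exp (F x) :=
  h.next I fun V Δ h1 h2 => by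
    obtain ⟨u, a1, a2⟩ := h1.der h2
    have d : ∀ x > 0, HasDerivAt (fun x => Real.exp (F x))
        (u x * Real.exp (F x) / (Δ x * (1 : Fn) x)) x :=
      fun x hx => (a2 x hx).exp.congr_deriv (by simp; ring)
    exact ⟨_, _, 1, u, 0, ⟨h1.mono (by omega) (h1.const 1), a1, zero_mem _, fun _ _ => one_pos,
      fun x _ => exp_pos _, fun x hx => by simpa using d x hx, d, (h1.an h2).rexp⟩,
      ho, ho, ho', self_ext h1 _⟩

end

/-- The constants. -/
def V0 (_ : ℕ) : AddSubgroup Fn where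
  carrier := {f | ∃ c : ℝ, f = fun _ => c}
  add_mem' := by rintro _ _ ⟨c, rfl⟩ ⟨d, rfl⟩; exact ⟨c + d, rfl⟩
  zero_mem' := ⟨0, rfl⟩
  neg_mem' := by rintro _ ⟨c, rfl⟩; exact ⟨-c, rfl⟩

theorem ch_V0 : Ch V0 1 where
  mono := fun _ _ _ => le_rfl
  const := fun c => ⟨c, rfl⟩
  mul := by rintro _ _ _ _ ⟨c, rfl⟩ ⟨d, rfl⟩; exact ⟨c * d, rfl⟩
  der := by
    rintro _ _ ⟨c, rfl⟩
    exact ⟨0, zero_mem _, fun x _ => (hasDerivAt_const x c).congr_deriv (by simp)⟩
  an := by rintro _ _ ⟨c, rfl⟩; exact analyticOnNhd_const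
  pos := fun _ _ => one_pos
  den := ⟨0, 1, rfl⟩

theorem dat_V0 : Dat V0 1 (fun x => x) 1 1 0 1 :=
  Dat.lin ch_V0 ⟨1, rfl⟩ ⟨1, rfl⟩ (fun _ _ => one_pos)
    (fun x _ => (hasDerivAt_id x).congr_deriv (by simp)) analyticOnNhd_id

/-- `Q`, for towers that contain the identity. -/
def Wi (Q : ℕ → (ℕ → AddSubgroup Fn) → Prop) (n : ℕ) (V : ℕ → AddSubgroup Fn) : Prop :=
  Q n V ∧ (fun x => x) ∈ V 1

theorem Reach.id {Q : ℕ → (ℕ → AddSubgroup Fn) → Prop} : Reach (Wi Q) 0 fun x => x :=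
  fun _ V Δ h1 h2 => ⟨V, Δ, h1, h2, fun _ => le_rfl, h2.2⟩

theorem inv_ZQ : Inv (Wi ZQ) fun _ => True :=
  ⟨fun h D q _ _ _ => ⟨q.1.ext h D, h.le_ext _ _ q.2⟩, trivial⟩

theorem Reach.zb {n : ℕ} {F : Fn} (h : Reach (Wi ZQ) n F) :
    Zb F (Bd (1 + n) 1) ∧ AnalyticOnNhd ℝ F (Ioi 0) := by
  have h0 : ZQ 0 V0 := by
    rintro a _ ⟨c, rfl⟩
    by_cases e : c = 0
    · exact Or.inl fun _ _ => e
    · exact Or.inr ⟨∅, by simp, fun _ _ k => absurd k e⟩
  obtain ⟨V, Δ, a1, a2, -, a4⟩ :=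
    h 1 _ _ (ch_V0.ext dat_V0) ⟨h0.ext ch_V0 dat_V0, self_ext ch_V0 _⟩
  exact ⟨a2.1 1 F a4, a1.an a4⟩

theorem inv_MQ {L : Fn} (s : Sc L) : Inv (Wi fun _ => MQ L) (Md L) :=
  ⟨fun h D q a b c => ⟨q.1.ext s h D a b c, h.le_ext _ _ q.2⟩, Md.const 1⟩

/-- `F` agrees on `(0, ∞)` with a function in a tower of functions of moderate growth. -/
def Tm (L F : Fn) : Prop := ∃ n G, Reach (Wi fun _ => MQ L) n G ∧ ∀ x > 0, F x = G x

section
variable {L F G : Fn}

theorem Tm.md (s : Sc L) (h : Tm L F) : Md L F ∧ Lw L F := by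
  obtain ⟨n, G, h, e⟩ := h
  have h0 : MQ L V0 := by
    rintro a _ ⟨c, rfl⟩
    refine ⟨Md.const c, ?_⟩
    by_cases e : c = 0
    · exact Or.inl (Eventually.of_forall fun _ => e)
    · exact Or.inr ⟨Eventually.of_forall fun _ => e, Md.const c⁻¹⟩
  obtain ⟨V, Δ, -, a2, -, a4⟩ := h 1 _ _ (ch_V0.ext dat_V0)
    ⟨h0.ext s ch_V0 dat_V0 (Md.id s) (Md.const 1) (Md.const 1⁻¹), self_ext ch_V0 _⟩
  have e' : G =ᶠ[atTop] F := (eventually_gt_atTop 0).mono fun x hx => (e x hx).symm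
  exact ⟨(a2.1 1 G a4).1.congr e', (a2.1 1 G a4).2.congr e'⟩

theorem Tm.congr (h : Tm L F) (e : ∀ x > 0, G x = F x) : Tm L G := by
  obtain ⟨n, G, h, e'⟩ := h
  exact ⟨n, G, h, fun x hx => (e x hx).trans (e' x hx)⟩

theorem Tm.const (c : ℝ) : Tm L fun _ => c := ⟨0, _, Reach.const c, fun _ _ => rfl⟩

theorem Tm.id : Tm L fun x => x := ⟨0, _, Reach.id, fun _ _ => rfl⟩

theorem Tm.add (h : Tm L F) (h' : Tm L G) : Tm L (F + G) := by
  obtain ⟨n, F', h, e⟩ := h
  obtain ⟨n', G', h', e'⟩ := h'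
  exact ⟨_, _, h.add h', fun x hx => by simp [e x hx, e' x hx]⟩

theorem Tm.mul (s : Sc L) (h : Tm L F) (h' : Tm L G) : Tm L (F * G) := by
  obtain ⟨n, F', h, e⟩ := h
  obtain ⟨n', G', h', e'⟩ := h'
  exact ⟨_, _, h.mul (inv_MQ s) h', fun x hx => by simp [e x hx, e' x hx]⟩

theorem Tm.log (s : Sc L) (h : Tm L F) (hp : ∀ x > 0, 0 < F x) : Tm L fun x => log (F x) := by
  obtain ⟨n, F', h', e⟩ := h
  have k := Tm.md s ⟨n, F', h', fun _ _ => rfl⟩
  have hp' : ∀ x > 0, 0 < F' x := fun x hx => e x hx ▸ hp x hx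
  refine ⟨_, _, h'.log (inv_MQ s) hp' ((Md.self s).of_O (log_O s k.1 (k.2.resolve_left fun a => ?_))),
    fun x hx => congrArg Real.log (e x hx)⟩
  obtain ⟨x, h1, h2⟩ := (a.and (eventually_gt_atTop 0)).exists
  exact (hp' x h2).ne' h1

theorem Tm.exp (s : Sc L) (h : Tm L F) (hO : F =O[atTop] L) : Tm L fun x => exp (F x) := by
  obtain ⟨n, F', h', e⟩ := h
  have hO' : F' =O[atTop] L :=
    hO.congr' ((eventually_gt_atTop 0).mono e) EventuallyEq.rfl
  exact ⟨_, _, h'.exp (inv_MQ s) (Md.exp s hO') ((Md.exp s hO'.neg_left).congr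
    (Eventually.of_forall fun x => by simp [exp_neg])), fun x hx => congrArg Real.exp (e x hx)⟩

theorem Tm.poly (s : Sc L) {R : Type} [CommSemiring R] [Algebra R ℝ] (p : Polynomial R) :
    Tm L fun x => Polynomial.aeval x p := by
  induction p using Polynomial.recOnHorner with
  | M0 => exact (Tm.const 0).congr fun _ _ => by simp
  | MC p a _ _ ih => exact (ih.add (Tm.const (algebraMap R ℝ a))).congr fun _ _ => by simp
  | MX p _ ih => exact (ih.mul s Tm.id).congr fun _ _ => by simp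

/-- Powers with exponent `x` of quotients. -/
theorem Tm.rpow (s : Sc L) (h : Tm L F) (h' : Tm L G) (hp : ∀ x > 0, 0 < F x)
    (hp' : ∀ x > 0, 0 < G x) (hO : (fun x => x * Real.log (F x / G x)) =O[atTop] L) :
    Tm L fun x => (F x / G x) ^ x := by
  have k : Tm L fun x => x * Real.log (F x / G x) :=
    (Tm.id.mul s ((h.log s hp).add ((Tm.const (-1)).mul s (h'.log s hp')))).congr fun x hx => by
      simp [log_div (hp x hx).ne' (hp' x hx).ne', sub_eq_add_neg]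
  exact (k.exp s hO).congr fun x hx => by
    rw [rpow_def_of_pos (div_pos (hp x hx) (hp' x hx)), mul_comm]

theorem Tm.sum {ι : Type} {v : ι → Fn} {l : List ι} (h : ∀ i ∈ l, Tm L (v i)) :
    Tm L (l.map v).sum := by
  induction l with
  | nil => exact Tm.const 0
  | cons i l ih =>
    rw [List.map_cons, List.sum_cons]
    exact (h i List.mem_cons_self).add (ih fun j m => h j (List.mem_cons_of_mem _ m))

end

theorem sc_log : Sc log := by
  refine ⟨tendsto_log_atTop, (eventually_ge_atTop 2).mono fun x hx s hs => ?_,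
    Eventually.of_forall fun _ => le_rfl⟩
  have h1 : log s ≤ log (x ^ 2) := log_le_log (by linarith [hs.1]) (by nlinarith [hs.2])
  have h2 := log_nonneg (show 1 ≤ x by linarith)
  rw [log_pow] at h1
  push_cast at h1
  linarith

theorem sc_id : Sc fun x => x :=
  ⟨tendsto_id, (eventually_ge_atTop 1).mono fun x hx s hs => by linarith [hs.2],
    (eventually_gt_atTop 0).mono fun x hx => by linarith [log_le_sub_one_of_pos hx]⟩

theorem sc_xlog : Sc fun x => x * log x := by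
  refine ⟨tendsto_id.atTop_mul_atTop₀ tendsto_log_atTop,
    (eventually_ge_atTop 2).mono fun x hx s hs => ?_, (eventually_ge_atTop 1).mono fun x hx => ?_⟩
  · have h1 : log s ≤ log (x ^ 2) := log_le_log (by linarith [hs.1]) (by nlinarith [hs.2])
    have h2 := log_nonneg (show 1 ≤ s by linarith [hs.1])
    rw [log_pow] at h1
    push_cast at h1
    calc s * log s ≤ (2 * x) * (2 * log x) :=
          mul_le_mul (by linarith [hs.2]) h1 h2 (by linarith)
      _ = 4 * (x * log x) := by ring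
  · nlinarith [log_nonneg hx]

end Pool.Agent.MP_b50963_lc
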